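import Pool.Agent.Helper70K9.GC.SdU

/-!
# The duality statement for `S`-units over all constant fields algebraic over `F_p`
-/

set_option autoImplicit false

namespace Pool.Agent.Helper70K9.GC

namespace AlgL

open Polynomial H39Gon H39Gon.TaskB Module SpdL

theorem fin_step {K L : Type} [Field K] [Finite K] [Field L] [Finite L] [Algebra K L] (p : ℕ)
    [Fact p.Prime] [CharP L p] {D : ℕ} (hD : 0 < D) (i : K[X]) (hi : Irreducible i)
    (hiD : i.natDegree ∣ D) (R' : L[X]) (hR' : R' ∣ i.map (algebraMap K L))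
    (hR0 : R'.natDegree ≠ 0) :
    ∃ M : L[X], 0 < M.natDegree ∧ M.natDegree ∣ D ∧ M ∣ R' := by
  classical
  have : NeZero D := ⟨hD.ne'⟩
  let E : Type := FiniteField.Extension L p D
  have hE : finrank L E = D := FiniteField.finrank_extension L p D
  have hEf : Finite E := inferInstance
  let _ : Algebra K E := ((algebraMap L E).comp (algebraMap K L)).toAlgebra
  have : IsScalarTower K L E := IsScalarTower.of_algebraMap_eq (fun _ => rfl)
  have hfin : finrank K L * finrank L E = finrank K E := finrank_mul_finrank K L E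
  obtain ⟨z, hz⟩ := exists_root (K := K) (E := E) i hi
    (hiD.trans (by rw [← hfin, hE]; exact dvd_mul_left _ _))
  have hs : Splits ((minpoly K z).map (algebraMap K E)) := Normal.splits inferInstance z
  have hmp : i * C i.leadingCoeff⁻¹ = minpoly K z := minpoly.eq_of_irreducible hi hz
  have hfd : FiniteDimensional K E := Module.Finite.of_finite
  have hfd2 : FiniteDimensional L E := Module.Finite.of_finite
  have hd : R'.map (algebraMap L E) ∣ (minpoly K z).map (algebraMap K E) := by
    have h1 : R'.map (algebraMap L E) ∣ (i.map (algebraMap K L)).map (algebraMap L E) :=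
      Polynomial.map_dvd _ hR'
    rw [Polynomial.map_map] at h1
    refine h1.trans ?_
    rw [← hmp, Polynomial.map_mul]
    exact dvd_mul_right _ _
  have hm0 : (minpoly K z).map (algebraMap K E) ≠ 0 := by
    rw [Polynomial.map_ne_zero_iff (algebraMap K E).injective]
    exact minpoly.ne_zero (IsIntegral.of_finite K z)
  have hs2 : Splits (R'.map (algebraMap L E)) := hs.of_dvd hm0 hd
  obtain ⟨w, hw⟩ := hs2.exists_eval_eq_zero (by
    apply degree_ne_of_natDegree_ne
    rw [natDegree_map]
    exact hR0)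
  have hint : IsIntegral L w := IsIntegral.of_finite L w
  refine ⟨minpoly L w, minpoly.natDegree_pos hint, ?_, ?_⟩
  · exact (mp_dvd w).trans (dvd_of_eq hE)
  · apply minpoly.dvd
    rw [aeval_def, eval₂_eq_eval_map]
    exact hw

/-- every element of an algebraic extension of `F_p` lies in a finite subfield. -/
theorem finSub (p : ℕ) [Fact p.Prime] (k : Type) [Field k] [Algebra (ZMod p) k]
    [Algebra.IsAlgebraic (ZMod p) k] (x : k) : ∃ K : Subfield k, Finite K ∧ x ∈ K := by
  have hint : IsIntegral (ZMod p) x := (Algebra.IsAlgebraic.isAlgebraic x).isIntegral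
  have h1 : FiniteDimensional (ZMod p) (IntermediateField.adjoin (ZMod p) {x}) :=
    IntermediateField.adjoin.finiteDimensional hint
  have h2 : Finite (IntermediateField.adjoin (ZMod p) {x}) := Module.finite_of_finite (ZMod p)
  exact ⟨(IntermediateField.adjoin (ZMod p) {x}).toSubfield, h2,
    IntermediateField.mem_adjoin_simple_self (ZMod p) x⟩

theorem constTorsA (p : ℕ) [Fact p.Prime] (k : Type) [Field k] [Algebra (ZMod p) k]
    [Algebra.IsAlgebraic (ZMod p) k] : ConstTors k := by
  intro c hc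
  obtain ⟨K, hK, hcK⟩ := finSub p k c
  let _ : Fintype K := Fintype.ofFinite K
  obtain ⟨n, hn, h⟩ := TsdL.constTors (k := K) ⟨c, hcK⟩ (by
    intro h
    exact hc (congrArg Subtype.val h))
  exact ⟨n, hn, congrArg Subtype.val h⟩

section

variable {k : Type} [Field k]

theorem SP_map_irr {K : Type} [Field K] [Finite K] (p : ℕ) [Fact p.Prime]
    [Algebra (ZMod p) k] [Algebra.IsAlgebraic (ZMod p) k] (ι : K →+* k) {D : ℕ} (hD : 0 < D)
    (i : K[X]) (hi : Irreducible i) (hiD : i.natDegree ∣ D) : SP D (i.map ι) := by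
  classical
  intro R hR hRd
  let _ := Fintype.ofFinite K
  set S : Finset k := R.coeffs ∪ Finset.univ.image ι with hS
  let L := IntermediateField.adjoin (ZMod p) (S : Set k)
  have : FiniteDimensional (ZMod p) L :=
    IntermediateField.finiteDimensional_adjoin
      (fun x _ => (Algebra.IsAlgebraic.isAlgebraic x).isIntegral)
  have : Finite L := Module.finite_of_finite (ZMod p)
  have : CharP L p := charP_of_injective_algebraMap (algebraMap (ZMod p) L).injective p
  have hmem : ∀ a : K, ι a ∈ L := fun a => IntermediateField.subset_adjoin _ _ (by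
    rw [hS]
    simp)
  let j : K →+* L := ι.codRestrict L hmem
  let _ : Algebra K L := j.toAlgebra
  have hj : (algebraMap L k).comp (algebraMap K L) = ι := RingHom.ext fun a => rfl
  obtain ⟨R', hR'⟩ : ∃ R' : L[X], R'.map (algebraMap L k) = R := by
    have h1 : R ∈ Polynomial.lifts (algebraMap L k) := by
      rw [Polynomial.lifts_iff_coeff_lifts]
      intro n
      by_cases hn : R.coeff n = 0
      · exact ⟨0, by rw [hn, map_zero]⟩
      · refine ⟨⟨R.coeff n, IntermediateField.subset_adjoin _ _ ?_⟩, rfl⟩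
        rw [hS, Finset.coe_union]
        exact Or.inl (coeff_mem_coeffs hn)
    exact (Polynomial.mem_lifts R).1 h1
  have hdv : R' ∣ i.map (algebraMap K L) := by
    rw [← Polynomial.map_dvd_map' (algebraMap L k), hR', Polynomial.map_map, hj]
    exact hRd
  have hR0 : R'.natDegree ≠ 0 := by
    rw [← natDegree_map (algebraMap L k), hR']
    exact hR.natDegree_pos.ne'
  obtain ⟨M, hM0, hMD, hMR⟩ := fin_step p hD i hi hiD R' hdv hR0
  have h1 : M.map (algebraMap L k) ∣ R := by
    rw [← hR']
    exact Polynomial.map_dvd _ hMR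
  obtain ⟨c, hc⟩ := h1
  rcases hR.isUnit_or_isUnit hc with h2 | h2
  · exfalso
    have h3 := natDegree_eq_zero_of_isUnit h2
    rw [natDegree_map] at h3
    omega
  · have hne : M.map (algebraMap L k) * c ≠ 0 := by rw [← hc]; exact hR.ne_zero
    rw [hc, natDegree_mul (left_ne_zero_of_mul hne) (right_ne_zero_of_mul hne),
      natDegree_eq_zero_of_isUnit h2, add_zero, natDegree_map]
    exact hMD

theorem SP_map {K : Type} [Field K] [Finite K] (p : ℕ) [Fact p.Prime]
    [Algebra (ZMod p) k] [Algebra.IsAlgebraic (ZMod p) k] (ι : K →+* k) {D : ℕ} (hD : 0 < D)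
    (P : K[X]) (hP0 : P ≠ 0) (hP : SP D P) : SP D (P.map ι) := by
  induction P using WfDvdMonoid.induction_on_irreducible with
  | zero => exact absurd rfl hP0
  | unit u hu => exact SP.unit (hu.map (mapRingHom ι))
  | mul a i ha hi ih =>
    rw [Polynomial.map_mul]
    exact (SP_map_irr p ι hD i hi (hP i hi (dvd_mul_right i a))).mul
      (ih ha (hP.dvd (dvd_mul_left a i)))

theorem SP_lift {D : ℕ} (P : k[X]) (hP0 : P ≠ 0) (hP : SP D P) :
    ∃ S : Finset k, ∀ (K : Type) [Field K] (ι : K →+* k), (∀ a ∈ S, ∃ b, ι b = a) →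
      ∃ P' : K[X], P'.map ι = P ∧ SP D P' := by
  classical
  induction P using WfDvdMonoid.induction_on_irreducible with
  | zero => exact absurd rfl hP0
  | unit u hu =>
    obtain ⟨c, hc, rfl⟩ := Polynomial.isUnit_iff.1 hu
    refine ⟨{c}, fun K _ ι h => ?_⟩
    obtain ⟨b, hb⟩ := h c (by simp)
    refine ⟨C b, by rw [Polynomial.map_C, hb], SP.C ?_⟩
    rintro rfl
    exact hc.ne_zero (by rw [← hb, map_zero])
  | mul a i ha hi ih =>
    obtain ⟨S, hS⟩ := ih ha (hP.dvd (dvd_mul_left a i))
    refine ⟨S ∪ i.coeffs, fun K _ ι h => ?_⟩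
    obtain ⟨a', ha', hSa⟩ := hS K ι (fun x hx => h x (Finset.mem_union_left _ hx))
    obtain ⟨i', hi'⟩ : ∃ i' : K[X], i'.map ι = i := by
      have h1 : i ∈ Polynomial.lifts ι := by
        rw [Polynomial.lifts_iff_coeff_lifts]
        intro n
        by_cases hn : i.coeff n = 0
        · exact ⟨0, by rw [hn, map_zero]⟩
        · exact h _ (Finset.mem_union_right _ (coeff_mem_coeffs hn))
      exact (Polynomial.mem_lifts i).1 h1
    refine ⟨i' * a', by rw [Polynomial.map_mul, hi', ha'], SP.mul ?_ hSa⟩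
    intro R hR hRd
    have h2 : R.map ι ∣ i := by
      rw [← hi']
      exact Polynomial.map_dvd _ hRd
    obtain ⟨c, hc⟩ := h2
    rcases hi.isUnit_or_isUnit hc with h3 | h3
    · exfalso
      have h4 := natDegree_eq_zero_of_isUnit h3
      rw [natDegree_map] at h4
      exact hR.natDegree_pos.ne' h4
    · have hne : R.map ι * c ≠ 0 := by rw [← hc]; exact hi.ne_zero
      have h5 := hP i hi (dvd_mul_right i a)
      rw [hc, natDegree_mul (left_ne_zero_of_mul hne) (right_ne_zero_of_mul hne),
        natDegree_eq_zero_of_isUnit h3, add_zero, natDegree_map] at h5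
      exact h5

theorem phi_inj {K : Type} [Field K] (ι : K →+* k) :
    Function.Injective ((algebraMap k[X] (RatFunc k)).comp (mapRingHom ι)) :=
  (RatFunc.algebraMap_injective k).comp (Polynomial.map_injective ι ι.injective)

/-- the map `K(x) → k(x)` induced by `ι : K → k`. -/
noncomputable def phi {K : Type} [Field K] (ι : K →+* k) : RatFunc K →+* RatFunc k :=
  IsFractionRing.lift (A := K[X]) (K := RatFunc K) (phi_inj ι)

theorem phi_alg {K : Type} [Field K] (ι : K →+* k) (P : K[X]) :
    phi ι (algebraMap K[X] (RatFunc K) P) = algebraMap k[X] (RatFunc k) (P.map ι) := by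
  unfold phi
  rw [IsFractionRing.lift_algebraMap]
  rfl

theorem SU_phi {K : Type} [Field K] [Finite K] (p : ℕ) [Fact p.Prime]
    [Algebra (ZMod p) k] [Algebra.IsAlgebraic (ZMod p) k] (ι : K →+* k) {D : ℕ} (hD : 0 < D)
    (f : RatFunc K) (hf : SU D f) : SU D (phi ι f) := by
  have h1 := SU_iff.1 hf
  rw [← RatFunc.num_div_denom f, map_div₀, phi_alg, phi_alg]
  have hn := RatFunc.num_ne_zero hf.1
  have hd := RatFunc.denom_ne_zero f
  exact (SU.alg ((Polynomial.map_ne_zero_iff ι.injective).2 hn) (SP_map p ι hD _ hn h1.2.1)).div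
    (SU.alg ((Polynomial.map_ne_zero_iff ι.injective).2 hd) (SP_map p ι hD _ hd h1.2.2))

theorem SU_lift {D : ℕ} (f : RatFunc k) (hf : SU D f) :
    ∃ S : Finset k, ∀ (K : Type) [Field K] (ι : K →+* k), (∀ a ∈ S, ∃ b, ι b = a) →
      ∃ f' : RatFunc K, phi ι f' = f ∧ SU D f' := by
  classical
  have h1 := SU_iff.1 hf
  obtain ⟨S, hS⟩ := SP_lift f.num (RatFunc.num_ne_zero hf.1) h1.2.1
  obtain ⟨T, hT⟩ := SP_lift f.denom (RatFunc.denom_ne_zero f) h1.2.2
  refine ⟨S ∪ T, fun K _ ι h => ?_⟩
  obtain ⟨N, hN, hSN⟩ := hS K ι (fun x hx => h x (Finset.mem_union_left _ hx))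
  obtain ⟨M, hM, hSM⟩ := hT K ι (fun x hx => h x (Finset.mem_union_right _ hx))
  have hN0 : N ≠ 0 := by
    rintro rfl
    exact RatFunc.num_ne_zero hf.1 (by rw [← hN, Polynomial.map_zero])
  have hM0 : M ≠ 0 := by
    rintro rfl
    exact RatFunc.denom_ne_zero f (by rw [← hM, Polynomial.map_zero])
  refine ⟨algebraMap K[X] (RatFunc K) N / algebraMap K[X] (RatFunc K) M, ?_,
    (SU.alg hN0 hSN).div (SU.alg hM0 hSM)⟩
  rw [map_div₀, phi_alg, phi_alg, hN, hM, RatFunc.num_div_denom]

end

end AlgL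

open Polynomial H39Gon H39Gon.TaskB Module SpdL AlgL in
/-- the duality statement for `S`-units, `S` the set of the closed points of degree dividing `D`,
for all fields algebraic over `F_p` with at least `C D^C` elements. -/
theorem sduA (m : ℕ) : ∃ C : ℕ, ∀ D : ℕ, 0 < D → ∀ (p : ℕ) [Fact p.Prime] (k : Type) [Field k]
    [Algebra (ZMod p) k] [Algebra.IsAlgebraic (ZMod p) k],
    (∃ s : Finset k, C * D ^ C ≤ s.card) →
    ∀ Q : MultilinearMap ℤ (fun _ : Fin (m + 1) => H39Gon.UV (RatFunc k))
        (H39Gon.UV (RatFunc k) →ₗ[ℤ] ℚ),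
      (∀ f : RatFunc k, f ≠ 0 → f ≠ 1 → SU D f → SU D (1 - f) →
        Q (fun _ => H39Gon.cl f) (H39Gon.cl (1 - f)) = 0) →
      ∀ f g : RatFunc k, SU D f → SU D g → Q (fun _ => H39Gon.cl f) (H39Gon.cl g) = 0 := by
  classical
  obtain ⟨C, hC⟩ := sduU m
  refine ⟨C, ?_⟩
  intro D hD p _ k _ _ _ hs Q hQ f g hf hg
  obtain ⟨s, hs⟩ := hs
  obtain ⟨Sf, hSf⟩ := SU_lift f hf
  obtain ⟨Sg, hSg⟩ := SU_lift g hg
  set S : Finset k := s ∪ Sf ∪ Sg with hS
  let K := IntermediateField.adjoin (ZMod p) (S : Set k)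
  have : FiniteDimensional (ZMod p) K :=
    IntermediateField.finiteDimensional_adjoin
      (fun x _ => (Algebra.IsAlgebraic.isAlgebraic x).isIntegral)
  have : Finite K := Module.finite_of_finite (ZMod p)
  let _ : Fintype K := Fintype.ofFinite K
  have hcard : C * D ^ C ≤ Fintype.card K := by
    refine hs.trans ?_
    rw [← Fintype.card_coe s]
    exact Fintype.card_le_of_injective
      (fun a : s => (⟨a.1, IntermediateField.subset_adjoin _ _ (by
        rw [hS]; simp [a.2])⟩ : K))
      (by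
        intro a b hab
        apply Subtype.ext
        exact congrArg (fun x : K => (x : k)) hab)
  have hι : ∀ a ∈ S, ∃ b : K, algebraMap K k b = a := fun a ha =>
    ⟨⟨a, IntermediateField.subset_adjoin _ _ ha⟩, rfl⟩
  obtain ⟨f', hf', hSUf⟩ := hSf K (algebraMap K k) (fun a ha => hι a (by
    rw [hS]; simp [ha]))
  obtain ⟨g', hg', hSUg⟩ := hSg K (algebraMap K k) (fun a ha => hι a (by
    rw [hS]; simp [ha]))
  set Φ : RatFunc K →+* RatFunc k := phi (algebraMap K k) with hΦ
  set Q' : MultilinearMap ℤ (fun _ : Fin (m + 1) => UV (RatFunc K)) (UV (RatFunc K) →ₗ[ℤ] ℚ) :=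
    (LinearMap.lcomp ℤ ℚ (clMap Φ)).compMultilinearMap
      (Q.compLinearMap (fun _ => clMap Φ)) with hQ'
  have hQ'a : ∀ s v, Q' (fun _ => s) v = Q (fun _ => clMap Φ s) (clMap Φ v) :=
    fun s v => rfl
  have h1 := hC D hD K hcard Q' (by
    intro h hh0 hh1 hS1 hS2
    rw [hQ'a, clMap_cl, clMap_cl, map_sub, map_one]
    apply hQ
    · rw [Ne, map_eq_zero]; exact hh0
    · intro h2
      exact hh1 (Φ.injective (by rw [h2, map_one]))
    · exact SU_phi p _ hD h hS1
    · have h3 := SU_phi p (algebraMap K k) hD _ hS2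
      rwa [map_sub, map_one] at h3) f' g' hSUf hSUg
  rw [hQ'a, clMap_cl, clMap_cl, hf', hg'] at h1
  exact h1

end Pool.Agent.Helper70K9.GC
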