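import Pool.Agent.H39R2.Gon.Base

/-!
# Closed points of all degrees: definitions

`k` is an infinite algebraic extension of `F_p`. The slots are now the elements `z` of an extension
`E` of degree `D` of a finite field `K`, with the polynomial `nm K z` (the norm of `T - z`).
-/

set_option autoImplicit false

namespace Pool.Agent.Helper70K9.GC

open Polynomial H39Gon Module

/-- The norm of `T - z` from `E` to `K`. -/
noncomputable def nm (K : Type) {E : Type} [Field K] [Field E] [Algebra K E] (z : E) : K[X] :=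
  minpoly K z ^ (finrank K E / (minpoly K z).natDegree)

section

variable {K E : Type} [Field K] [Field E] [Algebra K E] [FiniteDimensional K E]

theorem mp_pos (z : E) : 0 < (minpoly K z).natDegree :=
  minpoly.natDegree_pos (IsIntegral.of_finite K z)

theorem mp_dvd (z : E) : (minpoly K z).natDegree ∣ finrank K E :=
  minpoly.degree_dvd (IsIntegral.of_finite K z)

theorem exp_pos (z : E) : 0 < finrank K E / (minpoly K z).natDegree :=
  Nat.div_pos (Nat.le_of_dvd finrank_pos (mp_dvd z)) (mp_pos z)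

theorem nm_monic (z : E) : (nm K z).Monic := (minpoly.monic (IsIntegral.of_finite K z)).pow _

theorem nm_natDegree (z : E) : (nm K z).natDegree = finrank K E := by
  rw [nm, (minpoly.monic (IsIntegral.of_finite K z)).natDegree_pow,
    Nat.div_mul_cancel (mp_dvd z)]

theorem nm_ne_zero (z : E) : nm K z ≠ 0 := (nm_monic z).ne_zero

theorem nm_root (z : E) : aeval z (nm K z) = 0 := by
  rw [nm, map_pow, minpoly.aeval, zero_pow (exp_pos z).ne']

omit [FiniteDimensional K E] in
theorem nm_sub (z : E) (t : K) : nm K (z - algebraMap K E t) = (nm K z).comp (X + C t) := by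
  unfold nm
  rw [minpoly.sub_algebraMap, pow_comp, natDegree_comp, natDegree_X_add_C, mul_one]

omit [FiniteDimensional K E] in
theorem nm_congr {z w : E} (h : minpoly K z = minpoly K w) : nm K z = nm K w := by
  unfold nm
  rw [h]

theorem mp_of_root {z w : E} (h : aeval z (nm K w) = 0) : minpoly K z = minpoly K w := by
  rw [nm, map_pow] at h
  have h1 : aeval z (minpoly K w) = 0 := pow_eq_zero_iff (exp_pos w).ne' |>.1 h
  exact (minpoly.eq_of_irreducible_of_monic (minpoly.irreducible (IsIntegral.of_finite K w)) h1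
    (minpoly.monic (IsIntegral.of_finite K w))).symm

theorem nm_coprime {z w : E} (h : minpoly K z ≠ minpoly K w) : IsCoprime (nm K z) (nm K w) := by
  unfold nm
  refine IsCoprime.pow ?_
  have hz := minpoly.irreducible (IsIntegral.of_finite K z)
  have hw := minpoly.irreducible (IsIntegral.of_finite K w)
  rw [hz.coprime_iff_not_dvd]
  intro h1
  exact h (eq_of_monic_of_associated (minpoly.monic (IsIntegral.of_finite K z))
    (minpoly.monic (IsIntegral.of_finite K w)) (hz.associated_of_dvd hw h1))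

end

/-- FT': the finite field theorem. -/
def FT (m d D : ℕ) : Prop :=
  ∃ q0 : ℕ, ∀ (K E : Type) [Field K] [Fintype K] [DecidableEq K] [Field E] [Fintype E]
    [DecidableEq E] [Algebra K E], finrank K E = D → q0 ≤ Fintype.card K →
    ∀ Φ : (Fin (m + 2) → E) → ℝ,
      (∀ (t : Fin (m + 2) → E) (i : Fin (m + 2)), ∑ x : E, Φ (Function.update t i x) = 0) →
      (∀ (σ : Equiv.Perm (Fin (m + 2))) (t : Fin (m + 2) → E), σ 0 = 0 → Φ (t ∘ σ) = Φ t) →
      (∀ (t : Fin (m + 2) → E) (i : Fin (m + 2)) (x : E), minpoly K x = minpoly K (t i) →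
        Φ (Function.update t i x) = Φ t) →
      (∀ z : Fin 3 × Fin d → E,
        (∃ l : Fin 3 → Kˣ, ∑ X : Fin 3, C (l X : K) * ∏ i : Fin d, nm K (z (X, i)) = 0) →
        ∑ j : Fin (m + 2) → Fin 3 × Fin d,
          c0 (j 0).1 * (∏ i : Fin (m + 1), c1 (j i.succ).1) * Φ (z ∘ j) = 0) →
      ∀ t, Φ t = 0

/-- number of `(λ_A, λ_B, λ_C)` with `λ_A P_A + λ_B P_B + λ_C P_C = 0`, `P_X = ∏_i nm (z(X,i))`. -/
noncomputable def Wt (K : Type) {E : Type} [Field K] [Field E] [Algebra K E] {d : ℕ}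
    (z : Fin 3 × Fin d → E) : ℝ :=
  (Nat.card {l : Fin 3 → Kˣ // ∑ X : Fin 3, C (l X : K) * ∏ i : Fin d, nm K (z (X, i)) = 0} : ℝ)

/-- expected weight. -/
noncomputable def wbar (q d D : ℕ) : ℝ := ((q : ℝ) - 1) ^ 3 / (q : ℝ) ^ (d * D + 1)

/-- Count theorem. -/
def CountThm (N d D : ℕ) : Prop :=
  ∀ ε : ℝ, 0 < ε → ∃ q0 : ℕ, ∀ (K E : Type) [Field K] [Fintype K] [DecidableEq K] [Field E]
    [Fintype E] [DecidableEq E] [Algebra K E], finrank K E = D →
    q0 ≤ Fintype.card K → ∀ T : Finset (Fin 3 × Fin d), T.card ≤ N →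
    ∀ z : Fin 3 × Fin d → E,
    (∀ a ∈ T, ∀ b ∈ T, a.1 ≠ b.1 → minpoly K (z a) ≠ minpoly K (z b)) →
    |(∑ z' : Fin 3 × Fin d → E, Wt K (T.piecewise z z')) / (Fintype.card E : ℝ) ^ (3 * d)
      - wbar (Fintype.card K) d D| ≤ ε * wbar (Fintype.card K) d D

/-- [CNT] -/
def S_CNT : Prop := ∀ N d D : ℕ, 0 < D → 3 * N ≤ d → CountThm N d D

/-- [CTR] -/
def S_CTR : Prop := ∀ m d D : ℕ, 0 < D → m + 2 ≤ d → CountThm (2 * (m + 2)) d D → FT m d D

/-- [SPD] -/
def S_SPD : Prop := ∀ (k : Type) [Field k] [Infinite k] (p : ℕ) [Fact p.Prime]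
    [Algebra (ZMod p) k] [Algebra.IsAlgebraic (ZMod p) k] (m d : ℕ),
    (∀ D : ℕ, 0 < D → FT m d D) → SpanDual (RatFunc k) m

end Pool.Agent.Helper70K9.GC
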