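import Pool.Agent.H39R2.Gon.Four
import Pool.Agent.Helper70K9.GC.Defs

/-!
# Fourier analysis: the parameter map and Parseval
-/

set_option autoImplicit false

namespace Pool.Agent.Helper70K9.GC

open Polynomial Finset H39Gon Module

variable {K E : Type} [Field K] [Field E] [Algebra K E] [Fintype K] [DecidableEq K] [Fintype E]
  [DecidableEq E]

/-- The multiplicity constant. -/
def cc (d D : ℕ) : ℕ := (d * D + 1) ^ d

omit [Fintype K] [DecidableEq K] [Fintype E] [DecidableEq E] in
theorem pr_monic [FiniteDimensional K E] {ι : Type} (S : Finset ι) (w : ι → E) :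
    (∏ i ∈ S, nm K (w i)).Monic := monic_prod_of_monic _ _ (fun _ _ => nm_monic _)

omit [Fintype K] [DecidableEq K] [Fintype E] [DecidableEq E] in
theorem pr_natDegree [FiniteDimensional K E] {ι : Type} (S : Finset ι) (w : ι → E) :
    (∏ i ∈ S, nm K (w i)).natDegree = S.card * finrank K E := by
  rw [natDegree_prod_of_monic _ _ (fun i _ => nm_monic _)]
  simp only [nm_natDegree, sum_const, smul_eq_mul]

/-- The space of parameters `(λ, w)` and the polynomial `λ ∏_{i ∈ S} nm (w_i)`. -/
noncomputable def gF {d : ℕ} (S : Finset (Fin d)) (n : ℕ) (h : S.card * finrank K E < n) :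
    Kˣ × (Fin d → E) → degreeLT K n :=
  fun ω => ⟨C (ω.1 : K) * ∏ i ∈ S, nm K (ω.2 i), by
    rw [mem_degreeLT, degree_mul, degree_C ω.1.ne_zero, zero_add,
      degree_eq_natDegree (pr_monic S ω.2).ne_zero, pr_natDegree]
    exact_mod_cast h⟩

omit [Fintype K] [DecidableEq K] [DecidableEq E] in
theorem gF_coe {d : ℕ} (S : Finset (Fin d)) (n : ℕ) (h : S.card * finrank K E < n)
    (ω : Kˣ × (Fin d → E)) :
    ((gF S n h ω : degreeLT K n) : K[X]) = C (ω.1 : K) * ∏ i ∈ S, nm K (ω.2 i) := rfl

/-- number of `w` with prescribed product. -/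
theorem card_prod_eq {d : ℕ} (S : Finset (Fin d)) (P : K[X]) (hP : P ≠ 0) :
    (univ.filter (fun w : Fin d → E => ∏ i ∈ S, nm K (w i) = P)).card ≤
      Fintype.card E ^ (d - S.card) * P.natDegree ^ S.card := by
  classical
  set R : Finset E := (P.map (algebraMap K E)).roots.toFinset with hR
  have hPm : P.map (algebraMap K E) ≠ 0 := (Polynomial.map_ne_zero_iff (algebraMap K E).injective).2 hP
  have hRc : R.card ≤ P.natDegree := by
    refine (Multiset.toFinset_card_le _).trans ((card_roots' _).trans ?_)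
    rw [natDegree_map]
  have := Finset.card_le_card_of_injOn
    (s := univ.filter (fun w : Fin d → E => ∏ i ∈ S, nm K (w i) = P))
    (t := (univ : Finset ({x // x ∈ Sᶜ} → E)) ×ˢ
      Fintype.piFinset (fun _ : {x // x ∈ S} => R))
    (fun w => (fun i => w i.1, fun i => w i.1))
    (by
      intro w hw
      simp only [coe_filter, mem_univ, true_and, Set.mem_ofPred_eq] at hw
      simp only [coe_product, Set.mem_prod, mem_coe, mem_univ, true_and, Fintype.mem_piFinset]
      intro i
      rw [hR, Multiset.mem_toFinset, mem_roots hPm, IsRoot.def, eval_map_algebraMap, ← hw,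
        map_prod]
      exact Finset.prod_eq_zero i.2 (nm_root _))
    (by
      intro w _ w' _ h
      simp only [Prod.mk.injEq] at h
      funext i
      by_cases hi : i ∈ S
      · exact congrFun h.2 ⟨i, hi⟩
      · exact congrFun h.1 ⟨i, by simpa using hi⟩)
  refine this.trans ?_
  rw [Finset.card_product, Fintype.card_piFinset]
  apply Nat.mul_le_mul
  · simp [Finset.card_compl]
  · simp only [prod_const, card_univ, Fintype.card_coe]
    exact Nat.pow_le_pow_left hRc _

theorem gF_mult {d : ℕ} (S : Finset (Fin d)) (n : ℕ) (h : S.card * finrank K E < n)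
    (ω : Kˣ × (Fin d → E)) :
    (univ.filter (fun ω' : Kˣ × (Fin d → E) => gF S n h ω' = gF S n h ω)).card ≤
      Fintype.card E ^ (d - S.card) * cc d (finrank K E) := by
  classical
  have hlc : ∀ ω' : Kˣ × (Fin d → E), gF S n h ω' = gF S n h ω → ω'.1 = ω.1 := by
    intro ω' h1
    have h3 := congrArg (fun P : degreeLT K n => (P : K[X]).leadingCoeff) h1
    simp only [gF_coe, leadingCoeff_mul, leadingCoeff_C, (pr_monic S _).leadingCoeff,
      mul_one] at h3
    exact Units.ext h3
  have hprod : ∀ ω' : Kˣ × (Fin d → E), gF S n h ω' = gF S n h ω →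
      ∏ i ∈ S, nm K (ω'.2 i) = ∏ i ∈ S, nm K (ω.2 i) := by
    intro ω' h1
    have h2 := hlc ω' h1
    have h3 := congrArg (fun P : degreeLT K n => (P : K[X])) h1
    simp only [gF_coe] at h3
    rw [h2] at h3
    exact mul_left_cancel₀ (C_ne_zero.2 ω.1.ne_zero) h3
  have hS : S.card ≤ d := by simpa using Finset.card_le_univ S
  calc (univ.filter (fun ω' : Kˣ × (Fin d → E) => gF S n h ω' = gF S n h ω)).card
      ≤ (univ.filter (fun w : Fin d → E =>
          ∏ i ∈ S, nm K (w i) = ∏ i ∈ S, nm K (ω.2 i))).card := by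
        apply Finset.card_le_card_of_injOn (fun ω' => ω'.2)
        · intro ω' hω'
          simp only [coe_filter, mem_univ, true_and, Set.mem_ofPred_eq] at hω' ⊢
          exact hprod ω' hω'
        · intro ω' h' ω'' h'' h2
          simp only [coe_filter, mem_univ, true_and, Set.mem_ofPred_eq] at h' h''
          exact Prod.ext ((hlc _ h').trans (hlc _ h'').symm) h2
    _ ≤ Fintype.card E ^ (d - S.card) * (∏ i ∈ S, nm K (ω.2 i)).natDegree ^ S.card :=
        card_prod_eq S _ (pr_monic S _).ne_zero
    _ ≤ _ := by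
        rw [pr_natDegree]
        apply Nat.mul_le_mul_left
        calc (S.card * finrank K E) ^ S.card ≤ (d * finrank K E + 1) ^ S.card :=
              Nat.pow_le_pow_left (by nlinarith [Nat.mul_le_mul_right (finrank K E) hS]) _
          _ ≤ (d * finrank K E + 1) ^ d := Nat.pow_le_pow_right (by omega) hS

/-- (P) Parseval bound. -/
theorem parseval_gF {d : ℕ} (S : Finset (Fin d)) (n : ℕ) (hn : S.card * finrank K E + 1 = n)
    (h : S.card * finrank K E < n) :
    ∑ χ : AddChar (degreeLT K n) ℂ, nrm (gF (K := K) (E := E) S n h) χ ^ 2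
      ≤ 2 * cc d (finrank K E) := by
  classical
  subst hn
  have hq : 2 ≤ Fintype.card K := Fintype.one_lt_card
  have hSd : S.card ≤ d := by simpa using Finset.card_le_univ S
  refine (parseval_bound _ _ (gF_mult S (S.card * finrank K E + 1) h)).trans ?_
  have hcu : Fintype.card Kˣ = Fintype.card K - 1 := Fintype.card_units K
  have hE : Fintype.card E = Fintype.card K ^ finrank K E := card_eq_pow_finrank
  have hc : Fintype.card (Kˣ × (Fin d → E)) =
      (Fintype.card K - 1) * (Fintype.card K ^ finrank K E) ^ d := by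
    rw [Fintype.card_prod, hcu]; simp [hE]
  rw [hc, card_degreeLT, hE]
  set q := Fintype.card K with hqdef
  set D := finrank K E with hD
  have hq1 : (1 : ℝ) ≤ (q : ℝ) - 1 := by
    have : (2 : ℝ) ≤ q := by exact_mod_cast hq
    linarith
  rw [div_le_iff₀ (by
    have : 0 < q - 1 := by omega
    positivity)]
  push_cast [Nat.cast_sub (by omega : 1 ≤ q)]
  have hqp : (0 : ℝ) < q := by linarith
  have e : (q : ℝ) ^ (S.card * D + 1) * (((q : ℝ) ^ D) ^ (d - S.card) * (cc d D : ℝ)) =
      (q * ((q : ℝ) ^ D) ^ d) * (cc d D : ℝ) := by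
    have : ((q : ℝ) ^ D) ^ d = ((q : ℝ) ^ D) ^ S.card * ((q : ℝ) ^ D) ^ (d - S.card) := by
      rw [← pow_add]; congr 1; omega
    rw [this, pow_succ, mul_comm S.card D, pow_mul]; ring
  rw [e]
  calc (q : ℝ) * ((q : ℝ) ^ D) ^ d * (cc d D : ℝ)
      ≤ (2 * (q - 1)) * ((q : ℝ) ^ D) ^ d * (cc d D : ℝ) := by
        gcongr; linarith
    _ = _ := by ring

end Pool.Agent.Helper70K9.GC
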