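import Pool.Agent.H39R2.Gon.Inv
import Pool.Agent.Helper70K9.GC.Four

/-!
# Scaling and translation bounds
-/

set_option autoImplicit false

namespace Pool.Agent.Helper70K9.GC

open Polynomial Finset H39Gon Module

variable {K E : Type} [Field K] [Field E] [Algebra K E] [Fintype K] [DecidableEq K] [Fintype E]
  [DecidableEq E]

theorem nrm_sclF {d : ℕ} (S : Finset (Fin d)) (n : ℕ) (h : S.card * finrank K E < n)
    (u : Kˣ) (χ : AddChar (degreeLT K n) ℂ) :
    nrm (gF (K := K) (E := E) S n h) (scl (u : K) χ) = nrm (gF (K := K) (E := E) S n h) χ := by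
  unfold nrm
  congr 2
  refine Fintype.sum_equiv ((Equiv.mulLeft u).prodCongr (Equiv.refl _)) _ _ ?_
  intro ω
  rw [scl_apply]
  congr 1
  ext1
  simp [gF_coe, Polynomial.smul_eq_C_mul, mul_assoc]

/-- Scaling bound. -/
theorem scaling_boundF {d : ℕ} (S : Finset (Fin d)) (n : ℕ) (hn : S.card * finrank K E + 1 = n)
    (h : S.card * finrank K E < n) (M : K[X]) {a : ℕ}
    (hM : M.natDegree + a ≤ n) (Q : AddChar (degreeLT K a) ℂ) (hQ : Q ≠ 1)
    [DecidableEq (AddChar (degreeLT K a) ℂ)] :
    ∑ χ ∈ univ.filter (fun χ : AddChar (degreeLT K n) ℂ => resC M hM χ = Q),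
      nrm (gF (K := K) (E := E) S n h) χ ^ 2 ≤
      2 * cc d (finrank K E) / ((Fintype.card K : ℝ) - 1) := by
  classical
  have hq : 2 ≤ Fintype.card K := Fintype.one_lt_card
  have hq1 : (1 : ℝ) ≤ (Fintype.card K : ℝ) - 1 := by
    have : (2 : ℝ) ≤ Fintype.card K := by exact_mod_cast hq
    linarith
  set F : AddChar (degreeLT K a) ℂ → ℝ := fun Q =>
    ∑ χ ∈ univ.filter (fun χ : AddChar (degreeLT K n) ℂ => resC M hM χ = Q),
      nrm (gF (K := K) (E := E) S n h) χ ^ 2 with hF
  have hinv : ∀ u : Kˣ, F (scl (u : K) Q) = F Q := by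
    intro u
    rw [hF]
    simp only
    symm
    apply Finset.sum_bij' (fun χ _ => scl (u : K) χ) (fun χ _ => scl ((u⁻¹ : Kˣ) : K) χ)
    · intro χ hχ
      simp only [mem_filter, mem_univ, true_and] at hχ ⊢
      rw [scl_resC, hχ]
    · intro χ hχ
      simp only [mem_filter, mem_univ, true_and] at hχ ⊢
      rw [scl_resC, hχ]
      ext P; simp [scl_apply, smul_smul]
    · intro χ _
      ext P; simp [scl_apply, smul_smul]
    · intro χ _
      ext P; simp [scl_apply, smul_smul]
    · intro χ _
      rw [nrm_sclF]
  have hsum : ∑ u : Kˣ, F (scl (u : K) Q) ≤ ∑ Q', F Q' := by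
    apply sum_le_of_inj univ univ (fun u : Kˣ => scl (u : K) Q)
    · intro u _ v _ huv
      exact Units.ext (scl_inj Q hQ _ _ huv)
    · intro _ _; exact mem_univ _
    · intro Q'; exact Finset.sum_nonneg (fun _ _ => sq_nonneg _)
  have htot : ∑ Q', F Q' = ∑ χ : AddChar (degreeLT K n) ℂ,
      nrm (gF (K := K) (E := E) S n h) χ ^ 2 := by
    rw [hF]
    exact Finset.sum_fiberwise univ (fun χ => resC M hM χ) _
  have hP := parseval_gF (K := K) (E := E) S n hn h
  simp_rw [hinv] at hsum
  rw [htot, Finset.sum_const, Finset.card_univ, Fintype.card_units K, nsmul_eq_mul,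
    Nat.cast_sub (by omega), Nat.cast_one] at hsum
  rw [le_div_iff₀ (by linarith)]
  have : F Q * ((Fintype.card K : ℝ) - 1) = ((Fintype.card K : ℝ) - 1) * F Q := by ring
  change F Q * ((Fintype.card K : ℝ) - 1) ≤ _
  rw [this]
  linarith

/-! ### translations -/

omit [Fintype K] [DecidableEq K] [DecidableEq E] in
theorem taylor_pr {ι : Type} (S : Finset ι) (w : ι → E) (t : K) :
    taylor t (∏ i ∈ S, nm K (w i)) = ∏ i ∈ S, nm K (w i - algebraMap K E t) := by
  rw [← taylorAlgHom_apply, map_prod]
  apply Finset.prod_congr rfl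
  intro i _
  rw [taylorAlgHom_apply, taylor_apply, nm_sub]

theorem nrm_trcF {d : ℕ} (S : Finset (Fin d)) (n : ℕ) (h : S.card * finrank K E < n)
    (t : K) (χ : AddChar (degreeLT K n) ℂ) :
    nrm (gF (K := K) (E := E) S n h) (trc t χ) = nrm (gF (K := K) (E := E) S n h) χ := by
  unfold nrm
  congr 2
  refine Fintype.sum_equiv
    ((Equiv.refl _).prodCongr (Equiv.subRight (fun _ => algebraMap K E t))) _ _ ?_
  intro ω
  rw [trc_apply]
  congr 1
  ext1
  rw [tay_coe, gF_coe, gF_coe, taylor_mul, taylor_C, taylor_pr]
  rfl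

/-- Translation bound. -/
theorem translation_boundF {d : ℕ} (S : Finset (Fin d)) (n : ℕ)
    (hn : S.card * finrank K E + 1 = n)
    (h : S.card * finrank K E < n) {ι : Type}
    (N : Finset ι) (z : ι → E) {a : ℕ}
    (hM : (∏ i ∈ N, nm K (z i)).natDegree + a = n) (hN : 2 * (N.card * finrank K E) ≤ n)
    [DecidableEq (AddChar (degreeLT K a) ℂ)] :
    ∑ χ ∈ univ.filter (fun χ : AddChar (degreeLT K n) ℂ =>
        resC (∏ i ∈ N, nm K (z i)) hM.le χ = 1),
      nrm (gF (K := K) (E := E) S n h) χ ^ 2 ≤
      1 + ((N.card : ℝ) ^ 2 * finrank K E) * (2 * cc d (finrank K E)) / (Fintype.card K : ℝ) := by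
  classical
  set al : AddChar (degreeLT K n) ℂ → ℝ :=
    fun χ => nrm (gF (K := K) (E := E) S n h) χ ^ 2 with hal
  have hq : (0 : ℝ) < Fintype.card K := by exact_mod_cast Fintype.card_pos
  -- the translated polynomials
  set G : K → K[X] := fun t => ∏ i ∈ N, nm K (z i - algebraMap K E t) with hG
  have hGm : ∀ t, (G t).Monic := fun t => pr_monic _ _
  have hGd : ∀ t, (G t).natDegree = N.card * finrank K E := by
    intro t; rw [hG]; simp only; rw [pr_natDegree]
  have hG0 : ∏ i ∈ N, nm K (z i) = G 0 := by rw [hG]; simp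
  have hGt : ∀ t, taylor t (G 0) = G t := by
    intro t
    rw [hG]; simp only [map_zero, sub_zero]
    rw [taylor_pr]
  have hNd : (∏ i ∈ N, nm K (z i)).natDegree = N.card * finrank K E := by rw [hG0, hGd]
  have ha : ∀ t, (G t).natDegree + a = n := by intro t; rw [hGd, ← hNd]; exact hM
  -- D t
  set D : K → ℝ := fun t => ∑ χ ∈ (univ.filter (fun χ : AddChar (degreeLT K n) ℂ =>
        resC (G t) (ha t).le χ = 1)).erase 1, al χ with hD
  have hDt : ∀ t, D t = D 0 := by
    intro t
    rw [hD]
    simp only
    apply Finset.sum_bij' (fun χ _ => trc t χ) (fun χ _ => trc (-t) χ)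
    · intro χ hχ
      simp only [mem_filter, mem_univ, true_and, mem_erase] at hχ ⊢
      refine ⟨?_, ?_⟩
      · intro h1
        apply hχ.1
        rw [← trc_neg t χ, h1]
        ext P; simp
      · ext P
        rw [resC_apply, trc_apply]
        have h2 := DFunLike.congr_fun hχ.2 (tay t _ P)
        rw [resC_apply] at h2
        rw [AddChar.one_apply] at h2 ⊢
        rw [← h2]
        congr 1
        ext1
        rw [tay_coe, mulMap_coe, mulMap_coe, taylor_mul, hGt, tay_coe]
    · intro χ hχ
      simp only [mem_filter, mem_univ, true_and, mem_erase] at hχ ⊢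
      refine ⟨?_, ?_⟩
      · intro h1
        apply hχ.1
        rw [← trc_neg' t χ, h1]
        ext P; simp
      · ext P
        rw [resC_apply, trc_apply]
        have h2 := DFunLike.congr_fun hχ.2 (tay (-t) _ P)
        rw [resC_apply] at h2
        rw [AddChar.one_apply] at h2 ⊢
        rw [← h2]
        congr 1
        ext1
        rw [tay_coe, mulMap_coe, mulMap_coe, taylor_mul, ← hGt t, taylor_taylor, neg_add_cancel,
          taylor_zero, tay_coe]
    · intro χ _
      exact trc_neg t χ
    · intro χ _
      exact trc_neg' t χ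
    · intro χ _
      rw [hal]; simp only
      rw [nrm_trcF]
  have hcount : ∀ χ : AddChar (degreeLT K n) ℂ, χ ≠ 1 →
      (univ.filter (fun t : K => resC (G t) (ha t).le χ = 1)).card ≤
        N.card ^ 2 * finrank K E := by
    intro χ hχ
    by_cases hne : (univ.filter (fun t : K => resC (G t) (ha t).le χ = 1)).Nonempty
    · obtain ⟨t0, ht0⟩ := hne
      simp only [mem_filter, mem_univ, true_and] at ht0
      have hsub : univ.filter (fun t : K => resC (G t) (ha t).le χ = 1) ⊆
          (N ×ˢ N).biUnion (fun p => univ.filter (fun t : K =>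
            minpoly K (z p.1 - algebraMap K E t) = minpoly K (z p.2 - algebraMap K E t0))) := by
        intro t ht
        simp only [mem_filter, mem_univ, true_and] at ht
        by_contra hcon
        apply hχ
        have hcop : IsCoprime (G t) (G t0) := by
          rw [hG]; simp only
          apply IsCoprime.prod_left; intro i hi
          apply IsCoprime.prod_right; intro j hj
          apply nm_coprime
          intro h0
          apply hcon
          rw [Finset.mem_biUnion]
          exact ⟨(i, j), by simp [hi, hj], by simpa using h0⟩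
        apply resC_inj (hGm t) (hGm t0) hcop (ha t) (ha t0) (by rw [hGd, hGd]; omega) χ 1
        · rw [ht, resC_one]
        · rw [ht0, resC_one]
      refine (Finset.card_le_card hsub).trans ?_
      have hbd : ∀ p ∈ N ×ˢ N, (univ.filter (fun t : K =>
            minpoly K (z p.1 - algebraMap K E t) =
              minpoly K (z p.2 - algebraMap K E t0))).card ≤ finrank K E := by
        intro p _
        set P := minpoly K (z p.2 - algebraMap K E t0) with hP
        have hP0 : P ≠ 0 := minpoly.ne_zero (IsIntegral.of_finite K _)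
        have hPm : P.map (algebraMap K E) ≠ 0 :=
          (Polynomial.map_ne_zero_iff (algebraMap K E).injective).2 hP0
        have h1 : (univ.filter (fun t : K => minpoly K (z p.1 - algebraMap K E t) = P)).card ≤
            (P.map (algebraMap K E)).roots.toFinset.card := by
          apply Finset.card_le_card_of_injOn (fun t => z p.1 - algebraMap K E t)
          · intro t ht
            simp only [coe_filter, mem_univ, true_and, Set.mem_ofPred_eq] at ht
            rw [mem_coe, Multiset.mem_toFinset, mem_roots hPm, IsRoot.def, eval_map_algebraMap,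
              ← ht]
            exact minpoly.aeval _ _
          · intro t _ t' _ htt
            simp only [sub_right_inj] at htt
            exact (algebraMap K E).injective htt
        refine h1.trans ((Multiset.toFinset_card_le _).trans ((card_roots' _).trans ?_))
        rw [natDegree_map]
        exact Nat.le_of_dvd finrank_pos (mp_dvd _)
      refine (Finset.card_biUnion_le_card_mul _ _ _ hbd).trans ?_
      rw [Finset.card_product, sq]
    · rw [Finset.not_nonempty_iff_eq_empty] at hne
      rw [hne]; simp
  have hsum : ∑ t : K, D t ≤ ((N.card : ℝ) ^ 2 * finrank K E) * (2 * cc d (finrank K E)) := by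
    calc ∑ t : K, D t = ∑ t : K, ∑ χ ∈ univ.erase (1 : AddChar (degreeLT K n) ℂ),
          (if resC (G t) (ha t).le χ = 1 then al χ else 0) := by
          apply Finset.sum_congr rfl; intro t _
          rw [hD]; simp only
          rw [← Finset.sum_filter]
          apply Finset.sum_congr _ (fun _ _ => rfl)
          ext χ; simp only [mem_erase, mem_filter, mem_univ, true_and]
          tauto
      _ = ∑ χ ∈ univ.erase (1 : AddChar (degreeLT K n) ℂ),
          ((univ.filter (fun t : K => resC (G t) (ha t).le χ = 1)).card : ℝ) * al χ := by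
          rw [Finset.sum_comm]
          apply Finset.sum_congr rfl; intro χ _
          rw [← Finset.sum_filter, Finset.sum_const, nsmul_eq_mul]
      _ ≤ ∑ χ ∈ univ.erase (1 : AddChar (degreeLT K n) ℂ),
          ((N.card : ℝ) ^ 2 * finrank K E) * al χ := by
          apply Finset.sum_le_sum
          intro χ hχ
          have := hcount χ (Finset.ne_of_mem_erase hχ)
          have h0 : 0 ≤ al χ := sq_nonneg _
          have h1 : ((univ.filter (fun t : K => resC (G t) (ha t).le χ = 1)).card : ℝ) ≤
              (N.card : ℝ) ^ 2 * finrank K E := by exact_mod_cast this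
          exact mul_le_mul_of_nonneg_right h1 h0
      _ ≤ ∑ χ, ((N.card : ℝ) ^ 2 * finrank K E) * al χ := by
          apply Finset.sum_le_sum_of_subset_of_nonneg (Finset.erase_subset _ _)
          intro χ _ _
          have h0 : 0 ≤ al χ := sq_nonneg _
          positivity
      _ ≤ _ := by
          rw [← Finset.mul_sum]
          have := parseval_gF (K := K) (E := E) S n hn h
          apply mul_le_mul_of_nonneg_left this (by positivity)
  simp_rw [hDt] at hsum
  rw [Finset.sum_const, Finset.card_univ, nsmul_eq_mul] at hsum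
  have hfin : ∑ χ ∈ univ.filter (fun χ : AddChar (degreeLT K n) ℂ =>
        resC (∏ i ∈ N, nm K (z i)) hM.le χ = 1), al χ = D 0 + al 1 := by
    have e : univ.filter (fun χ : AddChar (degreeLT K n) ℂ =>
        resC (∏ i ∈ N, nm K (z i)) hM.le χ = 1) =
        univ.filter (fun χ : AddChar (degreeLT K n) ℂ =>
        resC (G 0) (ha 0).le χ = 1) := by
      ext χ
      simp only [mem_filter, mem_univ, true_and]
      have : resC (∏ i ∈ N, nm K (z i)) hM.le χ = resC (G 0) (ha 0).le χ := by
        ext P
        rw [resC_apply, resC_apply]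
        congr 1
        ext1
        simp [hG0]
      rw [this]
    rw [e, hD]
    simp only
    rw [Finset.sum_erase_add]
    simp only [mem_filter, mem_univ, true_and]
    exact resC_one _ _
  change ∑ χ ∈ univ.filter (fun χ : AddChar (degreeLT K n) ℂ =>
        resC (∏ i ∈ N, nm K (z i)) hM.le χ = 1), al χ ≤ _
  rw [hfin]
  have hal1 : al 1 = 1 := by
    rw [hal]; simp only
    rw [nrm_one]; simp
  rw [hal1]
  have : D 0 ≤ ((N.card : ℝ) ^ 2 * finrank K E) * (2 * cc d (finrank K E)) /
      (Fintype.card K : ℝ) := by
    rw [le_div_iff₀ hq]; linarith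
  linarith

end Pool.Agent.Helper70K9.GC
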