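import Pool.Agent.H39R2.Gon.Count
import Pool.Agent.Helper70K9.GC.Inv

/-!
# The count theorem
-/

set_option autoImplicit false

namespace Pool.Agent.Helper70K9.GC

open Polynomial Finset H39Gon Module

section

variable {K E : Type} [Field K] [Field E] [Algebra K E]

/-- product over a set of slots -/
noncomputable def ME (K : Type) {E : Type} [Field K] [Field E] [Algebra K E] {ι : Type}
    (N : Finset ι) (z : ι → E) : K[X] := ∏ a ∈ N, nm K (z a)

theorem ME_monic [FiniteDimensional K E] {ι : Type} (N : Finset ι) (z : ι → E) :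
    (ME K N z).Monic := pr_monic _ _

theorem ME_natDegree [FiniteDimensional K E] {ι : Type} (N : Finset ι) (z : ι → E) :
    (ME K N z).natDegree = N.card * finrank K E := pr_natDegree _ _

theorem ME_coprime [FiniteDimensional K E] {ι : Type} (N N' : Finset ι) (z : ι → E)
    (h : ∀ a ∈ N, ∀ b ∈ N', minpoly K (z a) ≠ minpoly K (z b)) :
    IsCoprime (ME K N z) (ME K N' z) := by
  unfold ME
  apply IsCoprime.prod_left; intro i hi
  apply IsCoprime.prod_right; intro j hj
  exact nm_coprime (h i hi j hj)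

theorem P_splitE {d : ℕ} (T : Finset (Fin 3 × Fin d)) (z z' : Fin 3 × Fin d → E) (Y : Fin 3) :
    ∏ i : Fin d, nm K (T.piecewise z z' (Y, i)) =
      ME K (T.filter (fun a => a.1 = Y)) z * ∏ i ∈ Sf T Y, nm K (z' (Y, i)) := by
  classical
  rw [← Finset.prod_filter_mul_prod_filter_not univ (fun i : Fin d => (Y, i) ∈ T)]
  congr 1
  · unfold ME
    apply Finset.prod_bij (fun i _ => (Y, i))
    · intro i hi
      simp only [mem_filter, mem_univ, true_and] at hi ⊢
      exact ⟨hi, trivial⟩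
    · intro i _ j _ h
      simpa using h
    · intro b hb
      simp only [mem_filter] at hb
      refine ⟨b.2, ?_, ?_⟩
      · simp only [mem_filter, mem_univ, true_and]
        rw [← hb.2]; exact hb.1
      · rw [← hb.2]
    · intro i hi
      simp only [mem_filter, mem_univ, true_and] at hi
      rw [Finset.piecewise_eq_of_mem _ _ _ hi]
  · unfold Sf
    apply Finset.prod_congr rfl
    intro i hi
    simp only [mem_filter, mem_univ, true_and] at hi
    rw [Finset.piecewise_eq_of_notMem _ _ _ hi]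

/-- number of coefficients of the free part -/
def nfE (D : ℕ) {d : ℕ} (T : Finset (Fin 3 × Fin d)) (X : Fin 3) : ℕ := (Sf T X).card * D + 1

theorem nfE_eq (D : ℕ) {d : ℕ} (T : Finset (Fin 3 × Fin d)) (X : Fin 3) :
    (Sf T X).card * D + 1 = nfE D T X := rfl

theorem nfE_lt (D : ℕ) {d : ℕ} (T : Finset (Fin 3 × Fin d)) (X : Fin 3) :
    (Sf T X).card * D < nfE D T X := Nat.lt_succ_self _

theorem hTXE [FiniteDimensional K E] {d : ℕ} (T : Finset (Fin 3 × Fin d))
    (z : Fin 3 × Fin d → E) (X : Fin 3) :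
    (ME K (T.filter (fun a => a.1 = X)) z).natDegree + nfE (finrank K E) T X =
      d * finrank K E + 1 := by
  rw [ME_natDegree, ← nfE_eq, ← add_assoc, ← add_mul, Sf_card]

theorem hTXE' [FiniteDimensional K E] {d : ℕ} (T : Finset (Fin 3 × Fin d))
    (z : Fin 3 × Fin d → E) (X : Fin 3) :
    (ME K (T.filter (fun a => a.1 = X)) z).natDegree + nfE (finrank K E) T X ≤
      d * finrank K E + 1 := le_of_eq (hTXE T z X)

attribute [irreducible] nfE

end

variable {K E : Type} [Field K] [Field E] [Algebra K E] [Fintype K] [DecidableEq K] [Fintype E]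
  [DecidableEq E]

/-- restriction to multiples of `M_X` -/
noncomputable def resXE {d : ℕ} (T : Finset (Fin 3 × Fin d)) (z : Fin 3 × Fin d → E) (Y : Fin 3)
    (χ : AddChar (degreeLT K (d * finrank K E + 1)) ℂ) :
    AddChar (degreeLT K (nfE (finrank K E) T Y)) ℂ :=
  resC (a := nfE (finrank K E) T Y) (b := d * finrank K E + 1)
    (ME K (T.filter (fun a => a.1 = Y)) z) (hTXE' T z Y) χ

/-- the vectors `M_X g_X(ω)` -/
noncomputable def vecE {d : ℕ} (T : Finset (Fin 3 × Fin d)) (z : Fin 3 × Fin d → E) (X : Fin 3)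
    (ω : Kˣ × (Fin d → E)) : degreeLT K (d * finrank K E + 1) :=
  mulMap (a := nfE (finrank K E) T X) (b := d * finrank K E + 1)
    (ME K (T.filter (fun a => a.1 = X)) z) (hTXE' T z X)
    (gF (Sf T X) (nfE (finrank K E) T X) (nfE_lt (finrank K E) T X) ω)

theorem Wt_eqE {d : ℕ} (T : Finset (Fin 3 × Fin d)) (z z' : Fin 3 × Fin d → E) :
    Wt K (T.piecewise z z') = ∑ l : Fin 3 → Kˣ,
      (if ∑ X : Fin 3, vecE T z X (l X, fun i => z' (X, i)) = 0 then (1 : ℝ) else 0) := by
  classical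
  unfold Wt
  rw [Nat.card_eq_fintype_card, Fintype.card_subtype, Finset.card_filter]
  push_cast
  apply Finset.sum_congr rfl
  intro l _
  have : (∑ Y : Fin 3, C (l Y : K) * ∏ i : Fin d, nm K (T.piecewise z z' (Y, i)) = 0) ↔
      (∑ Y : Fin 3, vecE T z Y (l Y, fun i => z' (Y, i)) = 0) := by
    rw [← Submodule.coe_eq_zero, Submodule.coe_sum]
    have e : ∀ Y : Fin 3, ((vecE T z Y (l Y, fun i => z' (Y, i)) :
        degreeLT K (d * finrank K E + 1)) : K[X]) =
        C (l Y : K) * ∏ i : Fin d, nm K (T.piecewise z z' (Y, i)) := by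
      intro Y
      rw [P_splitE]
      unfold vecE
      rw [mulMap_coe, gF_coe]
      ring
    simp_rw [e]
  simp only [this]

theorem main_identityE {d : ℕ} (T : Finset (Fin 3 × Fin d)) (z : Fin 3 × Fin d → E) :
    (((Fintype.card K : ℝ) ^ (d * finrank K E + 1) *
      ∑ z' : Fin 3 × Fin d → E, Wt K (T.piecewise z z') : ℝ) : ℂ) =
      ∑ χ : AddChar (degreeLT K (d * finrank K E + 1)) ℂ, ∏ X : Fin 3, ∑ ω, χ (vecE T z X ω) := by
  classical
  have h1 : ∀ z' : Fin 3 × Fin d → E,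
      (((Fintype.card K : ℝ) ^ (d * finrank K E + 1) * Wt K (T.piecewise z z') : ℝ) : ℂ)
      = ∑ l : Fin 3 → Kˣ, ∑ χ : AddChar (degreeLT K (d * finrank K E + 1)) ℂ,
        ∏ X : Fin 3, χ (vecE T z X (l X, fun i => z' (X, i))) := by
    intro z'
    rw [Wt_eqE]
    push_cast
    rw [Finset.mul_sum]
    apply Finset.sum_congr rfl
    intro l _
    have := AddChar.sum_apply_eq_ite
      (∑ X : Fin 3, vecE (K := K) T z X (l X, fun i => z' (X, i)))
    have h2 : ∀ χ : AddChar (degreeLT K (d * finrank K E + 1)) ℂ,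
        χ (∑ X : Fin 3, vecE T z X (l X, fun i => z' (X, i))) =
        ∏ X : Fin 3, χ (vecE T z X (l X, fun i => z' (X, i))) := by
      intro χ
      rw [Fin.sum_univ_three, Fin.prod_univ_three, AddChar.map_add_eq_mul, AddChar.map_add_eq_mul]
    simp_rw [h2] at this
    rw [this, card_degreeLT]
    split_ifs <;> simp
  rw [Finset.mul_sum, Complex.ofReal_sum]
  simp_rw [h1]
  simp_rw [Finset.sum_comm (s := (univ : Finset (Fin 3 → Kˣ)))]
  rw [Finset.sum_comm]
  apply Finset.sum_congr rfl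
  intro χ _
  rw [Finset.prod_univ_sum]
  rw [Fintype.piFinset_univ, ← Finset.sum_product', Finset.univ_product_univ]
  exact Fintype.sum_equiv (reidx d E Kˣ) _ _ (fun p => rfl)

/-- abstract version of the error bound -/
theorem err_absE {d : ℕ} (S : Fin 3 → Finset (Fin d)) (n : Fin 3 → ℕ) (b : ℕ)
    (hn : ∀ Y, (S Y).card * finrank K E + 1 = n Y) (hlt : ∀ Y, (S Y).card * finrank K E < n Y)
    (M : Fin 3 → K[X]) (hmon : ∀ Y, (M Y).Monic) (hcop : ∀ X Y : Fin 3, X ≠ Y → IsCoprime (M X) (M Y))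
    {ι : Type} (NN : Fin 3 → Finset ι) (z : ι → E) (MM : K[X])
    (hMN : ∀ Y, M Y * ME K (NN Y) z = MM) (a e : ℕ)
    (hX : ∀ Y, (M Y).natDegree + n Y = b)
    (hra : ∀ Y, (ME K (NN Y) z).natDegree + a = n Y)
    (ht0 : (M 1).natDegree + e = n 0) (ht1 : (M 0).natDegree + e = n 1)
    (hle : (M 0).natDegree + (M 1).natDegree + (M 2).natDegree ≤ b)
    (hNN : ∀ Y, 2 * ((NN Y).card * finrank K E) ≤ n Y) (N : ℕ) (hN : ∀ Y, (NN Y).card ≤ N) :
    ∑ χ ∈ univ.erase (1 : AddChar (degreeLT K b) ℂ),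
      nrm (gF (K := K) (E := E) (S 0) (n 0) (hlt 0))
        (resC (a := n 0) (b := b) (M 0) (le_of_eq (hX 0)) χ) *
      nrm (gF (K := K) (E := E) (S 1) (n 1) (hlt 1))
        (resC (a := n 1) (b := b) (M 1) (le_of_eq (hX 1)) χ) *
      nrm (gF (K := K) (E := E) (S 2) (n 2) (hlt 2))
        (resC (a := n 2) (b := b) (M 2) (le_of_eq (hX 2)) χ) ≤
      (2 * cc d (finrank K E)) * √((2 * cc d (finrank K E)) / ((Fintype.card K : ℝ) - 1)) +
        ((1 + ((N : ℝ) ^ 2 * finrank K E) * (2 * cc d (finrank K E)) /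
          (Fintype.card K : ℝ)) ^ 2 - 1) := by
  classical
  have hq : (0 : ℝ) < Fintype.card K := by exact_mod_cast Fintype.card_pos
  have hrr : ∀ (Y Y' : Fin 3) (χ : AddChar (degreeLT K b) ℂ),
      resC (a := a) (b := n Y) (ME K (NN Y) z) (le_of_eq (hra Y))
        (resC (a := n Y) (b := b) (M Y) (le_of_eq (hX Y)) χ) =
      resC (a := a) (b := n Y') (ME K (NN Y') z) (le_of_eq (hra Y'))
        (resC (a := n Y') (b := b) (M Y') (le_of_eq (hX Y')) χ) := by
    intro Y Y' χ
    ext P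
    rw [resC_apply, resC_apply, resC_apply, resC_apply]
    congr 1
    ext1
    rw [mulMap_coe, mulMap_coe, mulMap_coe, mulMap_coe, ← mul_assoc, ← mul_assoc, hMN, hMN]
  apply abstract_bound (Θ := AddChar (degreeLT K e) ℂ) (H := AddChar (degreeLT K a) ℂ)
    (resC (a := n 0) (b := b) (M 0) (le_of_eq (hX 0)))
    (resC (a := n 1) (b := b) (M 1) (le_of_eq (hX 1)))
    (resC (a := n 2) (b := b) (M 2) (le_of_eq (hX 2)))
    (resC (a := e) (b := n 0) (M 1) (le_of_eq ht0)) (resC (a := e) (b := n 1) (M 0) (le_of_eq ht1))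
    ?_ ?_ ?_
    (resC (a := a) (b := n 0) (ME K (NN 0) z) (le_of_eq (hra 0)))
    (resC (a := a) (b := n 1) (ME K (NN 1) z) (le_of_eq (hra 1)))
    (resC (a := a) (b := n 2) (ME K (NN 2) z) (le_of_eq (hra 2))) ?_ ?_
    1 _ _ _ (nrm_nonneg _) (nrm_nonneg _) (nrm_nonneg _) ?_ _ _ _ (by positivity) (by positivity)
    (parseval_gF _ _ (hn 0) _) (parseval_gF _ _ (hn 1) _) ?_ ?_ ?_ ?_
  · intro χ
    ext P
    rw [resC_apply, resC_apply, resC_apply, resC_apply]
    congr 1
    ext1
    rw [mulMap_coe, mulMap_coe, mulMap_coe, mulMap_coe]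
    ring
  · intro χ χ' h h'
    exact resC_inj (hmon 0) (hmon 1) (hcop 0 1 (by decide)) (hX 0) (hX 1)
      (by omega) χ χ' h h'
  · intro χ χ' h h'
    have h01d : (M 0 * M 1).natDegree = (M 0).natDegree + (M 1).natDegree :=
      (hmon 0).natDegree_mul (hmon 1)
    have hX0 := hX 0
    have hd01 : (M 0 * M 1).natDegree + e = b := by rw [h01d]; omega
    refine resC_inj ((hmon 0).mul (hmon 1)) (hmon 2)
      (IsCoprime.mul_left (hcop 0 2 (by decide)) (hcop 1 2 (by decide))) hd01 (hX 2)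
      (by rw [h01d]; omega) χ χ' ?_ h'
    rw [← resC_comp (le_of_eq ht0) (le_of_eq (hX 0)) (le_of_eq hd01),
      ← resC_comp (le_of_eq ht0) (le_of_eq (hX 0)) (le_of_eq hd01)]
    exact h
  · intro χ; exact hrr 1 0 χ
  · intro χ; exact hrr 2 0 χ
  · rw [resC_one, resC_one, resC_one, nrm_one, nrm_one, nrm_one]; norm_num
  · intro Q hQ
    apply scaling_boundF _ _ (hn 2)
    intro h1
    apply hQ
    rw [h1, resC_one, resC_one]
  · rw [resC_one, resC_one]
    refine (translation_boundF (S 0) _ (hn 0) (hlt 0) _ z (hra 0) (hNN 0)).trans ?_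
    have : ((NN 0).card : ℝ) ≤ N := by exact_mod_cast hN 0
    gcongr
  · rw [resC_one, resC_one]
    refine (translation_boundF (S 1) _ (hn 1) (hlt 1) _ z (hra 1) (hNN 1)).trans ?_
    have : ((NN 1).card : ℝ) ≤ N := by exact_mod_cast hN 1
    gcongr
  · rw [resC_one, resC_one]
    refine (translation_boundF (S 2) _ (hn 2) (hlt 2) _ z (hra 2) (hNN 2)).trans ?_
    have : ((NN 2).card : ℝ) ≤ N := by exact_mod_cast hN 2
    gcongr

theorem err_boundE {d N : ℕ} (hN : 2 * N ≤ d) (T : Finset (Fin 3 × Fin d)) (hT : T.card ≤ N)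
    (z : Fin 3 × Fin d → E)
    (hz : ∀ a ∈ T, ∀ b ∈ T, a.1 ≠ b.1 → minpoly K (z a) ≠ minpoly K (z b)) :
    ∑ χ ∈ univ.erase (1 : AddChar (degreeLT K (d * finrank K E + 1)) ℂ),
      nrm (gF (K := K) (E := E) (Sf T 0) (nfE (finrank K E) T 0) (nfE_lt _ T 0)) (resXE T z 0 χ) *
      nrm (gF (K := K) (E := E) (Sf T 1) (nfE (finrank K E) T 1) (nfE_lt _ T 1)) (resXE T z 1 χ) *
      nrm (gF (K := K) (E := E) (Sf T 2) (nfE (finrank K E) T 2) (nfE_lt _ T 2)) (resXE T z 2 χ) ≤
      (2 * cc d (finrank K E)) * √((2 * cc d (finrank K E)) / ((Fintype.card K : ℝ) - 1)) +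
        ((1 + ((N : ℝ) ^ 2 * finrank K E) * (2 * cc d (finrank K E)) /
          (Fintype.card K : ℝ)) ^ 2 - 1) := by
  classical
  have hDpos : 0 < finrank K E := finrank_pos
  -- cardinalities
  have hc : ∀ X : Fin 3, (T.filter (fun a => a.1 = X)).card + (T.filter (fun a => ¬ a.1 = X)).card
      = T.card := fun X => Finset.card_filter_add_card_filter_not _
  have h3 : (T.filter (fun a => a.1 = 0)).card + (T.filter (fun a => a.1 = 1)).card +
      (T.filter (fun a => a.1 = 2)).card = T.card := by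
    rw [Finset.card_filter, Finset.card_filter, Finset.card_filter, ← Finset.sum_add_distrib,
      ← Finset.sum_add_distrib]
    rw [Finset.card_eq_sum_ones]
    apply Finset.sum_congr rfl
    rintro ⟨x, i⟩ _
    fin_cases x <;> simp
  have hS := fun X => Sf_card T X
  have hnf := fun X => nfE_eq (finrank K E) T X
  -- multiply everything by the degree
  set D := finrank K E with hD
  have hcD : ∀ X : Fin 3, (T.filter (fun a => a.1 = X)).card * D +
      (T.filter (fun a => ¬ a.1 = X)).card * D = T.card * D := fun X => by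
    rw [← add_mul, hc]
  have h3D : (T.filter (fun a => a.1 = 0)).card * D + (T.filter (fun a => a.1 = 1)).card * D +
      (T.filter (fun a => a.1 = 2)).card * D = T.card * D := by
    rw [← add_mul, ← add_mul, h3]
  have hSD : ∀ X : Fin 3, (T.filter (fun a => a.1 = X)).card * D + (Sf T X).card * D = d * D :=
    fun X => by rw [← add_mul, hS]
  have hTD : 2 * (T.card * D) ≤ d * D := by
    have : 2 * T.card ≤ d := by omega
    calc 2 * (T.card * D) = (2 * T.card) * D := by ring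
      _ ≤ d * D := Nat.mul_le_mul_right _ this
  have hSD0 := hSD 0
  have hSD1 := hSD 1
  have hSD2 := hSD 2
  have hcD0 := hcD 0
  have hcD1 := hcD 1
  have hcD2 := hcD 2
  have hnf0 := hnf 0
  have hnf1 := hnf 1
  have hnf2 := hnf 2
  refine err_absE (Sf T) (nfE D T) (d * D + 1) (nfE_eq D T) (nfE_lt D T)
    (fun Y => ME K (T.filter (fun a => a.1 = Y)) z)
    (fun Y => ME_monic _ _) ?_ (fun Y => T.filter (fun a => ¬ a.1 = Y)) z (ME K T z) ?_
    (d * D + 1 - T.card * D)
    (d * D + 1 - (T.filter (fun a => a.1 = 0)).card * D - (T.filter (fun a => a.1 = 1)).card * D)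
    (hTXE T z) ?_ ?_ ?_ ?_ ?_ N ?_
  · intro X Y hXY
    apply ME_coprime
    intro a ha b hb
    simp only [mem_filter] at ha hb
    apply hz a ha.1 b hb.1
    rw [ha.2, hb.2]; exact hXY
  · intro Y
    exact Finset.prod_filter_mul_prod_filter_not _ _ _
  · intro Y
    have := hSD Y
    have := hcD Y
    have := hnf Y
    rw [ME_natDegree, ← hD]
    omega
  · simp only [ME_natDegree, ← hD]
    omega
  · simp only [ME_natDegree, ← hD]
    omega
  · simp only [ME_natDegree, ← hD]
    omega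
  · intro Y
    have := hSD Y
    have := hcD Y
    have := hnf Y
    rw [← hD]
    omega
  · intro Y
    have := hc Y
    omega

theorem count_explicitE {d N : ℕ} (hN : 2 * N ≤ d) (T : Finset (Fin 3 × Fin d)) (hT : T.card ≤ N)
    (z : Fin 3 × Fin d → E)
    (hz : ∀ a ∈ T, ∀ b ∈ T, a.1 ≠ b.1 → minpoly K (z a) ≠ minpoly K (z b)) :
    |(∑ z' : Fin 3 × Fin d → E, Wt K (T.piecewise z z')) / (Fintype.card E : ℝ) ^ (3 * d)
      - wbar (Fintype.card K) d (finrank K E)| ≤
      ((2 * cc d (finrank K E)) * √((2 * cc d (finrank K E)) / ((Fintype.card K : ℝ) - 1)) +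
        ((1 + ((N : ℝ) ^ 2 * finrank K E) * (2 * cc d (finrank K E)) /
          (Fintype.card K : ℝ)) ^ 2 - 1)) *
      wbar (Fintype.card K) d (finrank K E) := by
  classical
  have hq2 : 2 ≤ Fintype.card K := Fintype.one_lt_card
  have hEK : Fintype.card E = Fintype.card K ^ finrank K E := card_eq_pow_finrank
  set D := finrank K E with hD
  set q : ℝ := (Fintype.card K : ℝ) with hqd
  have hEq : (Fintype.card E : ℝ) = q ^ D := by rw [hEK, hqd]; push_cast; rfl
  have hq : (0 : ℝ) < q := by rw [hqd]; exact_mod_cast Fintype.card_pos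
  have hq1 : (1 : ℝ) ≤ q - 1 := by
    have : (2 : ℝ) ≤ q := by rw [hqd]; exact_mod_cast hq2
    linarith
  set Er := (2 * cc d D) * √((2 * cc d D) / (q - 1)) +
        ((1 + ((N : ℝ) ^ 2 * D) * (2 * cc d D) / q) ^ 2 - 1) with hE
  have hcard : (Fintype.card (Kˣ × (Fin d → E)) : ℝ) = (q - 1) * (q ^ D) ^ d := by
    rw [Fintype.card_prod, Fintype.card_units K]
    push_cast [Nat.cast_sub (by omega : 1 ≤ Fintype.card K)]
    rw [Fintype.card_fun, Fintype.card_fin]
    push_cast
    rw [hEq]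
  set S : ℝ := ∑ z' : Fin 3 × Fin d → E, Wt K (T.piecewise z z') with hSdef
  have hmain := main_identityE (K := K) T z
  rw [← hSdef, ← hqd] at hmain
  have hterm : ∀ (χ : AddChar (degreeLT K (d * finrank K E + 1)) ℂ) (Y : Fin 3),
      ‖∑ ω, χ (vecE T z Y ω)‖ = ((q - 1) * (q ^ D) ^ d) *
        nrm (gF (K := K) (E := E) (Sf T Y) (nfE (finrank K E) T Y) (nfE_lt _ T Y))
        (resXE T z Y χ) := by
    intro χ Y
    unfold nrm
    rw [hcard, mul_div_cancel₀]
    · rfl
    · have : 0 < (q - 1) * (q ^ D) ^ d := by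
        apply mul_pos (by linarith) (by positivity)
      exact this.ne'
  have hone : ∏ Y : Fin 3, ∑ ω, (1 : AddChar (degreeLT K (d * finrank K E + 1)) ℂ) (vecE T z Y ω) =
      ((((q - 1) * (q ^ D) ^ d) ^ 3 : ℝ) : ℂ) := by
    simp only [AddChar.one_apply, sum_const, card_univ, nsmul_eq_mul, mul_one, prod_const,
      Fintype.card_fin]
    rw [← hcard]
    push_cast
    rfl
  have hdiff : ‖(((q ^ (d * D + 1) * S - ((q - 1) * (q ^ D) ^ d) ^ 3 : ℝ)) : ℂ)‖ ≤
      ((q - 1) * (q ^ D) ^ d) ^ 3 * Er := by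
    rw [Complex.ofReal_sub, hmain, ← hone,
      ← Finset.sum_erase_add univ _
        (mem_univ (1 : AddChar (degreeLT K (d * finrank K E + 1)) ℂ)),
      add_sub_cancel_right]
    refine (norm_sum_le _ _).trans ?_
    have herr := err_boundE (K := K) hN T hT z hz
    rw [← hqd] at herr
    change _ ≤ Er at herr
    have hpos : 0 ≤ ((q - 1) * (q ^ D) ^ d) ^ 3 := by
      have : 0 < (q - 1) * (q ^ D) ^ d := mul_pos (by linarith) (by positivity)
      positivity
    refine le_trans (le_of_eq ?_) (mul_le_mul_of_nonneg_left herr hpos)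
    rw [Finset.mul_sum]
    apply Finset.sum_congr rfl
    intro χ _
    rw [norm_prod, Fin.prod_univ_three, hterm, hterm, hterm]
    ring
  rw [Complex.norm_real, Real.norm_eq_abs] at hdiff
  have hqD : (0 : ℝ) < q ^ D := by positivity
  have hw : wbar (Fintype.card K) d D =
      ((q - 1) * (q ^ D) ^ d) ^ 3 / (q ^ (d * D + 1) * (q ^ D) ^ (3 * d)) := by
    unfold wbar
    rw [← hqd, div_eq_div_iff (by positivity) (by positivity)]
    ring
  rw [hEq]
  have e1 : S / (q ^ D) ^ (3 * d) - wbar (Fintype.card K) d D =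
      (q ^ (d * D + 1) * S - ((q - 1) * (q ^ D) ^ d) ^ 3) /
        (q ^ (d * D + 1) * (q ^ D) ^ (3 * d)) := by
    rw [hw]
    field_simp
  rw [e1, abs_div, abs_of_pos (by positivity : 0 < q ^ (d * D + 1) * (q ^ D) ^ (3 * d)), hw]
  rw [div_le_iff₀ (by positivity)]
  refine hdiff.trans (le_of_eq ?_)
  field_simp

open Filter Topology in
/-- [CNT] -/
theorem cnt : S_CNT := by
  intro N d D hD h ε hε
  have hlim : Tendsto (fun n : ℕ => (2 * (cc d D : ℝ)) * √((2 * cc d D) / ((n : ℝ) - 1)) +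
        ((1 + ((N : ℝ) ^ 2 * D) * (2 * cc d D) / (n : ℝ)) ^ 2 - 1)) atTop (𝓝 0) := by
    have hn : Tendsto (fun n : ℕ => (n : ℝ)) atTop atTop := tendsto_natCast_atTop_atTop
    have hn1 : Tendsto (fun n : ℕ => (n : ℝ) - 1) atTop atTop :=
      tendsto_atTop_add_const_right _ _ hn
    have l1 : Tendsto (fun n : ℕ => (2 * (cc d D : ℝ)) / ((n : ℝ) - 1)) atTop (𝓝 0) :=
      hn1.const_div_atTop _
    have l2 : Tendsto (fun n : ℕ => ((N : ℝ) ^ 2 * D) * (2 * cc d D) / (n : ℝ)) atTop (𝓝 0) :=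
      hn.const_div_atTop _
    have l3 : Tendsto (fun n : ℕ => √((2 * (cc d D : ℝ)) / ((n : ℝ) - 1))) atTop (𝓝 0) := by
      have := l1.sqrt
      rwa [Real.sqrt_zero] at this
    have l4 := (l3.const_mul (2 * (cc d D : ℝ))).add (((l2.const_add 1).pow 2).sub_const 1)
    simpa using l4
  have hev : ∀ᶠ n : ℕ in atTop, (2 * (cc d D : ℝ)) * √((2 * cc d D) / ((n : ℝ) - 1)) +
        ((1 + ((N : ℝ) ^ 2 * D) * (2 * cc d D) / (n : ℝ)) ^ 2 - 1) < ε :=
    hlim.eventually (gt_mem_nhds hε)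
  obtain ⟨q0, hq0⟩ := Filter.eventually_atTop.1 hev
  refine ⟨q0, ?_⟩
  intro K E _ _ _ _ _ _ _ hKE hK T hT z hz
  subst hKE
  refine (count_explicitE (by omega) T hT z hz).trans ?_
  have hw : 0 ≤ wbar (Fintype.card K) d (finrank K E) := by
    unfold wbar
    have hq2 : 2 ≤ Fintype.card K := Fintype.one_lt_card
    have : (2 : ℝ) ≤ Fintype.card K := by exact_mod_cast hq2
    have h1 : (0 : ℝ) ≤ (Fintype.card K : ℝ) - 1 := by linarith
    positivity
  exact mul_le_mul_of_nonneg_right (hq0 _ hK).le hw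

end Pool.Agent.Helper70K9.GC
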