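import Pool.Agent.Helper70K9.GC.Defs
import Pool.Agent.H39R2.Gon.A2

/-!
# [CTR]: the finite field theorem FT follows from the count theorem (closed points of all degrees)

Adaptation of `Pool/Agent/H39R2/Gon/A2.lean`: two slots are in conflict when they have the same
class `cls` (here: the same minimal polynomial); every class has at most `D` elements.
-/

set_option autoImplicit false

namespace Pool.Agent.Helper70K9.GC

namespace CtrL

open Finset H39Gon H39Gon.A2

section general

variable {I K : Type} [Fintype I] [DecidableEq I] [Fintype K] [DecidableEq K] {κ : Type}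
  [DecidableEq κ]

theorem card_coinc' (cls : K → κ) (D : ℕ)
    (hD : ∀ x : K, (univ.filter fun y => cls y = cls x).card ≤ D) (a : I) (g : (I → K) → K)
    (hg : ∀ z x, g (Function.update z a x) = g z) :
    (Fintype.card K : ℝ) * ∑ z : I → K, (if cls (z a) = cls (g z) then (1 : ℝ) else 0)
      ≤ D * NQ I K := by
  rw [← sum_update a (fun z => if cls (z a) = cls (g z) then (1 : ℝ) else 0)]
  simp only [hg, Function.update_self]
  calc ∑ z : I → K, ∑ x : K, (if cls x = cls (g z) then (1 : ℝ) else 0)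
      ≤ ∑ z : I → K, (D : ℝ) := by
        refine sum_le_sum fun z _ => ?_
        rw [Finset.sum_boole]
        exact_mod_cast hD (g z)
    _ = D * NQ I K := by
        rw [sum_const, card_univ, nsmul_eq_mul, card_fun, mul_comm]

/-- good points. -/
def Good {γ : Type} (cls : K → κ) (grp : I → γ) (T : Finset I) (z : I → K) : Prop :=
  ∀ a ∈ T, ∀ b ∈ T, grp a ≠ grp b → cls (z a) ≠ cls (z b)

open Classical in
theorem prob_bad [Nonempty K] {γ : Type} (cls : K → κ) (D : ℕ) (hD1 : 1 ≤ D)
    (hD : ∀ x : K, (univ.filter fun y => cls y = cls x).card ≤ D) (grp : I → γ) (S T : Finset I)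
    (t : I → K) (ht : Good cls grp S t) :
    A S (fun z => if Good cls grp T z then (0 : ℝ) else 1) t
      ≤ D * (T.card : ℝ) ^ 2 / Fintype.card K := by
  have hQ : (0 : ℝ) < NQ I K := NQ_pos
  have hq : (0 : ℝ) < Fintype.card K := by exact_mod_cast (Fintype.card_pos : 0 < Fintype.card K)
  have hDQ : 0 ≤ (D : ℝ) * NQ I K := by positivity
  unfold A
  rw [div_le_div_iff₀ hQ hq]
  have h1 : ∀ z' : I → K, (if Good cls grp T (S.piecewise t z') then (0 : ℝ) else 1)
      ≤ ∑ a ∈ T, ∑ b ∈ T, (if grp a ≠ grp b ∧ cls (S.piecewise t z' a) = cls (S.piecewise t z' b)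
        then (1 : ℝ) else 0) := by
    intro z'
    have hnn : 0 ≤ ∑ a ∈ T, ∑ b ∈ T, (if grp a ≠ grp b ∧
        cls (S.piecewise t z' a) = cls (S.piecewise t z' b) then (1 : ℝ) else 0) :=
      sum_nonneg fun a _ => sum_nonneg fun b _ => by split_ifs <;> norm_num
    split_ifs with hz
    · exact hnn
    · unfold Good at hz
      push Not at hz
      obtain ⟨a, ha, b, hb, hab, hz⟩ := hz
      calc (1 : ℝ) = (if grp a ≠ grp b ∧ cls (S.piecewise t z' a) = cls (S.piecewise t z' b)
              then (1 : ℝ) else 0) := by simp [hab, hz]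
        _ ≤ ∑ b ∈ T, (if grp a ≠ grp b ∧ cls (S.piecewise t z' a) = cls (S.piecewise t z' b)
              then (1 : ℝ) else 0) :=
            single_le_sum (f := fun b => (if grp a ≠ grp b ∧ cls (S.piecewise t z' a) =
              cls (S.piecewise t z' b) then (1 : ℝ) else 0))
              (fun b _ => by split_ifs <;> norm_num) hb
        _ ≤ _ :=
            single_le_sum (f := fun a => ∑ b ∈ T, (if grp a ≠ grp b ∧ cls (S.piecewise t z' a) =
              cls (S.piecewise t z' b) then (1 : ℝ) else 0))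
              (fun a _ => sum_nonneg fun b _ => by split_ifs <;> norm_num) ha
  have h2 : ∀ a ∈ T, ∀ b ∈ T, (Fintype.card K : ℝ) * ∑ z' : I → K,
      (if grp a ≠ grp b ∧ cls (S.piecewise t z' a) = cls (S.piecewise t z' b) then (1 : ℝ) else 0)
      ≤ D * NQ I K := by
    intro a ha b hb
    by_cases hab : grp a = grp b
    · simp only [hab, ne_eq, not_true_eq_false, false_and, if_false, sum_const_zero, mul_zero]
      exact hDQ
    have hne : a ≠ b := fun h => hab (by rw [h])
    by_cases haS : a ∈ S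
    · by_cases hbS : b ∈ S
      · have : cls (t a) ≠ cls (t b) := ht a haS b hbS hab
        simp only [haS, hbS, Finset.piecewise_eq_of_mem, this, and_false, if_false, sum_const_zero,
          mul_zero]
        exact hDQ
      · refine le_trans (le_of_eq ?_) (card_coinc' cls D hD b
          (fun z' : I → K => S.piecewise t z' a) (by
          intro z x; simp [haS]))
        congr 1
        refine sum_congr rfl fun z' _ => ?_
        congr 1
        refine propext ⟨fun h => ?_, fun h => ⟨hab, ?_⟩⟩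
        · have := h.2
          simp only [hbS, not_false_eq_true, Finset.piecewise_eq_of_notMem] at this
          exact this.symm
        · simp only [hbS, not_false_eq_true, Finset.piecewise_eq_of_notMem]
          exact h.symm
    · refine le_trans (le_of_eq ?_) (card_coinc' cls D hD a
          (fun z' : I → K => S.piecewise t z' b) (by
          intro z x
          by_cases hbS : b ∈ S
          · simp [hbS]
          · simp [hbS, Function.update_of_ne hne.symm]))
      congr 1
      refine sum_congr rfl fun z' _ => ?_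
      congr 1
      refine propext ⟨fun h => ?_, fun h => ⟨hab, ?_⟩⟩
      · have := h.2
        simp only [haS, not_false_eq_true, Finset.piecewise_eq_of_notMem] at this
        exact this
      · simp only [haS, not_false_eq_true, Finset.piecewise_eq_of_notMem]
        exact h
  calc (∑ z' : I → K, (if Good cls grp T (S.piecewise t z') then (0 : ℝ) else 1)) * Fintype.card K
      ≤ (∑ z' : I → K, ∑ a ∈ T, ∑ b ∈ T,
        (if grp a ≠ grp b ∧ cls (S.piecewise t z' a) = cls (S.piecewise t z' b)
        then (1 : ℝ) else 0)) * Fintype.card K := by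
        gcongr with z' _
        exact h1 z'
    _ = ∑ a ∈ T, ∑ b ∈ T, (Fintype.card K : ℝ) * ∑ z' : I → K,
      (if grp a ≠ grp b ∧ cls (S.piecewise t z' a) = cls (S.piecewise t z' b)
        then (1 : ℝ) else 0) := by
        rw [mul_comm, sum_comm, mul_sum]
        refine sum_congr rfl fun a _ => ?_
        rw [sum_comm, mul_sum]
    _ ≤ ∑ a ∈ T, ∑ b ∈ T, D * NQ I K :=
        sum_le_sum fun a ha => sum_le_sum fun b hb => h2 a ha b hb
    _ = D * (T.card : ℝ) ^ 2 * NQ I K := by
        simp only [sum_const, nsmul_eq_mul]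
        ring

open Classical in
/-- the total variation lemma. -/
theorem tv [Nonempty K] {γ : Type} (cls : K → κ) (D : ℕ) (hD1 : 1 ≤ D)
    (hD : ∀ x : K, (univ.filter fun y => cls y = cls x).card ≤ D) (grp : I → γ) (W : (I → K) → ℝ) (hW : ∀ z, 0 ≤ W z)
    (w ε : ℝ) (hw : 0 ≤ w) (S T : Finset I) (hST : S ⊆ T) (t : I → K)
    (ht : Good cls grp S t) (hS : |A S W t - w| ≤ ε * w)
    (hT : ∀ z, Good cls grp T z → |A T W z - w| ≤ ε * w) :
    A S (fun z => |A T W z - w|) t ≤ (3 * ε + 2 * (D * (T.card : ℝ) ^ 2 / Fintype.card K)) * w := by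
  have hQ : (0 : ℝ) < NQ I K := NQ_pos
  have hεw : 0 ≤ ε * w := le_trans (abs_nonneg _) hS
  have h1 : ∀ z, |A T W z - w| ≤ A T W z + ((-w + 2 * (ε * w)) +
      2 * w * (if Good cls grp T z then (0 : ℝ) else 1)) := by
    intro z
    split_ifs with hz
    · have := hT z hz
      have h3 := abs_le.1 this
      rw [abs_le]
      constructor <;> nlinarith
    · have h4 : 0 ≤ A T W z := A_nonneg T hW z
      rw [abs_le]
      constructor <;> nlinarith
  have h2 := A_mono S h1 t
  have h3 : A S (fun z => A T W z + ((-w + 2 * (ε * w)) +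
      2 * w * (if Good cls grp T z then (0 : ℝ) else 1))) t
      = A S W t + ((-w + 2 * (ε * w)) + 2 * w *
        A S (fun z => if Good cls grp T z then (0 : ℝ) else 1) t) := by
    rw [← A_A hST W t]
    unfold A
    rw [sum_add_distrib, sum_add_distrib, ← mul_sum]
    simp only [sum_const, card_univ, nsmul_eq_mul]
    rw [card_fun]
    field_simp
  rw [h3] at h2
  have h4 := prob_bad cls D hD1 hD grp S T t ht
  have h5 := abs_le.1 hS
  have h6 : 2 * w * A S (fun z => if Good cls grp T z then (0 : ℝ) else 1) t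
      ≤ 2 * w * (D * (T.card : ℝ) ^ 2 / Fintype.card K) :=
    mul_le_mul_of_nonneg_left h4 (by linarith)
  nlinarith

section contraction

variable {ι : Type} [Fintype ι] [DecidableEq ι]

theorem err_U [Nonempty K] {γ : Type} (cls : K → κ) (D : ℕ) (hD1 : 1 ≤ D)
    (hD : ∀ x : K, (univ.filter fun y => cls y = cls x).card ≤ D) (grp : I → γ) (W : (I → K) → ℝ) (hW : ∀ z, 0 ≤ W z)
    (w ε : ℝ) (hw : 0 ≤ w) (N : ℕ)
    (hT : ∀ T : Finset I, T.card ≤ N → ∀ z, Good cls grp T z → |A T W z - w| ≤ ε * w)
    (k : ι → I) (hk : Function.Injective k) (t : ι → K) (ts : I → K)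
    (hts : ∀ i, ts (k i) = t i) (htg : ∀ i i', grp (k i) ≠ grp (k i') → cls (t i) ≠ cls (t i'))
    (J : Finset I) (hJ : Fintype.card ι + J.card ≤ N) (F : (I → K) → ℝ)
    (hF : ∀ z z', (∀ a ∈ J, z a = z' a) → F z = F z') (M : ℝ) (hM : ∀ z, |F z| ≤ M)
    (U : Finset ι) :
    |∑ z : I → K, (W z - w) * ((Fintype.card K : ℝ) ^ U.card *
      (if ∀ i ∈ U, z (k i) = t i then (1 : ℝ) else 0)) * F z|
      ≤ M * (NQ I K * ((3 * ε + 2 * (D * (N : ℝ) ^ 2 / Fintype.card K)) * w)) := by
  have hQ : (0 : ℝ) < NQ I K := NQ_pos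
  have hq : (0 : ℝ) < Fintype.card K := by exact_mod_cast (Fintype.card_pos : 0 < Fintype.card K)
  set T : Finset I := U.image k ∪ J with hTdef
  have hTc : T.card ≤ N := by
    refine (card_union_le _ _).trans (le_trans ?_ hJ)
    gcongr
    exact card_image_le.trans (card_le_univ U)
  set g : (I → K) → ℝ := fun z => ((Fintype.card K : ℝ) ^ U.card *
      (if ∀ i ∈ U, z (k i) = t i then (1 : ℝ) else 0)) * F z with hg
  have hgT : ∀ z z', g (T.piecewise z z') = g z := by
    intro z z'
    have h1 : F (T.piecewise z z') = F z := by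
      refine hF _ _ fun a ha => ?_
      have : a ∈ T := mem_union_right _ ha
      simp [this]
    have h2 : (∀ i ∈ U, T.piecewise z z' (k i) = t i) ↔ (∀ i ∈ U, z (k i) = t i) := by
      refine forall₂_congr fun i hi => ?_
      have : k i ∈ T := mem_union_left _ (mem_image_of_mem k hi)
      simp [this]
    simp only [hg, h1, h2]
  have h3 : ∑ z : I → K, (W z - w) * ((Fintype.card K : ℝ) ^ U.card *
      (if ∀ i ∈ U, z (k i) = t i then (1 : ℝ) else 0)) * F z
      = ∑ z, g z * (A T W z - w) := by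
    have h4 := sum_mul_A T g W hgT
    have h5 : ∑ z, g z * (A T W z - w) = ∑ z, g z * (W z - w) := by
      simp only [mul_sub, sum_sub_distrib]
      rw [h4]
    rw [h5]
    refine sum_congr rfl fun z _ => ?_
    simp only [hg]
    ring
  rw [h3]
  have hM0 : 0 ≤ M := (abs_nonneg _).trans (hM ts)
  calc |∑ z, g z * (A T W z - w)| ≤ ∑ z, |g z * (A T W z - w)| := abs_sum_le_sum_abs _ _
    _ ≤ ∑ z : I → K, ((Fintype.card K : ℝ) ^ U.card *
      (if ∀ i ∈ U, z (k i) = t i then (1 : ℝ) else 0)) * (M * |A T W z - w|) := by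
        refine sum_le_sum fun z _ => ?_
        rw [abs_mul]
        simp only [hg]
        rw [abs_mul, abs_of_nonneg (a := (Fintype.card K : ℝ) ^ U.card *
          (if ∀ i ∈ U, z (k i) = t i then (1 : ℝ) else 0)) (by split_ifs <;> positivity), mul_assoc]
        refine mul_le_mul_of_nonneg_left ?_ (by split_ifs <;> positivity)
        exact mul_le_mul_of_nonneg_right (hM z) (abs_nonneg _)
    _ = NQ I K * A (U.image k) (fun z => M * |A T W z - w|) ts :=
        sum_cond' k hk t ts hts U _
    _ = M * (NQ I K * A (U.image k) (fun z => |A T W z - w|) ts) := by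
        unfold A
        rw [← mul_sum]
        ring
    _ ≤ M * (NQ I K * ((3 * ε + 2 * (D * (T.card : ℝ) ^ 2 / Fintype.card K)) * w)) := by
        have hgood : Good cls grp (U.image k) ts := by
          intro a ha b hb hab
          obtain ⟨i, _, rfl⟩ := mem_image.1 ha
          obtain ⟨i', _, rfl⟩ := mem_image.1 hb
          rw [hts, hts]
          exact htg i i' hab
        have := tv cls D hD1 hD grp W hW w ε hw (U.image k) T subset_union_left ts hgood
          (hT _ (card_image_le.trans ((card_le_univ U).trans (by omega))) ts hgood)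
          (hT T hTc)
        gcongr
    _ ≤ M * (NQ I K * ((3 * ε + 2 * (D * (N : ℝ) ^ 2 / Fintype.card K)) * w)) := by
        have : (T.card : ℝ) ≤ N := by exact_mod_cast hTc
        gcongr

theorem err_j [Nonempty K] {γ : Type} (cls : K → κ) (D : ℕ) (hD1 : 1 ≤ D)
    (hD : ∀ x : K, (univ.filter fun y => cls y = cls x).card ≤ D) (grp : I → γ) (W : (I → K) → ℝ) (hW : ∀ z, 0 ≤ W z)
    (w ε : ℝ) (hw : 0 ≤ w) (N : ℕ)
    (hT : ∀ T : Finset I, T.card ≤ N → ∀ z, Good cls grp T z → |A T W z - w| ≤ ε * w)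
    (k : ι → I) (hk : Function.Injective k) (t : ι → K) (ts : I → K)
    (hts : ∀ i, ts (k i) = t i) (htg : ∀ i i', grp (k i) ≠ grp (k i') → cls (t i) ≠ cls (t i'))
    (J : Finset I) (hJ : Fintype.card ι + J.card ≤ N) (F : (I → K) → ℝ)
    (hF : ∀ z z', (∀ a ∈ J, z a = z' a) → F z = F z') (M : ℝ) (hM : ∀ z, |F z| ≤ M) :
    |∑ z : I → K, (W z - w) * hh k t z * F z|
      ≤ 2 ^ Fintype.card ι * (M * (NQ I K * ((3 * ε + 2 * (D * (N : ℝ) ^ 2 / Fintype.card K)) * w))) := by
  have h1 : ∑ z : I → K, (W z - w) * hh k t z * F z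
      = ∑ U ∈ (univ : Finset ι).powerset, (-1 : ℝ) ^ (univ \ U).card *
        ∑ z : I → K, (W z - w) * ((Fintype.card K : ℝ) ^ U.card *
        (if ∀ i ∈ U, z (k i) = t i then (1 : ℝ) else 0)) * F z := by
    simp only [mul_sum]
    rw [sum_comm]
    refine sum_congr rfl fun z _ => ?_
    rw [hh_expand, mul_sum, sum_mul]
    refine sum_congr rfl fun U _ => ?_
    ring
  rw [h1]
  calc |∑ U ∈ (univ : Finset ι).powerset, (-1 : ℝ) ^ (univ \ U).card *
        ∑ z : I → K, (W z - w) * ((Fintype.card K : ℝ) ^ U.card *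
        (if ∀ i ∈ U, z (k i) = t i then (1 : ℝ) else 0)) * F z|
      ≤ ∑ U ∈ (univ : Finset ι).powerset, |(-1 : ℝ) ^ (univ \ U).card *
        ∑ z : I → K, (W z - w) * ((Fintype.card K : ℝ) ^ U.card *
        (if ∀ i ∈ U, z (k i) = t i then (1 : ℝ) else 0)) * F z| := abs_sum_le_sum_abs _ _
    _ ≤ ∑ U ∈ (univ : Finset ι).powerset,
        (M * (NQ I K * ((3 * ε + 2 * (D * (N : ℝ) ^ 2 / Fintype.card K)) * w))) := by
        refine sum_le_sum fun U _ => ?_
        rw [abs_mul, abs_pow, abs_neg, abs_one, one_pow, one_mul]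
        exact err_U cls D hD1 hD grp W hW w ε hw N hT k hk t ts hts htg J hJ F hF M hM U
    _ = _ := by
        rw [sum_const, card_powerset, card_univ, nsmul_eq_mul]
        push_cast
        ring

end contraction

end general

theorem update_classes {n : ℕ} {E κ : Type} [DecidableEq κ] (cls : E → κ) (Φ : (Fin n → E) → ℝ)
    (hinv : ∀ (t : Fin n → E) (i : Fin n) (x : E), cls x = cls (t i) →
      Φ (Function.update t i x) = Φ t)
    (t t' : Fin n → E) (h : ∀ i, cls (t' i) = cls (t i)) : Φ t' = Φ t := by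
  classical
  have key : ∀ s : Finset (Fin n), Φ (s.piecewise t' t) = Φ t := by
    intro s
    induction s using Finset.induction_on with
    | empty => simp
    | insert a s ha ih =>
      rw [Finset.piecewise_insert, hinv _ _ _ ?_, ih]
      rw [Finset.piecewise_eq_of_notMem _ _ _ ha]
      exact h a
  have := key univ
  rwa [Finset.piecewise_univ] at this

theorem card_class {K E : Type} [Field K] [Field E] [Fintype E] [DecidableEq E] [Algebra K E]
    [FiniteDimensional K E] [DecidableEq (Polynomial K)] (x : E) :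
    (univ.filter fun y : E => minpoly K y = minpoly K x).card ≤ Module.finrank K E := by
  have hx : IsIntegral K x := IsIntegral.of_finite K x
  have h0 : (minpoly K x).map (algebraMap K E) ≠ 0 :=
    (Polynomial.map_ne_zero_iff (algebraMap K E).injective).2 (minpoly.ne_zero hx)
  have h1 : (univ.filter fun y : E => minpoly K y = minpoly K x)
      ⊆ ((minpoly K x).map (algebraMap K E)).roots.toFinset := by
    intro y hy
    have hy' : minpoly K y = minpoly K x := (mem_filter.1 hy).2
    rw [Multiset.mem_toFinset, Polynomial.mem_roots h0, Polynomial.IsRoot.def,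
      Polynomial.eval_map_algebraMap, ← hy']
    exact minpoly.aeval K y
  calc (univ.filter fun y : E => minpoly K y = minpoly K x).card
      ≤ ((minpoly K x).map (algebraMap K E)).roots.toFinset.card := card_le_card h1
    _ ≤ Multiset.card ((minpoly K x).map (algebraMap K E)).roots := Multiset.toFinset_card_le _
    _ ≤ ((minpoly K x).map (algebraMap K E)).natDegree := Polynomial.card_roots' _
    _ = (minpoly K x).natDegree := Polynomial.natDegree_map _
    _ ≤ Module.finrank K E := minpoly.natDegree_le x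

end CtrL

open CtrL Finset H39Gon H39Gon.A2 in
/-- [CTR] -/
theorem ctr : S_CTR := by
  classical
  intro m d D hDpos hd h
  have hd0 : (0 : ℝ) < d := by
    have : 0 < d := by omega
    exact_mod_cast this
  set C0 : ℝ := (3 * d : ℝ) ^ (m + 2) * 2 ^ (m + 2) with hC0
  have hC0pos : 0 < C0 := by positivity
  obtain ⟨q1, hq1⟩ := h (1 / (12 * C0)) (by positivity)
  obtain ⟨q2, hq2⟩ := exists_nat_gt (8 * C0 * (D * ((2 * (m + 2) : ℕ) : ℝ) ^ 2))
  refine ⟨max q1 q2, ?_⟩
  intro K E _ _ _ _ _ _ _ hKE hK Φ hbal hsym hinv hrel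
  by_contra hcon
  push Not at hcon
  obtain ⟨t0, ht0⟩ := hcon
  obtain ⟨t₁, htmax₁⟩ := Finite.exists_max (fun t => |Φ t|)
  -- make all members of the class of `t 0` equal to `t 0`
  set t : Fin (m + 2) → E := fun i => if minpoly K (t₁ i) = minpoly K (t₁ 0) then t₁ 0 else t₁ i
    with htdef
  have htt0 : t 0 = t₁ 0 := by simp [htdef]
  have hcls : ∀ i, minpoly K (t i) = minpoly K (t₁ i) := by
    intro i
    simp only [htdef]
    split_ifs with hi
    · exact hi.symm
    · rfl
  have hΦt : Φ t = Φ t₁ := update_classes (fun x : E => minpoly K x) Φ hinv t₁ t hcls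
  have htmax : ∀ t', |Φ t'| ≤ |Φ t| := fun t' => by rw [hΦt]; exact htmax₁ t'
  have ht_iff : ∀ i, t i ≠ t 0 → minpoly K (t i) ≠ minpoly K (t 0) := by
    intro i hi hcon
    rw [hcls, htt0] at hcon
    exact hi (by rw [htt0]; simp only [htdef]; rw [if_pos hcon])
  have hM0 : 0 < |Φ t| := lt_of_lt_of_le (abs_pos.2 ht0) (htmax t0)
  have hq : (1 : ℝ) < Fintype.card K := by exact_mod_cast Fintype.one_lt_card
  have hfd : FiniteDimensional K E := Module.finite_of_finrank_pos (by rw [hKE]; exact hDpos)
  have hKEcard : (Fintype.card K : ℝ) ≤ Fintype.card E := by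
    exact_mod_cast Fintype.card_le_of_injective (algebraMap K E) (algebraMap K E).injective
  have hqE : (1 : ℝ) < Fintype.card E := lt_of_lt_of_le hq hKEcard
  have hw : 0 < wbar (Fintype.card K) d D := by
    unfold wbar
    have : (0 : ℝ) < (Fintype.card K : ℝ) - 1 := by linarith
    positivity
  set w := wbar (Fintype.card K) d D with hwdef
  set ε : ℝ := 1 / (12 * C0) with hε
  have hNQ : NQ (Fin 3 × Fin d) E = (Fintype.card E : ℝ) ^ (3 * d) := by
    unfold NQ
    simp
  have hNQpos : 0 < NQ (Fin 3 × Fin d) E := NQ_pos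
  have hT : ∀ T : Finset (Fin 3 × Fin d), T.card ≤ 2 * (m + 2) → ∀ z : Fin 3 × Fin d → E,
      Good (fun x : E => minpoly K x) (fun a : Fin 3 × Fin d => a.1) T z →
        |A T (Wt K) z - w| ≤ ε * w := by
    intro T hTc z hz
    have := hq1 K E hKE (le_trans (le_max_left _ _) hK) T hTc z hz
    unfold A
    rw [hNQ]
    exact this
  have hW : ∀ z : Fin 3 × Fin d → E, 0 ≤ Wt K z := fun z => Nat.cast_nonneg _
  -- the total relation
  have hR : ∀ z : Fin 3 × Fin d → E,
      Wt K z * ∑ j : Fin (m + 2) → Fin 3 × Fin d, sg j * Φ (z ∘ j) = 0 := by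
    intro z
    by_cases h0 : Wt K z = 0
    · rw [h0, zero_mul]
    · have hne : Nonempty {l : Fin 3 → Kˣ //
          ∑ X : Fin 3, Polynomial.C (l X : K) * ∏ i : Fin d, nm K (z (X, i)) = 0} := by
        by_contra hcon
        rw [not_nonempty_iff] at hcon
        apply h0
        unfold Wt
        rw [Nat.card_of_isEmpty]
        simp
      obtain ⟨l, hl⟩ := hne
      have := hrel z ⟨l, hl⟩
      unfold sg
      rw [this, mul_zero]
  have hsum : ∑ j : Fin (m + 2) → Fin 3 × Fin d, sg j *
      ((∑ z : Fin 3 × Fin d → E, (Wt K z - w) * hh (kk hd t) t z * Φ (z ∘ j)) +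
        w * ∑ z : Fin 3 × Fin d → E, hh (kk hd t) t z * Φ (z ∘ j)) = 0 := by
    have h1 : ∀ j : Fin (m + 2) → Fin 3 × Fin d,
      sg j * ((∑ z : Fin 3 × Fin d → E, (Wt K z - w) * hh (kk hd t) t z * Φ (z ∘ j)) +
        w * ∑ z : Fin 3 × Fin d → E, hh (kk hd t) t z * Φ (z ∘ j))
      = ∑ z : Fin 3 × Fin d → E, hh (kk hd t) t z * (Wt K z * (sg j * Φ (z ∘ j))) := by
      intro j
      rw [mul_sum, ← sum_add_distrib, mul_sum]
      refine sum_congr rfl fun z _ => ?_
      ring
    rw [sum_congr rfl fun j _ => h1 j, sum_comm]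
    refine sum_eq_zero fun z _ => ?_
    rw [← mul_sum, ← mul_sum, hR, mul_zero]
  -- error terms
  set B : ℝ := 2 ^ (m + 2) * (|Φ t| * (NQ (Fin 3 × Fin d) E *
    ((3 * ε + 2 * (D * ((2 * (m + 2) : ℕ) : ℝ) ^ 2 / Fintype.card E)) * w))) with hB
  have hD : ∀ j : Fin (m + 2) → Fin 3 × Fin d,
      |∑ z : Fin 3 × Fin d → E, (Wt K z - w) * hh (kk hd t) t z * Φ (z ∘ j)| ≤ B := by
    intro j
    have := err_j (fun x : E => minpoly K x) D hDpos (fun x => hKE ▸ card_class x)
      (fun a : Fin 3 × Fin d => a.1) (Wt K (E := E) (d := d)) hW w ε hw.le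
      (2 * (m + 2)) hT (kk hd t) (kk_inj hd t) t (tst t) (tst_kk hd t)
      (by
        intro i i' hii'
        by_cases h1 : t i = t 0
        · by_cases h2 : t i' = t 0
          · exact absurd (by simp [kk, h1, h2]) hii'
          · rw [h1]; exact fun h => ht_iff i' h2 h.symm
        · by_cases h2 : t i' = t 0
          · rw [h2]; exact ht_iff i h1
          · exact absurd (by simp [kk, h1, h2]) hii')
      (univ.image j) (by
        have : (univ.image j).card ≤ m + 2 := by
          simpa using (card_image_le (s := (univ : Finset (Fin (m + 2)))) (f := j))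
        simp only [Fintype.card_fin]
        omega)
      (fun z => Φ (z ∘ j)) (by
        intro z z' hz
        congr 1
        ext i
        exact hz (j i) (mem_image_of_mem j (mem_univ i))) |Φ t| (fun z => htmax _)
    simpa only [Fintype.card_fin] using this
  -- main terms
  have hE : ∑ j : Fin (m + 2) → Fin 3 × Fin d, sg j *
      ∑ z : Fin 3 × Fin d → E, hh (kk hd t) t z * Φ (z ∘ j)
      = NQ (Fin 3 × Fin d) E * ((∏ i, c1 (kk hd t i).1) * Φ t) *
        ((univ.filter fun σ : Equiv.Perm (Fin (m + 2)) => t (σ 0) = t 0).card : ℝ) := by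
    have h1 : ∑ j : Fin (m + 2) → Fin 3 × Fin d, sg j *
      ∑ z : Fin 3 × Fin d → E, hh (kk hd t) t z * Φ (z ∘ j)
      = ∑ j ∈ (univ : Finset (Equiv.Perm (Fin (m + 2)))).image
        (fun σ : Equiv.Perm (Fin (m + 2)) => kk hd t ∘ σ), sg j *
      ∑ z : Fin 3 × Fin d → E, hh (kk hd t) t z * Φ (z ∘ j) := by
      symm
      refine sum_subset (subset_univ _) fun j _ hj => ?_
      have : ∃ i0, ∀ i, j i ≠ kk hd t i0 := by
        by_contra hcon
        push Not at hcon
        choose τ hτ using hcon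
        have hτi : Function.Injective τ := by
          intro a b hab
          apply kk_inj hd t
          rw [← hτ a, ← hτ b, hab]
        have hτb : Function.Bijective τ := Finite.injective_iff_bijective.1 hτi
        apply hj
        rw [mem_image]
        refine ⟨(Equiv.ofBijective τ hτb).symm, mem_univ _, ?_⟩
        ext1 i
        simp only [Function.comp]
        rw [← hτ]
        congr 1
        exact (Equiv.ofBijective τ hτb).apply_symm_apply i
      obtain ⟨i0, hi0⟩ := this
      rw [main_zero (kk hd t) (kk_inj hd t) t i0 (by positivity) (fun z => Φ (z ∘ j)), mul_zero]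
      intro z x
      congr 1
      ext i
      simp [Function.update_of_ne (hi0 i)]
    rw [h1, sum_image]
    · have h2 : ∀ σ : Equiv.Perm (Fin (m + 2)), sg (kk hd t ∘ σ) *
          ∑ z : Fin 3 × Fin d → E, hh (kk hd t) t z * Φ (z ∘ (kk hd t ∘ σ))
          = if t (σ 0) = t 0 then NQ (Fin 3 × Fin d) E * ((∏ i, c1 (kk hd t i).1) * Φ t) else 0 := by
        intro σ
        rw [main_perm (kk hd t) (kk_inj hd t) t (tst t) (tst_kk hd t) σ Φ hbal]
        split_ifs with hσ
        · rw [← sg_kk hd t Φ hsym σ hσ]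
          ring
        · have : sg (kk hd t ∘ σ) = 0 := by
            unfold sg
            simp only [Function.comp]
            rw [c0_kk' hd t (σ 0) hσ, zero_mul]
          rw [this, zero_mul]
      rw [sum_congr rfl fun σ _ => h2 σ, ← sum_filter, sum_const, nsmul_eq_mul]
      ring
    · intro σ _ σ' _ hσ
      ext1 i
      exact kk_inj hd t (congr_fun hσ i)
  have hcard : (1 : ℝ) ≤
      ((univ.filter fun σ : Equiv.Perm (Fin (m + 2)) => t (σ 0) = t 0).card : ℝ) := by
    have : 0 < (univ.filter fun σ : Equiv.Perm (Fin (m + 2)) => t (σ 0) = t 0).card :=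
      card_pos.2 ⟨1, by simp⟩
    exact_mod_cast this
  have hs1 : |∏ i, c1 (kk hd t i).1| = 1 := by
    rw [abs_prod]
    exact prod_eq_one fun i _ => c1_kk hd t i
  have hfin : w * (NQ (Fin 3 × Fin d) E * ((∏ i, c1 (kk hd t i).1) * Φ t) *
        ((univ.filter fun σ : Equiv.Perm (Fin (m + 2)) => t (σ 0) = t 0).card : ℝ))
      = - ∑ j : Fin (m + 2) → Fin 3 × Fin d, sg j *
        ∑ z : Fin 3 × Fin d → E, (Wt K z - w) * hh (kk hd t) t z * Φ (z ∘ j) := by
    rw [← hE, eq_neg_iff_add_eq_zero, ← hsum, mul_sum, ← sum_add_distrib]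
    refine sum_congr rfl fun j _ => ?_
    ring
  have h3 : w * (NQ (Fin 3 × Fin d) E * |Φ t|) ≤ (3 * d : ℝ) ^ (m + 2) * B := by
    calc w * (NQ (Fin 3 × Fin d) E * |Φ t|)
        ≤ w * (NQ (Fin 3 × Fin d) E * |Φ t|) *
        ((univ.filter fun σ : Equiv.Perm (Fin (m + 2)) => t (σ 0) = t 0).card : ℝ) :=
          le_mul_of_one_le_right (by positivity) hcard
      _ = |w * (NQ (Fin 3 × Fin d) E * ((∏ i, c1 (kk hd t i).1) * Φ t) *
        ((univ.filter fun σ : Equiv.Perm (Fin (m + 2)) => t (σ 0) = t 0).card : ℝ))| := by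
          rw [abs_mul, abs_mul, abs_mul, abs_mul, hs1, abs_of_pos hw, abs_of_pos hNQpos,
            Nat.abs_cast]
          ring
      _ = |∑ j : Fin (m + 2) → Fin 3 × Fin d, sg j *
        ∑ z : Fin 3 × Fin d → E, (Wt K z - w) * hh (kk hd t) t z * Φ (z ∘ j)| := by
          rw [hfin, abs_neg]
      _ ≤ ∑ j : Fin (m + 2) → Fin 3 × Fin d, |sg j *
        ∑ z : Fin 3 × Fin d → E, (Wt K z - w) * hh (kk hd t) t z * Φ (z ∘ j)| :=
          abs_sum_le_sum_abs _ _
      _ ≤ ∑ j : Fin (m + 2) → Fin 3 × Fin d, B := by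
          refine sum_le_sum fun j _ => ?_
          rw [abs_mul]
          calc |sg j| * |∑ z : Fin 3 × Fin d → E, (Wt K z - w) * hh (kk hd t) t z * Φ (z ∘ j)|
              ≤ 1 * B := mul_le_mul (abs_sg j) (hD j) (abs_nonneg _) (by norm_num)
            _ = B := one_mul B
      _ = (3 * d : ℝ) ^ (m + 2) * B := by
          rw [sum_const, card_univ, nsmul_eq_mul]
          simp
  have h4 : (3 * d : ℝ) ^ (m + 2) * B = (C0 * (3 * ε + 2 * (D * ((2 * (m + 2) : ℕ) : ℝ) ^ 2 /
      Fintype.card E))) * (w * (NQ (Fin 3 × Fin d) E * |Φ t|)) := by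
    rw [hB, hC0]
    ring
  have h5 : C0 * (3 * ε + 2 * (D * ((2 * (m + 2) : ℕ) : ℝ) ^ 2 / Fintype.card E)) ≤ 1 / 2 := by
    have h6 : C0 * (3 * ε) = 1 / 4 := by
      rw [hε]
      field_simp
      norm_num
    have h7 : (q2 : ℝ) ≤ Fintype.card K := by exact_mod_cast (le_trans (le_max_right _ _) hK)
    have h8 : C0 * (2 * (D * ((2 * (m + 2) : ℕ) : ℝ) ^ 2 / Fintype.card E)) ≤ 1 / 4 := by
      rw [← mul_div_assoc, ← mul_div_assoc, div_le_iff₀ (by linarith)]
      nlinarith
    linarith
  have h9 : 0 < w * (NQ (Fin 3 × Fin d) E * |Φ t|) := by positivity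
  rw [h4] at h3
  nlinarith

end Pool.Agent.Helper70K9.GC

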