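import Pool.Agent.H39R2.Gon.Main
import Pool.Agent.Helper70K9.GC.Cnt
import Pool.Agent.Helper70K9.GC.Ctr

/-!
# Assembly
-/

set_option autoImplicit false

namespace Pool.Agent.Helper70K9.GC

open Polynomial H39Gon Module

theorem FT_allD (m D : ℕ) (hD : 0 < D) : FT m (6 * (m + 2)) D :=
  ctr m (6 * (m + 2)) D hD (by omega) (cnt (2 * (m + 2)) (6 * (m + 2)) D hD (by omega))

/-- Main theorem. -/
theorem main_of (spd : S_SPD) (p : ℕ) [Fact p.Prime] (k : Type) [Field k] [Infinite k]
    [Algebra (ZMod p) k] [Algebra.IsAlgebraic (ZMod p) k] :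
    Nonempty (Differentials (RatFunc k)) ∧ ∀ D : Differentials (RatFunc k), D.Acyclic := by
  haveI : CharP k p := charP_of_injective_algebraMap (algebraMap (ZMod p) k).injective p
  refine ⟨exists_differentials k p (frob_fix k p), fun D => ?_⟩
  exact acyclic_of_spanDual k p (frob_fix k p)
    (fun m => spd k p m (6 * (m + 2)) (fun D hD => FT_allD m D hD)) D

end Pool.Agent.Helper70K9.GC
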