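import Pool.Agent.TH358.GP.Cls
import Pool.Agent.Helper70K9.GC.Un2
import Pool.Agent.Helper70K9.GC.Asm

/-!
# Acyclicity for the fields which are locally rational function fields of one variable
-/

set_option autoImplicit false

namespace Pool.Agent.Helper70K9.GC

open H39Gon Pool.Agent.TH358.GP

/-- Every finite subset of `F` is contained in a subfield of `F` which is isomorphic to the field
`k(x)` of rational functions over an infinite algebraic extension `k` of `F_p`. -/
def LocallyRational (p : ℕ) [Fact p.Prime] (F : Type) [Field F] : Prop :=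
  ∀ s : Finset F, ∃ (k : Type) (_ : Field k) (_ : Infinite k) (_ : Algebra (ZMod p) k)
    (_ : Algebra.IsAlgebraic (ZMod p) k) (φ : RatFunc k →+* F), ∀ x ∈ s, ∃ y, φ y = x

theorem locRat_ratFunc (p : ℕ) [Fact p.Prime] (k : Type) [Field k] [Infinite k]
    [Algebra (ZMod p) k] [Algebra.IsAlgebraic (ZMod p) k] : LocallyRational p (RatFunc k) :=
  fun _ => ⟨k, inferInstance, inferInstance, inferInstance, inferInstance, RingHom.id _,
    fun x _ => ⟨x, rfl⟩⟩

theorem evS_ratFunc' (p : ℕ) [Fact p.Prime] (k : Type) [Field k]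
    [Algebra (ZMod p) k] [Algebra.IsAlgebraic (ZMod p) k] : EvS (RatFunc k) := by
  apply evS_ratFunc
  apply evS_base
  intro x
  have hint : IsIntegral (ZMod p) x := (Algebra.IsAlgebraic.isAlgebraic x).isIntegral
  have h1 : FiniteDimensional (ZMod p) (IntermediateField.adjoin (ZMod p) {x}) :=
    IntermediateField.adjoin.finiteDimensional hint
  have h2 : Finite (IntermediateField.adjoin (ZMod p) {x}) := Module.finite_of_finite (ZMod p)
  exact ⟨(IntermediateField.adjoin (ZMod p) {x}).toSubfield, h2,
    IntermediateField.mem_adjoin_simple_self (ZMod p) x⟩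

theorem locRat_main (spd : S_SPD) (p : ℕ) [Fact p.Prime] (F : Type) [Field F]
    (h : LocallyRational p F) :
    Nonempty (Differentials F) ∧ ∀ D : Differentials F, D.Acyclic := by
  have hF : EvS F := by
    apply evS_union
    intro s
    obtain ⟨k, i1, i2, i3, i4, φ, hφ⟩ := h s
    exact ⟨RatFunc k, inferInstance, φ, evS_ratFunc' p k, hφ⟩
  have hsd : ∀ m, SpanDual F m := by
    intro m
    apply spanDual_union
    intro s
    obtain ⟨k, i1, i2, i3, i4, φ, hφ⟩ := h s
    exact ⟨RatFunc k, inferInstance, φ,
      spd k p m (6 * (m + 2)) (fun D hD => FT_allD m D hD), hφ⟩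
  exact ⟨exists_D hF, acyclic_of hF hsd⟩

end Pool.Agent.Helper70K9.GC
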