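import Pool.Agent.Helper70K9.GC.Defs
import Pool.Agent.H39R2.Gon.B

/-!
# [SPD]: the finite field theorem (all degrees) implies the duality statement for `k(x)`,
`k` an infinite algebraic extension of `F_p`
-/

set_option autoImplicit false

namespace Pool.Agent.Helper70K9.GC

namespace SpdL

open Polynomial H39Gon H39Gon.TaskB Module

section core

variable {k : Type} [Field k]

/-- a polynomial over `K` as a rational function over `k`. -/
noncomputable def pq {K : Type} [Field K] (ι : K →+* k) (P : K[X]) : RatFunc k :=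
  algebraMap k[X] (RatFunc k) (P.map ι)

lemma pq_ne_zero {K : Type} [Field K] (ι : K →+* k) {P : K[X]} (hP : P ≠ 0) : pq ι P ≠ 0 :=
  RatFunc.algebraMap_ne_zero ((Polynomial.map_ne_zero_iff ι.injective).2 hP)

lemma pq_mul {K : Type} [Field K] (ι : K →+* k) (P R : K[X]) : pq ι (P * R) = pq ι P * pq ι R := by
  unfold pq
  rw [Polynomial.map_mul, map_mul]

lemma pq_pow {K : Type} [Field K] (ι : K →+* k) (P : K[X]) (n : ℕ) :
    pq ι (P ^ n) = pq ι P ^ n := by
  unfold pq
  rw [Polynomial.map_pow, map_pow]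

lemma pq_C {K : Type} [Field K] (ι : K →+* k) (c : K) : pq ι (C c) = RatFunc.C (ι c) := by
  unfold pq
  rw [Polynomial.map_C, RatFunc.algebraMap_C]

/-- `m_z = |E| [nm z] - ∑_w [nm w]` -/
noncomputable def mm {K E : Type} [Field K] [Field E] [Fintype E] [Algebra K E] (ι : K →+* k)
    (z : E) : UV (RatFunc k) :=
  mV (fun w => cl (pq ι (nm K w))) z

lemma sum_mm {K E : Type} [Field K] [Field E] [Fintype E] [Algebra K E] (ι : K →+* k) :
    ∑ z : E, mm (K := K) ι z = 0 :=
  sum_mV _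

lemma tors_aux {K E : Type} [Field K] [Field E] [Fintype E] [Algebra K E]
    [FiniteDimensional K E] (hk : ConstTors k) (ι : K →+* k) {d : ℕ}
    (z : Fin 3 × Fin d → E) (l : Fin 3 → Kˣ) (X Y : Fin 3) :
    Tors ((Fintype.card E) • cl (-(RatFunc.C (ι (l X)) * ∏ i, pq ι (nm K (z (X, i)))) /
      (RatFunc.C (ι (l Y)) * ∏ i, pq ι (nm K (z (Y, i))))) -
      (∑ i, mm (K := K) ι (z (X, i)) - ∑ i, mm (K := K) ι (z (Y, i)))) := by
  have hC : ∀ X, (ι (l X : K)) ≠ 0 := fun X => by
    rw [Ne, map_eq_zero]; exact Units.ne_zero _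
  have hC' : ∀ X, RatFunc.C (ι (l X : K)) ≠ 0 := fun X => by
    rw [Ne, map_eq_zero]; exact hC X
  have hn : ∀ w : E, pq ι (nm K w) ≠ 0 := fun w => pq_ne_zero ι (nm_ne_zero w)
  have hp : ∀ X, ∏ i : Fin d, pq ι (nm K (z (X, i))) ≠ 0 := fun X =>
    Finset.prod_ne_zero_iff.2 (fun i _ => hn _)
  have hA : ∀ X, RatFunc.C (ι (l X : K)) * ∏ i, pq ι (nm K (z (X, i))) ≠ 0 := fun X =>
    mul_ne_zero (hC' X) (hp X)
  have h1 : ∀ X, cl (RatFunc.C (ι (l X : K)) * ∏ i, pq ι (nm K (z (X, i)))) =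
      cl (RatFunc.C (ι (l X : K))) + ∑ i, cl (pq ι (nm K (z (X, i)))) := fun X => by
    rw [cl_mul (hC' X) (hp X), cl_prod _ _ (fun i _ => hn _)]
  have h2 : cl (-(RatFunc.C (ι (l X : K)) * ∏ i, pq ι (nm K (z (X, i)))) /
      (RatFunc.C (ι (l Y : K)) * ∏ i, pq ι (nm K (z (Y, i))))) =
      cl (-1 : RatFunc k) + (cl (RatFunc.C (ι (l X : K))) + ∑ i, cl (pq ι (nm K (z (X, i)))))
       - (cl (RatFunc.C (ι (l Y : K))) + ∑ i, cl (pq ι (nm K (z (Y, i))))) := by
    rw [neg_div, ← neg_one_mul, cl_mul (by simp) (div_ne_zero (hA X) (hA Y)),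
      cl_div (hA X) (hA Y), h1, h1]
    abel
  have h3 : ∀ X, ∑ i : Fin d, mm (K := K) ι (z (X, i)) =
      (Fintype.card E) • (∑ i, cl (pq ι (nm K (z (X, i))))) -
        d • ∑ b : E, cl (pq ι (nm K b)) := fun X =>
    sum_mV_fin _ (fun i => z (X, i))
  rw [h2, h3, h3]
  exact abs_tors _ _ _ _ _ _ _ _
    ((tors_neg_one.add (tors_C hk _ (hC X))).sub (tors_C hk _ (hC Y)))

lemma core {m d : ℕ} (hk : ConstTors k) (K E : Type) [Field K] [Fintype K] [DecidableEq K]
    [Field E] [Fintype E] [DecidableEq E] [Algebra K E] [FiniteDimensional K E]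
    (ι : K →+* k)
    (hFT : ∀ Φ : (Fin (m + 2) → E) → ℝ,
      (∀ (t : Fin (m + 2) → E) (i : Fin (m + 2)), ∑ x : E, Φ (Function.update t i x) = 0) →
      (∀ (σ : Equiv.Perm (Fin (m + 2))) (t : Fin (m + 2) → E), σ 0 = 0 → Φ (t ∘ σ) = Φ t) →
      (∀ (t : Fin (m + 2) → E) (i : Fin (m + 2)) (x : E), minpoly K x = minpoly K (t i) →
        Φ (Function.update t i x) = Φ t) →
      (∀ z : Fin 3 × Fin d → E,
        (∃ l : Fin 3 → Kˣ, ∑ X : Fin 3, C (l X : K) * ∏ i : Fin d, nm K (z (X, i)) = 0) →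
        ∑ j : Fin (m + 2) → Fin 3 × Fin d,
          c0 (j 0).1 * (∏ i : Fin (m + 1), c1 (j i.succ).1) * Φ (z ∘ j) = 0) →
      ∀ t, Φ t = 0)
    (Q : MultilinearMap ℤ (fun _ : Fin (m + 1) => UV (RatFunc k)) (UV (RatFunc k) →ₗ[ℤ] ℚ))
    (hQ : ∀ f : RatFunc k, f ≠ 0 → f ≠ 1 → Q (fun _ => cl f) (cl (1 - f)) = 0)
    (t : Fin (m + 2) → E) : PS Q (fun i => mm (K := K) ι (t i)) = 0 := by
  have hup : ∀ (t : Fin (m + 2) → E) (i : Fin (m + 2)) (x : E),
      (fun j => mm (K := K) ι (Function.update t i x j)) =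
        Function.update (fun j => mm (K := K) ι (t j)) i (mm (K := K) ι x) := by
    intro t i x
    funext j
    by_cases hj : j = i
    · subst hj; simp
    · simp [Function.update_of_ne hj]
  refine hFT (fun t => PS Q (fun i => mm (K := K) ι (t i))) ?_ ?_ ?_ ?_ t
  · intro t i
    simp only [hup]
    rw [← MultilinearMap.map_update_sum, sum_mm, MultilinearMap.map_update_zero]
  · intro σ t hσ
    exact PS_symm Q (fun i => mm (K := K) ι (t i)) σ hσ
  · intro t i x hx
    simp only [hup]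
    have h1 : mm (K := K) ι x = mm (K := K) ι (t i) := by
      have h2 : nm K x = nm K (t i) := nm_congr hx
      unfold mm mV
      simp only [h2]
    rw [h1]
    congr 1
    exact Function.update_eq_self i (fun j => mm (K := K) ι (t j))
  · rintro z ⟨l, hl⟩
    set A : Fin 3 → RatFunc k := fun X => RatFunc.C (ι (l X : K)) * ∏ i, pq ι (nm K (z (X, i)))
      with hA
    have hA0 : ∀ X, A X ≠ 0 := fun X => by
      refine mul_ne_zero ?_
        (Finset.prod_ne_zero_iff.2 (fun i _ => pq_ne_zero ι (nm_ne_zero (z (X, i)))))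
      rw [Ne, map_eq_zero, map_eq_zero]
      exact Units.ne_zero _
    have hsum : A 0 + A 1 + A 2 = 0 := by
      have h1 := congrArg ((algebraMap k[X] (RatFunc k)).comp (mapRingHom ι)) hl
      rw [map_sum, map_zero, Fin.sum_univ_three] at h1
      simp only [map_mul, map_prod, RingHom.comp_apply, coe_mapRingHom,
        Polynomial.map_C, RatFunc.algebraMap_C] at h1
      exact h1
    set f : RatFunc k := -A 0 / A 2 with hf
    have hf0 : f ≠ 0 := div_ne_zero (neg_ne_zero.2 (hA0 0)) (hA0 2)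
    have hf1 : 1 - f = - A 1 / A 2 := by
      rw [hf, eq_div_iff (hA0 2), sub_mul, div_mul_cancel₀ _ (hA0 2)]
      linear_combination hsum
    have hf2 : f ≠ 1 := by
      intro h
      rw [h, sub_self] at hf1
      exact (div_ne_zero (neg_ne_zero.2 (hA0 1)) (hA0 2)) hf1.symm
    have hq := hQ f hf0 hf2
    have e1 : PS Q (Fin.cons ((Fintype.card E) • cl (1 - f))
        (fun _ => (Fintype.card E) • cl f) : Fin (m + 2) → UV (RatFunc k)) = 0 := by
      obtain ⟨c, -, hc⟩ := PS_diag Q ((Fintype.card E) • cl f) ((Fintype.card E) • cl (1 - f))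
      rw [hc]
      have h2 : Q (fun _ => (Fintype.card E) • cl f) =
          (∏ _i : Fin (m + 1), (Fintype.card E : ℤ)) • Q (fun _ => cl f) := by
        rw [← MultilinearMap.map_smul_univ]
        simp
      rw [h2, LinearMap.smul_apply, map_nsmul, hq]
      simp
    set G : Fin (m + 2) → (Fin 3 × Fin d → ℤ) :=
      Fin.cons (fun s => c0z s.1) (fun _ s => c1z s.1) with hG
    have e2 : PS Q (Fin.cons ((Fintype.card E) • cl (1 - f))
        (fun _ => (Fintype.card E) • cl f) : Fin (m + 2) → UV (RatFunc k)) =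
        PS Q (fun i => ∑ s, G i s • mm (K := K) ι (z s)) := by
      apply map_eq_of_tors
      intro i
      induction i using Fin.cases with
      | zero =>
        simp only [Fin.cons_zero, hG]
        rw [sum_c0z, hf1]
        exact tors_aux hk ι z l 1 2
      | succ j =>
        simp only [Fin.cons_succ, hG]
        rw [sum_c1z, hf]
        exact tors_aux hk ι z l 0 2
    rw [e2, map_lincomb] at e1
    rw [← e1]
    apply Finset.sum_congr rfl
    intro r _
    rw [Fin.prod_univ_succ (fun i => (G i (r i) : ℝ))]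
    simp only [hG, Fin.cons_zero, Fin.cons_succ, c0z_cast, c1z_cast]
    rfl

lemma Q_smul {V : Type} [AddCommGroup V] {m : ℕ}
    (Q : MultilinearMap ℤ (fun _ : Fin (m + 1) => V) (V →ₗ[ℤ] ℚ)) (q : ℕ) (hq : 0 < q) (s v : V)
    (h : Q (fun _ => q • s) (q • v) = 0) : Q (fun _ => s) v = 0 := by
  have h2 : Q (fun _ => q • s) = (∏ _i : Fin (m + 1), (q : ℤ)) • Q (fun _ => s) := by
    rw [← MultilinearMap.map_smul_univ]
    simp
  rw [h2, LinearMap.smul_apply, map_nsmul, smul_eq_zero, smul_eq_zero] at h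
  have h6 : (q : ℤ) ≠ 0 := by exact_mod_cast hq.ne'
  rcases h with h5 | h5 | h5
  · exact absurd h5 (Finset.prod_ne_zero_iff.2 (fun _ _ => h6))
  · exact absurd h5 hq.ne'
  · exact h5

lemma deg_zero {m d : ℕ} (hk : ConstTors k) (K E : Type) [Field K] [Fintype K] [DecidableEq K]
    [Field E] [Fintype E] [DecidableEq E] [Algebra K E] [FiniteDimensional K E]
    (ι : K →+* k)
    (hFT : ∀ Φ : (Fin (m + 2) → E) → ℝ,
      (∀ (t : Fin (m + 2) → E) (i : Fin (m + 2)), ∑ x : E, Φ (Function.update t i x) = 0) →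
      (∀ (σ : Equiv.Perm (Fin (m + 2))) (t : Fin (m + 2) → E), σ 0 = 0 → Φ (t ∘ σ) = Φ t) →
      (∀ (t : Fin (m + 2) → E) (i : Fin (m + 2)) (x : E), minpoly K x = minpoly K (t i) →
        Φ (Function.update t i x) = Φ t) →
      (∀ z : Fin 3 × Fin d → E,
        (∃ l : Fin 3 → Kˣ, ∑ X : Fin 3, C (l X : K) * ∏ i : Fin d, nm K (z (X, i)) = 0) →
        ∑ j : Fin (m + 2) → Fin 3 × Fin d,
          c0 (j 0).1 * (∏ i : Fin (m + 1), c1 (j i.succ).1) * Φ (z ∘ j) = 0) →
      ∀ t, Φ t = 0)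
    (Q : MultilinearMap ℤ (fun _ : Fin (m + 1) => UV (RatFunc k)) (UV (RatFunc k) →ₗ[ℤ] ℚ))
    (hQ : ∀ f : RatFunc k, f ≠ 0 → f ≠ 1 → Q (fun _ => cl f) (cl (1 - f)) = 0)
    (g h : E → ℤ) (hg0 : ∑ a, g a = 0) (hh0 : ∑ a, h a = 0) :
    Q (fun _ => ∑ a, g a • cl (pq ι (nm K a))) (∑ a, h a • cl (pq ι (nm K a))) = 0 := by
  refine Q_smul Q (Fintype.card E) Fintype.card_pos _ _ ?_
  set sD := ∑ a, g a • cl (pq ι (nm K a)) with hsD
  set vD := ∑ a, h a • cl (pq ι (nm K a)) with hvD
  have e1 : PS Q (Fin.cons ((Fintype.card E) • vD)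
      (fun _ => (Fintype.card E) • sD) : Fin (m + 2) → UV (RatFunc k)) = 0 := by
    set G : Fin (m + 2) → (E → ℤ) := Fin.cons h (fun _ => g) with hG
    have h1 : (Fin.cons ((Fintype.card E) • vD)
      (fun _ => (Fintype.card E) • sD) : Fin (m + 2) → UV (RatFunc k)) =
        (fun i => ∑ a, G i a • mm (K := K) ι a) := by
      funext i
      induction i using Fin.cases with
      | zero =>
        simp only [Fin.cons_zero, hG]
        exact smul_mV (fun b => cl (pq ι (nm K b))) h hh0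
      | succ j =>
        simp only [Fin.cons_succ, hG]
        exact smul_mV (fun b => cl (pq ι (nm K b))) g hg0
    rw [h1, map_lincomb]
    apply Finset.sum_eq_zero
    intro r _
    rw [core hk K E ι hFT Q hQ r, mul_zero]
  obtain ⟨c, hc0, hc⟩ := PS_diag Q ((Fintype.card E) • sD) ((Fintype.card E) • vD)
  rw [hc] at e1
  exact_mod_cast (mul_eq_zero.1 e1).resolve_left hc0

/-- every irreducible polynomial of degree dividing `[E : K]` has a root in `E`. -/
lemma exists_root {K E : Type} [Field K] [Finite K] [Field E] [Finite E] [Algebra K E]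
    (P : K[X]) (hP : Irreducible P) (hd : P.natDegree ∣ finrank K E) :
    ∃ z : E, aeval z P = 0 := by
  have : Fact (Irreducible P) := ⟨hP⟩
  have h1 : finrank K (AdjoinRoot P) = P.natDegree := finrank_quotient_span_eq_natDegree (f := P)
  obtain ⟨φ⟩ := FiniteField.nonempty_algHom_of_finrank_dvd (F := K) (K := AdjoinRoot P) (L := E)
    (by rw [h1]; exact hd)
  refine ⟨φ (AdjoinRoot.root P), ?_⟩
  rw [aeval_algHom_apply, AdjoinRoot.aeval_eq, AdjoinRoot.mk_self, map_zero]

lemma alg1 {V : Type} [AddCommGroup V] (D e c : ℕ) (hD : e * c = D) (a b x : V)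
    (hx : x = c • b) (ha : Tors (a - b)) : Tors (D • a - (e : ℤ) • x) := by
  have h1 : D • a - (e : ℤ) • x = D • (a - b) := by
    rw [hx, natCast_zsmul, ← mul_smul, hD, smul_sub]
  rw [h1]
  exact ha.nsmul D

lemma alg2 {V : Type} [AddCommGroup V] (D : ℕ) (a b x y : V) (h1 : Tors (D • a - x))
    (h2 : Tors (D • b - y)) : Tors (D • (a + b) - (x + y)) := by
  have h3 := h1.add h2
  convert h3 using 1
  rw [smul_add]
  abel

lemma alg3 {V : Type} [AddCommGroup V] (D : ℕ) (a b x y : V) (h1 : Tors (D • a - x))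
    (h2 : Tors (D • b - y)) : Tors (D • (a - b) - (x - y)) := by
  have h3 := h1.sub h2
  convert h3 using 1
  rw [smul_sub]
  abel

lemma sum_single_smul {E V : Type} [Fintype E] [DecidableEq E] [AddCommGroup V] (z : E) (n : ℤ)
    (x : E → V) : ∑ w : E, (if w = z then n else 0) • x w = n • x z := by
  rw [Finset.sum_eq_single z]
  · rw [if_pos rfl]
  · intro b _ hb
    rw [if_neg hb, zero_smul]
  · intro h
    exact absurd (Finset.mem_univ z) h

lemma decompK {K E : Type} [Field K] [Fintype K] [Field E] [Fintype E] [DecidableEq E]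
    [Algebra K E] (hk : ConstTors k) (ι : K →+* k) (D n : ℕ) (hD : finrank K E = D)
    (hn : ∀ i, 0 < i → i ≤ n → i ∣ D) (P : K[X]) (hP : P ≠ 0) (hdeg : P.natDegree ≤ n) :
    ∃ g : E → ℤ, ∑ a, g a = P.natDegree ∧
      Tors (D • cl (pq ι P) - ∑ a, g a • cl (pq ι (nm K a))) := by
  induction P using WfDvdMonoid.induction_on_irreducible with
  | zero => exact absurd rfl hP
  | unit u hu =>
    obtain ⟨c, hc, rfl⟩ := Polynomial.isUnit_iff.1 hu
    refine ⟨fun _ => 0, by simp, ?_⟩
    simp only [zero_smul, Finset.sum_const_zero, sub_zero]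
    rw [pq_C]
    exact (tors_C hk _ (by rw [Ne, map_eq_zero]; exact hc.ne_zero)).nsmul D
  | mul a i ha hi ih =>
    have hi0 : i ≠ 0 := hi.ne_zero
    have hdg : (i * a).natDegree = i.natDegree + a.natDegree := natDegree_mul hi0 ha
    rw [hdg] at hdeg
    obtain ⟨g, hg, hgt⟩ := ih ha (by omega)
    have hid : i.natDegree ∣ D := hn _ hi.natDegree_pos (by omega)
    obtain ⟨z, hz⟩ := exists_root (K := K) (E := E) i hi (by rw [hD]; exact hid)
    have hfd : FiniteDimensional K E := Module.Finite.of_finite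
    have hmp : i * C i.leadingCoeff⁻¹ = minpoly K z := minpoly.eq_of_irreducible hi hz
    have hlc : i.leadingCoeff ≠ 0 := leadingCoeff_ne_zero.2 hi0
    have hnd : (minpoly K z).natDegree = i.natDegree := by
      rw [← hmp, natDegree_mul_C (inv_ne_zero hlc)]
    have hm0 : minpoly K z ≠ 0 := minpoly.ne_zero (IsIntegral.of_finite K z)
    have hii : i = minpoly K z * C i.leadingCoeff := by
      rw [← hmp, mul_assoc, ← C_mul, inv_mul_cancel₀ hlc, C_1, mul_one]
    refine ⟨fun w => (if w = z then (i.natDegree : ℤ) else 0) + g w, ?_, ?_⟩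
    · rw [Finset.sum_add_distrib, hg, hdg]
      simp
    · have h1 : Tors (D • cl (pq ι i) - (i.natDegree : ℤ) • cl (pq ι (nm K z))) := by
        refine alg1 D i.natDegree (D / i.natDegree) (Nat.mul_div_cancel' hid) _
          (cl (pq ι (minpoly K z))) _ ?_ ?_
        · unfold nm
          rw [hD, hnd, pq_pow, cl_pow (pq_ne_zero ι hm0)]
        · have h2 : cl (pq ι i) - cl (pq ι (minpoly K z)) = cl (RatFunc.C (ι i.leadingCoeff)) := by
            have hC0 : RatFunc.C (ι i.leadingCoeff) ≠ 0 := by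
              rw [Ne, map_eq_zero, map_eq_zero]; exact hlc
            conv_lhs => rw [hii]
            rw [pq_mul, pq_C, cl_mul (pq_ne_zero ι hm0) hC0, add_sub_cancel_left]
          rw [h2]
          exact tors_C hk _ (by rw [Ne, map_eq_zero]; exact hlc)
      have h3 : ∑ w : E, ((if w = z then (i.natDegree : ℤ) else 0) + g w) • cl (pq ι (nm K w))
          = (i.natDegree : ℤ) • cl (pq ι (nm K z)) + ∑ w, g w • cl (pq ι (nm K w)) := by
        rw [← sum_single_smul z (i.natDegree : ℤ) (fun w => cl (pq ι (nm K w))),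
          ← Finset.sum_add_distrib]
        exact Finset.sum_congr rfl fun w _ => add_zsmul _ _ _
      rw [h3, pq_mul, cl_mul (pq_ne_zero ι hi0) (pq_ne_zero ι ha)]
      exact alg2 D _ _ _ _ h1 hgt

end core

section move

variable {k : Type} [Field k]

lemma sig_inj' (c : k) :
    Function.Injective (eval₂RingHom (RatFunc.C (K := k)) ((xx c)⁻¹)) := by
  rw [injective_iff_map_eq_zero]
  intro P hP
  let _ : Invertible ((xx c)⁻¹) := invertibleOfNonzero (inv_ne_zero (xx_ne_zero c))
  have h1 := (eval₂_reverse_eq_zero_iff (RatFunc.C (K := k)) ((xx c)⁻¹) P).2 hP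
  rw [invOf_eq_inv, inv_inv] at h1
  have h2 : eval₂ (RatFunc.C (K := k)) (xx c) P.reverse
      = algebraMap k[X] (RatFunc k) (P.reverse.comp (X - C c)) := by
    rw [comp, hom_eval₂, xx_eq]
    congr 1
  rw [h2] at h1
  have h3 : P.reverse.comp (X - C c) = 0 := by
    apply RatFunc.algebraMap_injective k
    rw [h1, map_zero]
  have h4 : P.reverse = 0 := by
    have h5 := congrArg (fun R : k[X] => R.comp (X + C c)) h3
    simpa [comp_assoc] using h5
  exact reverse_eq_zero.1 h4

/-- the automorphism `x ↦ 1/(x-c)` (only used as a hom) -/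
noncomputable def sgm (c : k) : RatFunc k →+* RatFunc k :=
  IsFractionRing.lift (A := k[X]) (K := RatFunc k) (sig_inj' c)

lemma sgm_alg (c : k) (P : k[X]) : sgm c (algebraMap k[X] (RatFunc k) P)
    = eval₂ (RatFunc.C (K := k)) ((xx c)⁻¹) P := by
  unfold sgm
  rw [IsFractionRing.lift_algebraMap]
  rfl

lemma move_poly (c : k) (P : k[X]) (hP : P.eval c ≠ 0) :
    ∃ P' : k[X], P' ≠ 0 ∧ P'.natDegree = P.natDegree ∧
      cl (algebraMap k[X] (RatFunc k) P) = clMap (sgm c)
        (cl (algebraMap k[X] (RatFunc k) P') - P.natDegree • cl (algebraMap k[X] (RatFunc k) X)) := by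
  have hP0 : P ≠ 0 := by rintro rfl; simp at hP
  set P1 : k[X] := P.comp (X + C c) with hP1
  have h0 : P1.coeff 0 ≠ 0 := by
    rw [coeff_zero_eq_eval_zero, hP1, eval_comp]
    simpa using hP
  have hP10 : P1 ≠ 0 := by
    intro h
    rw [h] at h0
    simp at h0
  have hdeg : P1.natDegree = P.natDegree := by
    rw [hP1, natDegree_comp, natDegree_X_add_C, mul_one]
  have hrev0 : P1.reverse ≠ 0 := fun h => hP10 (reverse_eq_zero.1 h)
  have hrevdeg : P1.reverse.natDegree = P.natDegree := by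
    rw [reverse_natDegree, natTrailingDegree_eq_zero_of_constantCoeff_ne_zero (by
      rwa [constantCoeff_apply]), Nat.sub_zero, hdeg]
  refine ⟨P1.reverse, hrev0, hrevdeg, ?_⟩
  have hX : algebraMap k[X] (RatFunc k) X ≠ 0 := RatFunc.algebraMap_ne_zero X_ne_zero
  have hR : algebraMap k[X] (RatFunc k) P1.reverse ≠ 0 := RatFunc.algebraMap_ne_zero hrev0
  rw [← cl_pow hX, ← cl_div hR (pow_ne_zero _ hX), clMap_cl]
  congr 1
  rw [map_div₀, map_pow, sgm_alg, sgm_alg, eval₂_X, inv_pow, div_inv_eq_mul]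
  let _ : Invertible (xx c) := invertibleOfNonzero (xx_ne_zero c)
  have h1 := eval₂_reverse_mul_pow (RatFunc.C (K := k)) (xx c) P1
  rw [invOf_eq_inv, hdeg] at h1
  rw [h1, hP1, eval₂_comp]
  have h2 : eval₂ (RatFunc.C (K := k)) (xx c) (X + C c) = RatFunc.X := by
    rw [eval₂_add, eval₂_X, eval₂_C]
    unfold xx
    ring
  rw [h2, ← RatFunc.algebraMap_X]
  have h3 := hom_eval₂ P (C : k →+* k[X]) (algebraMap k[X] (RatFunc k)) X
  rw [eval₂_C_X] at h3
  rw [h3]
  congr 1

lemma alg4 {V W : Type} [AddCommGroup V] [AddCommGroup W] (f : W →ₗ[ℤ] V) (n d : ℕ)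
    (a b : V) (A B x : W) (ha : a = f (A - n • x)) (hb : b = f (B - d • x)) :
    a - b = f ((A + d • x) - (B + n • x)) := by
  rw [ha, hb, ← map_sub]
  congr 1
  abel

lemma move (c : k) (f : RatFunc k) (hf : f ≠ 0) (h1 : f.num.eval c ≠ 0)
    (h2 : f.denom.eval c ≠ 0) :
    ∃ A B : k[X], A ≠ 0 ∧ B ≠ 0 ∧ A.natDegree = B.natDegree ∧
      cl f = clMap (sgm c)
        (cl (algebraMap k[X] (RatFunc k) A) - cl (algebraMap k[X] (RatFunc k) B)) := by
  obtain ⟨N', hN0, hNd, hN⟩ := move_poly c f.num h1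
  obtain ⟨D', hD0, hDd, hD⟩ := move_poly c f.denom h2
  have hX : algebraMap k[X] (RatFunc k) X ≠ 0 := RatFunc.algebraMap_ne_zero X_ne_zero
  refine ⟨N' * X ^ f.denom.natDegree, D' * X ^ f.num.natDegree,
    mul_ne_zero hN0 (pow_ne_zero _ X_ne_zero), mul_ne_zero hD0 (pow_ne_zero _ X_ne_zero), ?_, ?_⟩
  · rw [natDegree_mul hN0 (pow_ne_zero _ X_ne_zero), natDegree_mul hD0 (pow_ne_zero _ X_ne_zero),
      natDegree_X_pow, natDegree_X_pow, hNd, hDd, add_comm]
  · have h3 : cl f = cl (algebraMap k[X] (RatFunc k) f.num)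
        - cl (algebraMap k[X] (RatFunc k) f.denom) := by
      rw [← cl_div (RatFunc.algebraMap_ne_zero (RatFunc.num_ne_zero hf))
        (RatFunc.algebraMap_ne_zero (RatFunc.denom_ne_zero f)), RatFunc.num_div_denom]
    rw [h3, map_mul, map_mul, map_pow, map_pow,
      cl_mul (RatFunc.algebraMap_ne_zero hN0) (pow_ne_zero _ hX),
      cl_mul (RatFunc.algebraMap_ne_zero hD0) (pow_ne_zero _ hX), cl_pow hX, cl_pow hX]
    exact alg4 _ _ _ _ _ _ _ _ hN hD

end move

end SpdL

open SpdL H39Gon H39Gon.TaskB Polynomial Module in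
/-- [SPD] -/
theorem spd : S_SPD := by
  classical
  intro k _ _ p _ _ _ m d hFT
  -- finite subfields
  have hfin : ∀ S : Finset k, ∃ (K : Type) (_ : Field K) (_ : Fintype K) (_ : CharP K p)
      (ι : K →+* k), (∀ a ∈ S, ∃ b, ι b = a) ∧ S.card ≤ Fintype.card K := by
    intro S
    have hfd : FiniteDimensional (ZMod p) (IntermediateField.adjoin (ZMod p) (S : Set k)) :=
      IntermediateField.finiteDimensional_adjoin
        (fun x _ => (Algebra.IsAlgebraic.isAlgebraic x).isIntegral)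
    have hF : Finite (IntermediateField.adjoin (ZMod p) (S : Set k)) :=
      Module.finite_of_finite (ZMod p)
    let _ : Fintype (IntermediateField.adjoin (ZMod p) (S : Set k)) := Fintype.ofFinite _
    refine ⟨IntermediateField.adjoin (ZMod p) (S : Set k), inferInstance, inferInstance,
      charP_of_injective_algebraMap (algebraMap (ZMod p)
        (IntermediateField.adjoin (ZMod p) (S : Set k))).injective p,
      algebraMap _ k, ?_, ?_⟩
    · intro a ha
      exact ⟨⟨a, IntermediateField.subset_adjoin _ _ ha⟩, rfl⟩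
    · rw [← Fintype.card_coe S]
      exact Fintype.card_le_of_injective
        (fun a : S => (⟨a.1, IntermediateField.subset_adjoin _ _ a.2⟩ :
          IntermediateField.adjoin (ZMod p) (S : Set k)))
        (by
          intro a b hab
          apply Subtype.ext
          exact congrArg (fun x : IntermediateField.adjoin (ZMod p) (S : Set k) => (x : k)) hab)
  have hk : ConstTors k := by
    intro c hc
    obtain ⟨K, _, _, _, ι, hι, -⟩ := hfin {c}
    obtain ⟨b, hb⟩ := hι c (by simp)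
    have hb0 : b ≠ 0 := by
      rintro rfl
      exact hc (by rw [← hb, map_zero])
    have h1 : 0 < Fintype.card K - 1 := by
      have := Fintype.one_lt_card (α := K)
      omega
    exact ⟨Fintype.card K - 1, h1, by
      rw [← hb, ← map_pow, FiniteField.pow_card_sub_one_eq_one b hb0, map_one]⟩
  -- degree zero
  have hdeg : ∀ Q : MultilinearMap ℤ (fun _ : Fin (m + 1) => UV (RatFunc k))
      (UV (RatFunc k) →ₗ[ℤ] ℚ),
      (∀ f : RatFunc k, f ≠ 0 → f ≠ 1 → Q (fun _ => cl f) (cl (1 - f)) = 0) →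
      ∀ A B A' B' : k[X], A ≠ 0 → B ≠ 0 → A' ≠ 0 → B' ≠ 0 → A.natDegree = B.natDegree →
        A'.natDegree = B'.natDegree →
        Q (fun _ => cl (algebraMap k[X] (RatFunc k) A) - cl (algebraMap k[X] (RatFunc k) B))
          (cl (algebraMap k[X] (RatFunc k) A') - cl (algebraMap k[X] (RatFunc k) B')) = 0 := by
    intro Q hQ A B A' B' hA hB hA' hB' hAB hAB'
    set n : ℕ := A.natDegree + A'.natDegree with hn
    set D : ℕ := n.factorial with hD
    have hDpos : 0 < D := Nat.factorial_pos n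
    obtain ⟨q0, hq0⟩ := hFT D hDpos
    set S0 : Finset k := A.coeffs ∪ B.coeffs ∪ A'.coeffs ∪ B'.coeffs with hS0
    obtain ⟨S, hS, hScard⟩ := Infinite.exists_superset_card_eq S0
      (max S0.card q0) (le_max_left _ _)
    obtain ⟨K, _, _, _, ι, hι, hcard⟩ := hfin S
    have hKq : q0 ≤ Fintype.card K :=
      le_trans (by rw [hScard]; exact le_max_right _ _) hcard
    have hlift : ∀ P : k[X], P.coeffs ⊆ S0 → ∃ P' : K[X], P'.map ι = P := by
      intro P hP
      have h1 : P ∈ Polynomial.lifts ι := by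
        rw [Polynomial.lifts_iff_coeff_lifts]
        intro j
        by_cases hj : P.coeff j = 0
        · exact ⟨0, by rw [hj, map_zero]⟩
        · exact hι _ (hS (hP (coeff_mem_coeffs hj)))
      exact (Polynomial.mem_lifts P).1 h1
    obtain ⟨A1, hA1⟩ := hlift A (by
      intro x hx; simp only [hS0, Finset.mem_union]; tauto)
    obtain ⟨B1, hB1⟩ := hlift B (by
      intro x hx; simp only [hS0, Finset.mem_union]; tauto)
    obtain ⟨A2, hA2⟩ := hlift A' (by
      intro x hx; simp only [hS0, Finset.mem_union]; tauto)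
    obtain ⟨B2, hB2⟩ := hlift B' (by
      intro x hx; simp only [hS0, Finset.mem_union]; tauto)
    have : NeZero D := ⟨hDpos.ne'⟩
    let E : Type := FiniteField.Extension K p D
    let _ : Fintype E := Fintype.ofFinite E
    have hE : finrank K E = D := FiniteField.finrank_extension K p D
    have hnd : ∀ i, 0 < i → i ≤ n → i ∣ D := fun i hi hin => Nat.dvd_factorial hi hin
    have hne : ∀ (P : k[X]) (P' : K[X]), P ≠ 0 → P'.map ι = P → P' ≠ 0 := by
      rintro P P' hP hP' rfl
      exact hP (by rw [← hP', Polynomial.map_zero])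
    have hndg : ∀ (P : k[X]) (P' : K[X]), P'.map ι = P → P'.natDegree = P.natDegree := by
      rintro P P' rfl
      exact (natDegree_map ι).symm
    obtain ⟨gA, hgA, hgAt⟩ := decompK (E := E) hk ι D n hE hnd A1 (hne A A1 hA hA1)
      (by rw [hndg A A1 hA1]; omega)
    obtain ⟨gB, hgB, hgBt⟩ := decompK (E := E) hk ι D n hE hnd B1 (hne B B1 hB hB1)
      (by rw [hndg B B1 hB1]; omega)
    obtain ⟨gC, hgC, hgCt⟩ := decompK (E := E) hk ι D n hE hnd A2 (hne A' A2 hA' hA2)
      (by rw [hndg A' A2 hA2]; omega)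
    obtain ⟨gD, hgD, hgDt⟩ := decompK (E := E) hk ι D n hE hnd B2 (hne B' B2 hB' hB2)
      (by rw [hndg B' B2 hB2]; omega)
    have e1 := alg3 D _ _ _ _ hgAt hgBt
    have e2 := alg3 D _ _ _ _ hgCt hgDt
    rw [← Finset.sum_sub_distrib] at e1 e2
    simp only [← sub_smul] at e1 e2
    refine Q_smul Q D hDpos _ _ ?_
    have hpA : pq ι A1 = algebraMap k[X] (RatFunc k) A := by unfold pq; rw [hA1]
    have hpB : pq ι B1 = algebraMap k[X] (RatFunc k) B := by unfold pq; rw [hB1]
    have hpC : pq ι A2 = algebraMap k[X] (RatFunc k) A' := by unfold pq; rw [hA2]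
    have hpD : pq ι B2 = algebraMap k[X] (RatFunc k) B' := by unfold pq; rw [hB2]
    rw [hpA, hpB] at e1
    rw [hpC, hpD] at e2
    rw [Q_eq_of_tors Q _ _ _ _ e1 e2]
    refine SpdL.deg_zero hk K E ι (hq0 K E hE hKq) Q hQ (fun a => gA a - gB a)
      (fun a => gC a - gD a) ?_ ?_
    · rw [Finset.sum_sub_distrib, hgA, hgB, hndg A A1 hA1, hndg B B1 hB1, hAB, sub_self]
    · rw [Finset.sum_sub_distrib, hgC, hgD, hndg A' A2 hA2, hndg B' B2 hB2, hAB', sub_self]
  intro Q hQ s v
  obtain ⟨f, hf, rfl⟩ := exists_cl s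
  obtain ⟨g, hg, rfl⟩ := exists_cl v
  obtain ⟨c, hc⟩ : ∃ c : k, (f.num * f.denom * g.num * g.denom).eval c ≠ 0 := by
    by_contra hcon
    push Not at hcon
    have h0 : f.num * f.denom * g.num * g.denom = 0 :=
      Polynomial.funext fun c => by rw [hcon c, eval_zero]
    exact (mul_ne_zero (mul_ne_zero (mul_ne_zero (RatFunc.num_ne_zero hf)
      (RatFunc.denom_ne_zero f)) (RatFunc.num_ne_zero hg)) (RatFunc.denom_ne_zero g)) h0
  rw [eval_mul, eval_mul, eval_mul] at hc
  have hc4 := right_ne_zero_of_mul hc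
  have hc3 := right_ne_zero_of_mul (left_ne_zero_of_mul hc)
  have hc2 := right_ne_zero_of_mul (left_ne_zero_of_mul (left_ne_zero_of_mul hc))
  have hc1 := left_ne_zero_of_mul (left_ne_zero_of_mul (left_ne_zero_of_mul hc))
  obtain ⟨A, B, hA, hB, hAB, hfm⟩ := move c f hf hc1 hc2
  obtain ⟨A', B', hA', hB', hAB', hgm⟩ := move c g hg hc3 hc4
  set Q' : MultilinearMap ℤ (fun _ : Fin (m + 1) => UV (RatFunc k)) (UV (RatFunc k) →ₗ[ℤ] ℚ) :=
    (LinearMap.lcomp ℤ ℚ (clMap (sgm c))).compMultilinearMap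
      (Q.compLinearMap (fun _ => clMap (sgm c))) with hQ'
  have hQ'a : ∀ s v, Q' (fun _ => s) v = Q (fun _ => clMap (sgm c) s) (clMap (sgm c) v) :=
    fun s v => rfl
  have h1 := hdeg Q' (by
    intro f hf0 hf1
    rw [hQ'a, clMap_cl, clMap_cl, map_sub, map_one]
    apply hQ
    · rw [Ne, map_eq_zero]; exact hf0
    · intro h
      exact hf1 ((sgm c).injective (by rw [h, map_one]))) A B A' B' hA hB hA' hB' hAB hAB'
  rw [hQ'a] at h1
  rw [hfm, hgm]
  exact h1

end Pool.Agent.Helper70K9.GC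

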