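import Pool.Agent.TH358.BG.Main
import Pool.Agent.H39R2.GonP.Bridge
import Pool.Agent.Helper70K9.GC.LocRat
import Pool.Agent.Helper70K9.GC.Spd

/-!
# The complexes `Γ(X,n) ⊗ ℚ` of the open subsets of `P^1_k`, `k` any infinite algebraic extension
of `F_p`

Let `X` be a regular curve over an algebraic extension of `F_p`, with function field `F` such that
every finite subset of `F` is contained in a subfield isomorphic to `k(x)`, `k` an infinite algebraic
extension of `F_p` (which may depend on the subset). Then `Γ(X,n) ⊗ ℚ` is acyclic for all `n ≥ 2`.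
For instance `X` may be any nonempty open subset of `P^1_k`, `k` the union of the fields with
`p ^ (l ^ i)` elements, `l` a fixed prime; also `gr_n K_m(X)_ℚ = 0` for all `n ≥ 2` and all `m`
(Quillen, Harder). The starting theorem `OpenSubsetsProjectiveLine` has this for algebraically
closed `k`.

The definitions are in `Pool/Agent/H39R2/GonP/Defs.lean` and `Pool/Agent/TH358/BG/Defs.lean`.
-/

set_option autoImplicit false

namespace Pool.Agent.Helper70K9.GC.CurvesX

open GonP Pool.Agent.TH358.BG Pool.Agent.Helper70K9.GC

/-- Every finite subset of `F` is contained in a subfield of `F` which is isomorphic to the field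
`k(x)` of rational functions over an infinite algebraic extension `k` of `F_p` (which may depend on
the finite subset). -/
def LocallyRational (p : ℕ) [Fact p.Prime] (F : Type) [Field F] : Prop :=
  ∀ s : Finset F, ∃ (k : Type) (_ : Field k) (_ : Infinite k) (_ : Algebra (ZMod p) k)
    (_ : Algebra.IsAlgebraic (ZMod p) k) (φ : RatFunc k →+* F), ∀ x ∈ s, ∃ y, φ y = x

/-- Acyclicity of all the complexes `Γ(X,n) ⊗ ℚ`, `n ≥ 2`, for all sets `X` of closed points with
residue fields `κ x` algebraic over `F_p` and function field `F` locally rational, in particular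
for the open subsets of `P^1_k`, `k` an infinite algebraic extension of `F_p`. -/
theorem curves_acyclic (p : ℕ) [Fact p.Prime] :
    (∀ (k : Type) [Field k] [Infinite k] [Algebra (ZMod p) k] [Algebra.IsAlgebraic (ZMod p) k],
      LocallyRational p (RatFunc k)) ∧
    ∀ (F : Type) [Field F], LocallyRational p F → Nonempty (Differentials F) ∧
      ∀ (X : Type) (κ : X → Type) [∀ x, Field (κ x)] [∀ x, Algebra (ZMod p) (κ x)]
        [∀ x, Algebra.IsAlgebraic (ZMod p) (κ x)],
        (∀ x, Nonempty (Differentials (κ x))) ∧
        ∀ (DF : Differentials F) (Dκ : ∀ x, Differentials (κ x)) (res : Res F κ),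
          XAcyclic DF Dκ res := by
  refine ⟨fun k _ _ _ _ => locRat_ratFunc p k, fun F _ h => ?_⟩
  obtain ⟨⟨D⟩, h1⟩ := locRat_main spd p F h
  refine ⟨⟨ofD D⟩, fun X κ _ _ _ => ⟨fun x => nonempty_diff p (κ x), fun DF Dκ res => ?_⟩⟩
  have h2 : DF.Acyclic := by
    rw [unique (ofD D) DF]
    exact ofD_acyclic D (h1 D)
  exact (xacyclic F κ DF Dκ res (generic p F κ DF Dκ res)).2 h2

end Pool.Agent.Helper70K9.GC.CurvesX
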