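import Pool.Agent.Helper70K9.GC.CtrK

/-!
# The finite field theorem for `|K| ≥ C D^C`
-/

set_option autoImplicit false

namespace Pool.Agent.Helper70K9.GC

open Module H39Gon

namespace FtU

/-- `g D ≤ C D^C` for all `D ≥ 1`. -/
def PB (g : ℕ → ℝ) : Prop := ∃ C : ℕ, ∀ D : ℕ, 0 < D → g D ≤ (C : ℝ) * (D : ℝ) ^ C

theorem mono_C {C C' : ℕ} (h : C ≤ C') {D : ℕ} (hD : 0 < D) :
    (C : ℝ) * (D : ℝ) ^ C ≤ (C' : ℝ) * (D : ℝ) ^ C' := by
  have h1 : (1 : ℝ) ≤ D := by exact_mod_cast hD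
  have h2 : (C : ℝ) ≤ C' := by exact_mod_cast h
  have h3 : (D : ℝ) ^ C ≤ (D : ℝ) ^ C' := pow_le_pow_right₀ h1 h
  have h4 : (0 : ℝ) ≤ (D : ℝ) ^ C := by positivity
  exact mul_le_mul h2 h3 h4 (by positivity)

theorem PB.mono {f g : ℕ → ℝ} (hg : PB g) (h : ∀ D : ℕ, 0 < D → f D ≤ g D) : PB f := by
  obtain ⟨C, hC⟩ := hg
  exact ⟨C, fun D hD => (h D hD).trans (hC D hD)⟩

theorem PB.const (a : ℝ) : PB (fun _ => a) := by
  obtain ⟨C, hC⟩ := exists_nat_ge a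
  refine ⟨C, fun D hD => hC.trans ?_⟩
  have h1 : (1 : ℝ) ≤ D := by exact_mod_cast hD
  exact le_mul_of_one_le_right (Nat.cast_nonneg _) (one_le_pow₀ h1)

theorem PB.id : PB (fun D => (D : ℝ)) := ⟨1, fun D _ => by simp⟩

theorem PB.add {f g : ℕ → ℝ} (hf : PB f) (hg : PB g) : PB (fun D => f D + g D) := by
  obtain ⟨C, hC⟩ := hf
  obtain ⟨C', hC'⟩ := hg
  refine ⟨C + C', fun D hD => ?_⟩
  have h1 : (1 : ℝ) ≤ D := by exact_mod_cast hD
  have h2 : (D : ℝ) ^ C ≤ (D : ℝ) ^ (C + C') := pow_le_pow_right₀ h1 (by omega)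
  have h3 : (D : ℝ) ^ C' ≤ (D : ℝ) ^ (C + C') := pow_le_pow_right₀ h1 (by omega)
  have h4 := hC D hD
  have h5 := hC' D hD
  push_cast
  have h6 : (C : ℝ) * (D : ℝ) ^ C ≤ (C : ℝ) * (D : ℝ) ^ (C + C') :=
    mul_le_mul_of_nonneg_left h2 (Nat.cast_nonneg _)
  have h7 : (C' : ℝ) * (D : ℝ) ^ C' ≤ (C' : ℝ) * (D : ℝ) ^ (C + C') :=
    mul_le_mul_of_nonneg_left h3 (Nat.cast_nonneg _)
  nlinarith

theorem PB.mul {f g : ℕ → ℝ} (hf : PB f) (hg : PB g) (hf0 : ∀ D, 0 ≤ f D) (hg0 : ∀ D, 0 ≤ g D) :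
    PB (fun D => f D * g D) := by
  obtain ⟨C, hC⟩ := hf
  obtain ⟨C', hC'⟩ := hg
  refine ⟨C + C' + C * C', fun D hD => ?_⟩
  have h1 : (1 : ℝ) ≤ D := by exact_mod_cast hD
  have h4 := mul_le_mul (hC D hD) (hC' D hD) (hg0 D) (by positivity)
  refine h4.trans ?_
  have h5 : (C : ℝ) * (D : ℝ) ^ C * ((C' : ℝ) * (D : ℝ) ^ C') =
      ((C : ℝ) * C') * (D : ℝ) ^ (C + C') := by
    rw [pow_add]; ring
  rw [h5]
  have h6 : (D : ℝ) ^ (C + C') ≤ (D : ℝ) ^ (C + C' + C * C') :=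
    pow_le_pow_right₀ h1 (by omega)
  have h7 : ((C : ℝ) * C') ≤ ((C + C' + C * C' : ℕ) : ℝ) := by
    push_cast
    have : (0 : ℝ) ≤ C := Nat.cast_nonneg _
    have : (0 : ℝ) ≤ C' := Nat.cast_nonneg _
    linarith
  exact mul_le_mul h7 h6 (by positivity) (by positivity)

theorem PB.pow {f : ℕ → ℝ} (hf : PB f) (hf0 : ∀ D, 0 ≤ f D) (n : ℕ) : PB (fun D => f D ^ n) := by
  induction n with
  | zero => simpa using PB.const 1
  | succ n ih =>
    have h := ih.mul hf (fun D => pow_nonneg (hf0 D) n) hf0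
    simpa only [pow_succ] using h

theorem err_le {q x y ε : ℝ} (hx : 0 ≤ x) (hy : 0 ≤ y) (hε : 0 < ε) (hε1 : ε ≤ 1)
    (h1 : 1 + (4 / ε ^ 2) * x ^ 3 + (6 / ε) * y + 1 ≤ q) :
    x * √(x / (q - 1)) + ((1 + y / q) ^ 2 - 1) ≤ ε := by
  have hx3 : 0 ≤ (4 / ε ^ 2) * x ^ 3 := by positivity
  have hy3 : 0 ≤ (6 / ε) * y := by positivity
  have hq1 : 0 < q - 1 := by linarith
  have hq : 0 < q := by linarith
  have e1 : x * √(x / (q - 1)) ≤ ε / 2 := by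
    have e2 : x * √(x / (q - 1)) = √(x ^ 2 * (x / (q - 1))) := by
      rw [Real.sqrt_mul (by positivity), Real.sqrt_sq hx]
    rw [e2]
    apply Real.sqrt_le_iff.2
    refine ⟨by positivity, ?_⟩
    rw [← mul_div_assoc, div_le_iff₀ hq1]
    have h2 : (4 / ε ^ 2) * x ^ 3 ≤ q - 1 := by linarith
    have h3 : x ^ 3 = (ε / 2) ^ 2 * ((4 / ε ^ 2) * x ^ 3) := by field_simp; norm_num
    calc x ^ 2 * x = x ^ 3 := by ring
      _ = (ε / 2) ^ 2 * ((4 / ε ^ 2) * x ^ 3) := h3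
      _ ≤ (ε / 2) ^ 2 * (q - 1) := mul_le_mul_of_nonneg_left h2 (by positivity)
  have e3 : y / q ≤ ε / 6 := by
    rw [div_le_iff₀ hq]
    have h2 : (6 / ε) * y ≤ q := by linarith
    calc y = (ε / 6) * ((6 / ε) * y) := by field_simp
      _ ≤ (ε / 6) * q := mul_le_mul_of_nonneg_left h2 (by positivity)
  have e4 : 0 ≤ y / q := by positivity
  nlinarith

/-- the conclusion of the finite field theorem for `K`, `E` -/
def FTc (m d : ℕ) (K E : Type) [Field K] [Fintype K] [DecidableEq K] [Field E] [Fintype E]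
    [DecidableEq E] [Algebra K E] : Prop :=
  ∀ Φ : (Fin (m + 2) → E) → ℝ,
      (∀ (t : Fin (m + 2) → E) (i : Fin (m + 2)), ∑ x : E, Φ (Function.update t i x) = 0) →
      (∀ (σ : Equiv.Perm (Fin (m + 2))) (t : Fin (m + 2) → E), σ 0 = 0 → Φ (t ∘ σ) = Φ t) →
      (∀ (t : Fin (m + 2) → E) (i : Fin (m + 2)) (x : E), minpoly K x = minpoly K (t i) →
        Φ (Function.update t i x) = Φ t) →
      (∀ z : Fin 3 × Fin d → E,
        (∃ l : Fin 3 → Kˣ, ∑ X : Fin 3, Polynomial.C (l X : K) *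
          ∏ i : Fin d, nm K (z (X, i)) = 0) →
        ∑ j : Fin (m + 2) → Fin 3 × Fin d,
          c0 (j 0).1 * (∏ i : Fin (m + 1), c1 (j i.succ).1) * Φ (z ∘ j) = 0) →
      ∀ t, Φ t = 0

theorem ftc_of (m d D N : ℕ) (hD : 0 < D) (hN : N = 2 * (m + 2)) (hd : 2 * N ≤ d)
    (hd2 : m + 2 ≤ d) (ε : ℝ)
    (hε : ε = 1 / (12 * ((3 * d : ℝ) ^ (m + 2) * 2 ^ (m + 2)))) (hεpos : 0 < ε) (hε1 : ε ≤ 1)
    (K E : Type) [Field K] [Fintype K] [DecidableEq K] [Field E] [Fintype E] [DecidableEq E]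
    [Algebra K E] (hKE : finrank K E = D)
    (hb : 1 + (4 / ε ^ 2) * (2 * (cc d D : ℝ)) ^ 3 +
      (6 / ε) * (((N : ℝ) ^ 2 * D) * (2 * cc d D)) + 1 ≤ Fintype.card K)
    (hb2 : 8 * ((3 * d : ℝ) ^ (m + 2) * 2 ^ (m + 2)) * (D * (N : ℝ) ^ 2) < Fintype.card K) :
    FTc m d K E := by
  intro Φ hbal hsym hinv hrel
  refine ctrK m d D hD hd2 K E hKE (by rw [← hN]; exact hb2) ?_ Φ hbal hsym hinv hrel
  intro T hT z hz
  rw [← hN] at hT
  have h1 := count_explicitE (K := K) (E := E) (d := d) (N := N) hd T hT z hz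
  rw [hKE] at h1
  have hx0 : (0 : ℝ) ≤ 2 * (cc d D : ℝ) := by positivity
  have hy0 : (0 : ℝ) ≤ ((N : ℝ) ^ 2 * D) * (2 * cc d D) := by positivity
  have h2 := err_le (q := (Fintype.card K : ℝ)) (x := 2 * (cc d D : ℝ))
    (y := ((N : ℝ) ^ 2 * D) * (2 * cc d D)) (ε := ε) hx0 hy0 hεpos hε1 hb
  rw [hε] at h2
  refine h1.trans (mul_le_mul_of_nonneg_right h2 ?_)
  unfold wbar
  have hq2 : 2 ≤ Fintype.card K := Fintype.one_lt_card
  have h3 : (2 : ℝ) ≤ Fintype.card K := by exact_mod_cast hq2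
  have h4 : (0 : ℝ) ≤ (Fintype.card K : ℝ) - 1 := by linarith
  positivity

theorem pb_all (d N : ℕ) (ε C0 : ℝ) (hε : 0 < ε) (hC0 : 0 < C0) :
    PB (fun D => (1 + (4 / ε ^ 2) * (2 * (cc d D : ℝ)) ^ 3 +
      (6 / ε) * (((N : ℝ) ^ 2 * D) * (2 * cc d D)) + 1) +
      (8 * C0 * (D * (N : ℝ) ^ 2) + 1)) := by
  have hx : PB (fun D => 2 * (cc d D : ℝ)) := by
    have h1 : PB (fun D => 2 * ((d : ℝ) * D + 1) ^ d) := by
      refine (PB.const 2).mul ?_ (fun _ => by norm_num) (fun D => by positivity)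
      exact (((PB.const (d : ℝ)).mul PB.id (fun _ => by positivity) (fun _ => by positivity)).add
        (PB.const 1)).pow (fun _ => by positivity) d
    refine h1.mono (fun D _ => ?_)
    unfold cc
    push_cast
    exact le_rfl
  have hx0 : ∀ D : ℕ, (0 : ℝ) ≤ 2 * (cc d D : ℝ) := fun D => by positivity
  have hy : PB (fun D => ((N : ℝ) ^ 2 * D) * (2 * cc d D)) :=
    ((PB.const ((N : ℝ) ^ 2)).mul PB.id (fun _ => by positivity) (fun _ => by positivity)).mul hx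
      (fun _ => by positivity) hx0
  refine PB.add (PB.add (PB.add (PB.add (PB.const 1) ?_) ?_) (PB.const 1)) (PB.add ?_ (PB.const 1))
  · exact (PB.const _).mul (hx.pow hx0 3) (fun _ => by positivity) (fun D => by positivity)
  · exact (PB.const _).mul hy (fun _ => by positivity) (fun D => by positivity)
  · exact (PB.const _).mul (PB.id.mul (PB.const _) (fun _ => by positivity)
      (fun _ => by positivity)) (fun _ => by positivity) (fun D => by positivity)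

theorem ftU' (m d N : ℕ) (hN : N = 2 * (m + 2)) (hd : 2 * N ≤ d) (hd2 : m + 2 ≤ d) :
    ∃ C : ℕ, ∀ D : ℕ, 0 < D → ∀ (K E : Type) [Field K] [Fintype K]
    [DecidableEq K] [Field E] [Fintype E] [DecidableEq E] [Algebra K E], finrank K E = D →
    C * D ^ C ≤ Fintype.card K → FTc m d K E := by
  have hC0pos : (1 : ℝ) ≤ (3 * d : ℝ) ^ (m + 2) * 2 ^ (m + 2) := by
    have h1 : (1 : ℝ) ≤ 3 * d := by
      have : (1 : ℝ) ≤ d := by exact_mod_cast (by omega : 1 ≤ d)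
      linarith
    exact one_le_mul_of_one_le_of_one_le (one_le_pow₀ h1) (one_le_pow₀ (by norm_num))
  have hεpos : (0 : ℝ) < 1 / (12 * ((3 * d : ℝ) ^ (m + 2) * 2 ^ (m + 2))) := by positivity
  have hε1 : 1 / (12 * ((3 * d : ℝ) ^ (m + 2) * 2 ^ (m + 2))) ≤ 1 := by
    rw [div_le_one (by positivity)]
    linarith
  obtain ⟨C, hC⟩ := pb_all d N _ ((3 * d : ℝ) ^ (m + 2) * 2 ^ (m + 2)) hεpos (by linarith)
  refine ⟨C, ?_⟩
  intro D hD K E _ _ _ _ _ _ _ hKE hK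
  have hK' : (C : ℝ) * (D : ℝ) ^ C ≤ Fintype.card K := by exact_mod_cast hK
  have hb := (hC D hD).trans hK'
  have hp1 : 0 ≤ (4 / (1 / (12 * ((3 * d : ℝ) ^ (m + 2) * 2 ^ (m + 2)))) ^ 2) *
    (2 * (cc d D : ℝ)) ^ 3 := by positivity
  have hp2 : 0 ≤ (6 / (1 / (12 * ((3 * d : ℝ) ^ (m + 2) * 2 ^ (m + 2))))) *
    (((N : ℝ) ^ 2 * D) * (2 * cc d D)) := by positivity
  have hp3 : 0 ≤ 8 * ((3 * d : ℝ) ^ (m + 2) * 2 ^ (m + 2)) * (D * (N : ℝ) ^ 2) := by positivity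
  exact ftc_of m d D N hD hN hd hd2 _ rfl hεpos hε1 K E hKE (by linarith) (by linarith)

theorem ftU (m : ℕ) : ∃ C : ℕ, ∀ D : ℕ, 0 < D → ∀ (K E : Type) [Field K] [Fintype K]
    [DecidableEq K] [Field E] [Fintype E] [DecidableEq E] [Algebra K E], finrank K E = D →
    C * D ^ C ≤ Fintype.card K → FTc m (6 * (m + 2)) K E :=
  ftU' m (6 * (m + 2)) (2 * (m + 2)) rfl (by omega) (by omega)

end FtU

end Pool.Agent.Helper70K9.GC
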