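import Mathlib

/-!
# Finite subsets of the perfect closure
-/

set_option autoImplicit false

namespace Pool.Agent.Helper70K9.GC

/-- the embedding `x ↦ x^(1/p^n)` of `K` into its perfect closure -/
noncomputable def rootMap (K : Type) [Field K] (p : ℕ) [Fact p.Prime] [CharP K p] (n : ℕ) :
    K →+* PerfectClosure K p :=
  ((iterateFrobeniusEquiv (PerfectClosure K p) p n).symm : PerfectClosure K p →+*
    PerfectClosure K p).comp (PerfectClosure.of K p)

theorem rootMap_pow (K : Type) [Field K] (p : ℕ) [Fact p.Prime] [CharP K p] (n : ℕ) (x : K) :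
    rootMap K p n x ^ p ^ n = PerfectClosure.of K p x := by
  have h1 : iterateFrobeniusEquiv (PerfectClosure K p) p n (rootMap K p n x) =
      PerfectClosure.of K p x := by
    unfold rootMap
    rw [RingHom.comp_apply]
    exact (iterateFrobeniusEquiv (PerfectClosure K p) p n).apply_symm_apply _
  rw [← h1]
  rfl

theorem perf_mem (K : Type) [Field K] (p : ℕ) [Fact p.Prime] [CharP K p]
    (s : Finset (PerfectClosure K p)) :
    ∃ n : ℕ, ∀ x ∈ s, ∃ y, rootMap K p n y = x := by
  classical
  have key : ∀ x : PerfectClosure K p, ∃ (n : ℕ) (y : K), rootMap K p n y = x := by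
    intro x
    induction x using PerfectClosure.induction_on with
    | _ x =>
      refine ⟨x.1, x.2, ?_⟩
      apply (iterateFrobeniusEquiv (PerfectClosure K p) p x.1).injective
      have h1 : iterateFrobeniusEquiv (PerfectClosure K p) p x.1 (rootMap K p x.1 x.2) =
          rootMap K p x.1 x.2 ^ p ^ x.1 := rfl
      rw [h1, rootMap_pow, ← PerfectClosure.iterate_frobenius_mk K p x.1 x.2]
      have h2 : ((⇑(frobenius (PerfectClosure K p) p))^[x.1]) (PerfectClosure.mk K p (x.1, x.2)) =
          (PerfectClosure.mk K p (x.1, x.2)) ^ p ^ x.1 := by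
        rw [← coe_iterateFrobenius]
        rfl
      rw [h2]
      rfl
  have step : ∀ (n k : ℕ) (y : K), ∃ y', rootMap K p (n + k) y' = rootMap K p n y := by
    intro n k y
    refine ⟨y ^ p ^ k, ?_⟩
    apply (iterateFrobeniusEquiv (PerfectClosure K p) p (n + k)).injective
    change rootMap K p (n + k) (y ^ p ^ k) ^ p ^ (n + k) = rootMap K p n y ^ p ^ (n + k)
    rw [rootMap_pow, pow_add, pow_mul, rootMap_pow, map_pow]
  choose N Y hY using key
  refine ⟨s.sup N, fun x hx => ?_⟩
  obtain ⟨k, hk⟩ := Nat.exists_eq_add_of_le (Finset.le_sup (f := N) hx)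
  obtain ⟨y', hy'⟩ := step (N x) k (Y x)
  exact ⟨y', by rw [hk, hy', hY]⟩

end Pool.Agent.Helper70K9.GC
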