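import Pool.Agent.Helper70K9.GC.Un2
import Pool.Agent.H39R2.Gon.B1

/-!
# Truncated acyclicity from a truncated duality statement
-/

set_option autoImplicit false

namespace Pool.Agent.Helper70K9.GC

open scoped TensorProduct
open Polynomial H39Gon H39Gon.C4 H39Gon.TC2 H39Gon.E2 Pool.Agent.TH358.GP H39Gon.TaskB

namespace Te2

section tors

variable {V : Type} [AddCommGroup V]

theorem rat_zero (N : ℕ) (hN : 0 < N) (x : ℚ) (h : (N : ℤ) • x = 0) : x = 0 := by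
  rcases smul_eq_zero.1 h with h1 | h1
  · exact absurd h1 (by exact_mod_cast hN.ne')
  · exact h1

theorem ml_tors {n : ℕ} (P : MultilinearMap ℤ (fun _ : Fin n => V) ℚ) (w w' : Fin n → V)
    (h : ∀ i, Tors (w i - w' i)) : P w = P w' := by
  have h1 := map_eq_of_tors (((Rat.castHom ℝ).toAddMonoidHom.toIntLinearMap).compMultilinearMap P)
    w w' h
  have h2 : ((P w : ℚ) : ℝ) = ((P w' : ℚ) : ℝ) := h1
  exact_mod_cast h2

/-- composition with `π`. -/
def pst (π : V →ₗ[ℤ] V) (j : ℕ) : (V [⋀^Fin j]→ₗ[ℤ] ℚ) →ₗ[ℤ] (V [⋀^Fin j]→ₗ[ℤ] ℚ) where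
  toFun f := f.compLinearMap π
  map_add' _ _ := rfl
  map_smul' _ _ := rfl

/-- `Ψ` composed with `π` in all arguments. -/
noncomputable def Pp (π : V →ₗ[ℤ] V) {m j : ℕ}
    (Ψ : V →ₗ[ℤ] V →ₗ[ℤ] MultilinearMap ℤ (fun _ : Fin m => V) (V [⋀^Fin j]→ₗ[ℤ] ℚ)) :
    V →ₗ[ℤ] V →ₗ[ℤ] MultilinearMap ℤ (fun _ : Fin m => V) (V [⋀^Fin j]→ₗ[ℤ] ℚ) :=
  LinearMap.mk₂ ℤ (fun a b => (pst π j).compMultilinearMap
      ((Ψ (π a) (π b)).compLinearMap (fun _ => π)))
    (by intro a a' b; ext c; simp)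
    (by intro n a b; ext c; simp)
    (by intro a b b'; ext c; simp)
    (by intro n a b; ext c; simp)

theorem Pp_apply (π : V →ₗ[ℤ] V) {m j : ℕ}
    (Ψ : V →ₗ[ℤ] V →ₗ[ℤ] MultilinearMap ℤ (fun _ : Fin m => V) (V [⋀^Fin j]→ₗ[ℤ] ℚ))
    (a b : V) (c : Fin m → V) (y : Fin j → V) :
    Pp π Ψ a b c y = Ψ (π a) (π b) (fun i => π (c i)) (fun i => π (y i)) := rfl

theorem Pp_eq (π : V →ₗ[ℤ] V) {m j : ℕ}
    (Ψ : V →ₗ[ℤ] V →ₗ[ℤ] MultilinearMap ℤ (fun _ : Fin m => V) (V [⋀^Fin j]→ₗ[ℤ] ℚ))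
    (a b : V) (c : Fin m → V) (y : Fin j → V) (ha : Tors (a - π a)) (hb : Tors (b - π b))
    (hc : ∀ i, Tors (c i - π (c i))) (hy : ∀ i, Tors (y i - π (y i))) :
    Pp π Ψ a b c y = Ψ a b c y := by
  rw [Pp_apply]
  have e1 := ml_tors (Ψ a b c).toMultilinearMap y (fun i => π (y i)) hy
  have e2 := ml_tors ((evalAlt (fun i => π (y i))).compMultilinearMap (Ψ a b)) c
    (fun i => π (c i)) hc
  have e1' : Ψ a b c y = Ψ a b c (fun i => π (y i)) := e1
  have e2' : Ψ a b c (fun i => π (y i)) = Ψ a b (fun i => π (c i)) (fun i => π (y i)) := e2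
  rw [e1', e2']
  have e3 : Ψ a b (fun i => π (c i)) (fun i => π (y i)) =
      Ψ a (π b) (fun i => π (c i)) (fun i => π (y i)) := by
    obtain ⟨N, hN, h⟩ := hb
    have h1 : Ψ a (N • (b - π b)) (fun i => π (c i)) (fun i => π (y i)) = 0 := by
      rw [h, map_zero]; rfl
    rw [map_nsmul, map_sub] at h1
    have h2 : (N : ℤ) • (Ψ a b (fun i => π (c i)) (fun i => π (y i)) -
      Ψ a (π b) (fun i => π (c i)) (fun i => π (y i))) = 0 := by
      rw [natCast_zsmul]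
      exact h1
    exact sub_eq_zero.1 (rat_zero N hN _ h2)
  have e4 : Ψ a (π b) (fun i => π (c i)) (fun i => π (y i)) =
      Ψ (π a) (π b) (fun i => π (c i)) (fun i => π (y i)) := by
    obtain ⟨N, hN, h⟩ := ha
    have h1 : Ψ (N • (a - π a)) (π b) (fun i => π (c i)) (fun i => π (y i)) = 0 := by
      rw [h, map_zero]; rfl
    rw [map_nsmul, map_sub] at h1
    have h2 : (N : ℤ) • (Ψ a (π b) (fun i => π (c i)) (fun i => π (y i)) -
      Ψ (π a) (π b) (fun i => π (c i)) (fun i => π (y i))) = 0 := by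
      rw [natCast_zsmul]
      exact h1
    exact sub_eq_zero.1 (rat_zero N hN _ h2)
  rw [e3, e4]

end tors

section Main

variable {F : Type} [Field F] (π : UV F →ₗ[ℤ] UV F)

/-- the duality statement on the image of `π` -/
def SDp (m : ℕ) : Prop :=
  ∀ Q : MultilinearMap ℤ (fun _ : Fin (m + 1) => UV F) (UV F →ₗ[ℤ] ℚ),
    (∀ f : F, f ≠ 0 → f ≠ 1 → Q (fun _ => cl f) (cl (1 - f)) = 0) →
    ∀ s v : UV F, Q (fun _ => π s) (π v) = 0

/-- good pairs -/
def Gd {j : ℕ} (x : F) (y : Fin j → UV F) : Prop :=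
  x ≠ 0 ∧ x ≠ 1 ∧ Tors (cl x - π (cl x)) ∧ Tors (cl (1 - x) - π (cl (1 - x))) ∧
    ∀ i, Tors (y i - π (y i))

variable (hF : EvS F) (D : Differentials F)

include hF in
theorem step_d (m j : ℕ) (hsd : SDp π (m + 2)) (φ : TQ F (m + 3) j →ₗ[ℚ] ℚ)
    (hφ : ∀ (i : ℕ) (hi : j = i + 1) (x : F) (y : Fin i → UV F), x ≠ 0 →
      φ (tq F (m + 3) j (some x)
        ((Fin.cons (cl x) y : Fin (i + 1) → UV F) ∘ Fin.cast hi)) = 0) :
    ∃ ψ : TQ F (m + 2) (j + 1) →ₗ[ℚ] ℚ, ∀ (x : F) (y : Fin j → UV F), Gd π x y →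
      φ (tq F (m + 3) j (some x) y) = ψ (D.d m j (tq F (m + 3) j (some x) y)) := by
  obtain ⟨Ψ, hΨ, hev⟩ := hF (m + 1) _ (toTheta φ) (fun r hr => toTheta_R φ r hr)
  have hsome : ∀ x y, φ (tq F (m + 3) j (some x) y) =
      Ψ (cl (1 - x)) (cl x) (fun _ => cl x) y := by
    intro x y
    rw [← toTheta_apply, hev, ev_some]
  have hPp : ∀ a, Pp π Ψ a a = 0 := by
    intro a
    ext c y
    rw [Pp_apply, hΨ]
    rfl
  obtain ⟨Q', hQ1, hQ2⟩ := koszul_step m j (qOf (Pp π Ψ)) (by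
      intro s
      rw [qOf_apply, hPp]
      rfl) (by
      intro i hi s v y
      subst hi
      have h1 := hsd (MultilinearMap.uncurryRight
        (M := fun _ : Fin (m + 2 + 1) => UV F)
        ((flipTail (fun l => π (y l))).compMultilinearMap (qOf Ψ))) (by
          intro f hf0 hf1
          change qOf Ψ (fun _ => cl f) (cl (1 - f)) (Fin.cons (cl f) (fun l => π (y l))) = 0
          rw [qOf_apply, ← hsome]
          exact hφ i rfl f (fun l => π (y l)) hf0) s v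
      have h2 : qOf Ψ (fun _ => π s) (π v) (Fin.cons (π s) (fun l => π (y l))) = 0 := h1
      rw [qOf_apply] at h2
      change qOf (Pp π Ψ) (fun _ => s) v (Fin.cons s y) = 0
      rw [qOf_apply, Pp_apply]
      rw [← h2]
      congr 1
      funext l
      induction l using Fin.cases with
      | zero => rfl
      | succ l => rfl)
  refine ⟨ofTheta (theta' Q') (theta'_R Q' hQ1), ?_⟩
  rintro x y ⟨hx0, hx1, h1, h2, h3⟩
  rw [D.d_some m j x y hx0, ofTheta_apply, theta'_some, hQ2, qOf_apply, hsome]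
  exact (Pp_eq π Ψ _ _ _ _ h2 h1 (fun _ => h1) h3).symm

include hF in
theorem step_e (j : ℕ) (hsd : SDp π 1) (φ : TQ F 2 j →ₗ[ℚ] ℚ)
    (hφ : ∀ (i : ℕ) (hi : j = i + 1) (x : F) (y : Fin i → UV F), x ≠ 0 →
      φ (tq F 2 j (some x)
        ((Fin.cons (cl x) y : Fin (i + 1) → UV F) ∘ Fin.cast hi)) = 0) :
    ∃ ψ : LQ F (j + 2) →ₗ[ℚ] ℚ, ∀ (x : F) (y : Fin j → UV F), Gd π x y →
      φ (tq F 2 j (some x) y) = ψ (D.e j (tq F 2 j (some x) y)) := by
  obtain ⟨Ψ, hΨ, hev⟩ := hF 0 _ (toTheta φ) (fun r hr => toTheta_R φ r hr)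
  have hsome : ∀ x y, φ (tq F 2 j (some x) y) =
      Ψ (cl (1 - x)) (cl x) (fun _ => cl x) y := by
    intro x y
    rw [← toTheta_apply, hev, ev_some]
  have hPp : ∀ a, Pp π Ψ a a = 0 := by
    intro a
    ext c y
    rw [Pp_apply, hΨ]
    rfl
  let Q : UV F →ₗ[ℤ] (UV F →ₗ[ℤ] (UV F [⋀^Fin j]→ₗ[ℤ] ℚ)) :=
    LinearMap.mk₂ ℤ (fun s v => Pp π Ψ v s Fin.elim0)
      (fun a b c => by simp) (fun a b c => by simp) (fun a b c => by simp)
      (fun a b c => by simp)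
  have hQ : ∀ s v, Q s v = Pp π Ψ v s (fun _ => s) := by
    intro s v
    change Pp π Ψ v s Fin.elim0 = _
    congr 1
    exact Subsingleton.elim _ _
  obtain ⟨Θ, hΘ⟩ := koszul_last j Q (by
      intro s
      rw [hQ, hPp]
      rfl) (by
      intro i hi s v y
      subst hi
      have h1 := hsd (MultilinearMap.uncurryRight
        (M := fun _ : Fin (1 + 1) => UV F)
        ((flipTail (fun l => π (y l))).compMultilinearMap (qOf Ψ))) (by
          intro f hf0 hf1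
          change qOf Ψ (fun _ => cl f) (cl (1 - f)) (Fin.cons (cl f) (fun l => π (y l))) = 0
          rw [qOf_apply, ← hsome]
          exact hφ i rfl f (fun l => π (y l)) hf0) s v
      have h2 : qOf Ψ (fun _ => π s) (π v) (Fin.cons (π s) (fun l => π (y l))) = 0 := h1
      rw [qOf_apply] at h2
      rw [hQ]
      change Pp π Ψ v s (fun _ => s) (Fin.cons s y) = 0
      rw [Pp_apply, ← h2]
      congr 1
      funext l
      induction l using Fin.cases with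
      | zero => rfl
      | succ l => rfl)
  refine ⟨ofAlt Θ, ?_⟩
  rintro x y ⟨hx0, hx1, h1, h2, h3⟩
  rw [D.e_some j x y hx0 hx1, ofAlt_apply, hΘ, hQ, hsome]
  exact (Pp_eq π Ψ _ _ _ _ h2 h1 (fun _ => h1) h3).symm

/-- the span of the good elements -/
noncomputable def GS (m j : ℕ) : Submodule ℚ (TQ F m j) :=
  Submodule.span ℚ {ξ | ∃ (x : F) (y : Fin j → UV F), Gd π x y ∧ ξ = tq F m j (some x) y}

include hF in
theorem cocycle_d (m j : ℕ) (hsd : SDp π (m + 2)) (ξ : TQ F (m + 3) (j + 1))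
    (hξ : ξ ∈ GS π (m + 3) (j + 1)) (h0 : D.d m (j + 1) ξ = 0) : ∃ η, D.d (m + 1) j η = ξ := by
  by_contra hcon
  have hn : ξ ∉ LinearMap.range (D.d (m + 1) j) := fun ⟨u, hu⟩ => hcon ⟨u, hu⟩
  obtain ⟨φ, hφ1, hφ2⟩ := exists_dual_ne hn
  obtain ⟨ψ, hψ⟩ := step_d π hF D m (j + 1) hsd φ (by
    intro i hi x y hx
    obtain rfl : j = i := by omega
    have h1 := hφ1 (D.d (m + 1) j (tq F (m + 1 + 3) j (some x) y)) ⟨_, rfl⟩
    rw [D.d_some _ _ _ _ hx] at h1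
    exact h1)
  apply hφ2
  have key : ∀ ξ ∈ GS π (m + 3) (j + 1), φ ξ = ψ (D.d m (j + 1) ξ) := by
    intro ξ hξ
    refine Submodule.span_induction ?_ ?_ ?_ ?_ hξ
    · rintro _ ⟨x, y, hxy, rfl⟩
      exact hψ x y hxy
    · simp
    · intro a b _ _ ha hb
      rw [map_add, map_add, map_add, ha, hb]
    · intro c a _ ha
      rw [map_smul, map_smul, map_smul, ha]
  rw [key ξ hξ, h0, map_zero]

include hF in
theorem cocycle_e (j : ℕ) (hsd : SDp π 1) (ξ : TQ F 2 (j + 1))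
    (hξ : ξ ∈ GS π 2 (j + 1)) (h0 : D.e (j + 1) ξ = 0) : ∃ η, D.d 0 j η = ξ := by
  by_contra hcon
  have hn : ξ ∉ LinearMap.range (D.d 0 j) := fun ⟨u, hu⟩ => hcon ⟨u, hu⟩
  obtain ⟨φ, hφ1, hφ2⟩ := exists_dual_ne hn
  obtain ⟨ψ, hψ⟩ := step_e π hF D (j + 1) hsd φ (by
    intro i hi x y hx
    obtain rfl : j = i := by omega
    have h1 := hφ1 (D.d 0 j (tq F (0 + 3) j (some x) y)) ⟨_, rfl⟩
    rw [D.d_some _ _ _ _ hx] at h1
    exact h1)
  apply hφ2
  have key : ∀ ξ ∈ GS π 2 (j + 1), φ ξ = ψ (D.e (j + 1) ξ) := by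
    intro ξ hξ
    refine Submodule.span_induction ?_ ?_ ?_ ?_ hξ
    · rintro _ ⟨x, y, hxy, rfl⟩
      exact hψ x y hxy
    · simp
    · intro a b _ _ ha hb
      rw [map_add, map_add, map_add, ha, hb]
    · intro c a _ ha
      rw [map_smul, map_smul, map_smul, ha]
  rw [key ξ hξ, h0, map_zero]

end Main

end Te2

end Pool.Agent.Helper70K9.GC
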