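import Pool.Agent.Helper70K9.GC.Su
import Pool.Agent.H39R2.Gon.C2
import Pool.Agent.H39R2.Gon.B2

/-!
# The projection of `k(x)^*` onto the part supported in degree dividing `D`
-/

set_option autoImplicit false

namespace Pool.Agent.Helper70K9.GC

open Polynomial H39Gon H39Gon.TaskB UniqueFactorizationMonoid

namespace PrjS

variable {k : Type} [Field k]

open Classical in
/-- product of the irreducible factors of degree dividing `D` -/
noncomputable def sp (D : ℕ) : k[X] →*₀ k[X] where
  toFun P := if P = 0 then 0 else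
    ((normalizedFactors P).filter (fun R => R.natDegree ∣ D)).prod
  map_zero' := by simp
  map_one' := by simp
  map_mul' P Q := by
    by_cases hP : P = 0
    · simp [hP]
    by_cases hQ : Q = 0
    · simp [hQ]
    rw [if_neg hP, if_neg hQ, if_neg (mul_ne_zero hP hQ), normalizedFactors_mul hP hQ,
      Multiset.filter_add, Multiset.prod_add]

open Classical in
theorem sp_apply (D : ℕ) (P : k[X]) (hP : P ≠ 0) :
    sp D P = ((normalizedFactors P).filter (fun R => R.natDegree ∣ D)).prod := by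
  change (if P = 0 then 0 else _) = _
  rw [if_neg hP]

theorem sp_ne_zero (D : ℕ) {P : k[X]} (hP : P ≠ 0) : sp D P ≠ 0 := by
  classical
  rw [sp_apply D P hP]
  apply Multiset.prod_ne_zero
  intro h
  exact zero_notMem_normalizedFactors P (Multiset.mem_of_mem_filter h)

theorem sp_dvd (D : ℕ) {P : k[X]} (hP : P ≠ 0) {R : k[X]} (hR : Irreducible R)
    (h : R ∣ sp D P) : R.natDegree ∣ D := by
  classical
  rw [sp_apply D P hP] at h
  obtain ⟨T, hT, hRT⟩ := hR.prime.exists_mem_multiset_dvd h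
  have h1 := Multiset.mem_filter.1 hT
  have hT0 : T ≠ 0 := by
    rintro rfl
    exact zero_notMem_normalizedFactors P h1.1
  have h2 := irreducible_of_normalized_factor T h1.1
  have h3 : R.natDegree = T.natDegree :=
    natDegree_eq_of_degree_eq (degree_eq_degree_of_associated (hR.associated_of_dvd h2 hRT))
  rw [h3]
  exact h1.2

theorem sp_all (D : ℕ) {P : k[X]} (hP : P ≠ 0)
    (h : ∀ R : k[X], Irreducible R → R ∣ P → R.natDegree ∣ D) :
    ∃ c : k, c ≠ 0 ∧ P = C c * sp D P := by
  classical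
  rw [sp_apply D P hP]
  rw [Multiset.filter_eq_self.2 (fun R hR => h R (irreducible_of_normalized_factor R hR)
    (dvd_of_mem_normalizedFactors hR))]
  obtain ⟨u, hu⟩ := (prod_normalizedFactors hP)
  obtain ⟨c, hc, hcu⟩ := Polynomial.isUnit_iff.1 u.isUnit
  refine ⟨c, hc.ne_zero, ?_⟩
  rw [hcu, mul_comm]
  exact hu.symm

/-- the projection -/
noncomputable def lft (D : ℕ) : RatFunc k →*₀ RatFunc k :=
  RatFunc.liftMonoidWithZeroHom
    ((algebraMap k[X] (RatFunc k)).toMonoidWithZeroHom.comp (sp D)) (by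
    intro p hp
    rw [Submonoid.mem_comap]
    apply mem_nonZeroDivisors_of_ne_zero
    change algebraMap k[X] (RatFunc k) (sp D p) ≠ 0
    exact RatFunc.algebraMap_ne_zero (sp_ne_zero D (nonZeroDivisors.ne_zero hp)))

theorem lft_apply (D : ℕ) (f : RatFunc k) :
    lft D f = algebraMap k[X] (RatFunc k) (sp D f.num) /
      algebraMap k[X] (RatFunc k) (sp D f.denom) := by
  unfold lft
  rw [RatFunc.liftMonoidWithZeroHom_apply]
  rfl

/-- the projection on unit groups, additively -/
noncomputable def prj (D : ℕ) : UV (RatFunc k) →ₗ[ℤ] UV (RatFunc k) :=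
  (MonoidHom.toAdditive (Units.map ((lft D : RatFunc k →*₀ RatFunc k) : RatFunc k →* RatFunc k))).toIntLinearMap

theorem prj_cl (D : ℕ) (f : RatFunc k) : prj D (cl f) = cl (lft D f) := by
  by_cases h : f = 0
  · subst h; rw [map_zero, TC2.cl_zero, map_zero]
  · have h' : lft D f ≠ 0 := by
      rw [Ne, map_eq_zero]; exact h
    rw [TC2.cl_of_ne h, TC2.cl_of_ne h']
    unfold prj
    rw [AddMonoidHom.coe_toIntLinearMap]
    show Additive.ofMul (Units.map ((lft D : RatFunc k →*₀ RatFunc k) : RatFunc k →* RatFunc k) (Units.mk0 f h)) = _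
    congr 1
    ext; rfl

theorem SU_lft (D : ℕ) (f : RatFunc k) (hf : f ≠ 0) : SU D (lft D f) := by
  refine ⟨by rw [Ne, map_eq_zero]; exact hf, fun P hP h => ?_⟩
  have hn : f.num ≠ 0 := RatFunc.num_ne_zero hf
  have hd : f.denom ≠ 0 := RatFunc.denom_ne_zero f
  rw [lft_apply] at h
  rcases h with h | h
  · exact sp_dvd D hn hP (h.trans (RatFunc.num_div_dvd _ (sp_ne_zero D hd)))
  · exact sp_dvd D hd hP (h.trans (RatFunc.denom_div_dvd _ _))

theorem exists_SU (D : ℕ) (s : UV (RatFunc k)) : ∃ f : RatFunc k, SU D f ∧ prj D s = cl f := by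
  obtain ⟨f, hf, rfl⟩ := exists_cl s
  exact ⟨lft D f, SU_lft D f hf, prj_cl D f⟩

theorem tors_SU (hk : ConstTors k) (D : ℕ) (f : RatFunc k) (hf : SU D f) :
    Tors (cl f - prj D (cl f)) := by
  have hn : f.num ≠ 0 := RatFunc.num_ne_zero hf.1
  have hd : f.denom ≠ 0 := RatFunc.denom_ne_zero f
  obtain ⟨a, ha, hna⟩ := sp_all D hn (fun R hR h => hf.2 R hR (Or.inl h))
  obtain ⟨b, hb, hnb⟩ := sp_all D hd (fun R hR h => hf.2 R hR (Or.inr h))
  have hA := RatFunc.algebraMap_ne_zero (sp_ne_zero D hn)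
  have hB := RatFunc.algebraMap_ne_zero (sp_ne_zero D hd)
  have hab : a / b ≠ 0 := div_ne_zero ha hb
  have hC : RatFunc.C (a / b) ≠ 0 := by rw [Ne, map_eq_zero]; exact hab
  have h1 : f = RatFunc.C (a / b) * lft D f := by
    rw [lft_apply]
    conv_lhs => rw [← RatFunc.num_div_denom f, hna, hnb]
    rw [map_mul, map_mul, RatFunc.algebraMap_C, RatFunc.algebraMap_C, map_div₀]
    exact mul_div_mul_comm _ _ _ _
  have h2 : lft D f ≠ 0 := by rw [Ne, map_eq_zero]; exact hf.1
  rw [prj_cl]
  have h3 : cl f - cl (lft D f) = cl (RatFunc.C (a / b)) := by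
    conv_lhs => rw [h1]
    rw [TaskB.cl_mul hC h2, ← h1, add_sub_cancel_right]
  rw [h3]
  exact tors_C hk _ hab

end PrjS

end Pool.Agent.Helper70K9.GC
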