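import Pool.Agent.Helper70K9.GC.Spd

/-!
# `S`-units of `k(x)`, `S` the set of the closed points of degree dividing `D`
-/

set_option autoImplicit false

namespace Pool.Agent.Helper70K9.GC

open Polynomial H39Gon H39Gon.TaskB Module SpdL

/-- all irreducible factors of `P` have degree dividing `D` -/
def SP {k : Type} [Field k] (D : ℕ) (P : k[X]) : Prop :=
  ∀ R : k[X], Irreducible R → R ∣ P → R.natDegree ∣ D

/-- `f ≠ 0`, and all zeros and poles of `f` on the affine line have degree dividing `D` -/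
def SU {k : Type} [Field k] (D : ℕ) (f : RatFunc k) : Prop :=
  f ≠ 0 ∧ ∀ R : k[X], Irreducible R → R ∣ f.num ∨ R ∣ f.denom → R.natDegree ∣ D

section

variable {k : Type} [Field k]

theorem SP.mul {D : ℕ} {P Q : k[X]} (hP : SP D P) (hQ : SP D Q) : SP D (P * Q) := by
  intro R hR h
  rcases hR.prime.dvd_or_dvd h with h | h
  · exact hP R hR h
  · exact hQ R hR h

theorem SP.dvd {D : ℕ} {P Q : k[X]} (hP : SP D P) (h : Q ∣ P) : SP D Q :=
  fun R hR hRQ => hP R hR (hRQ.trans h)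

theorem SP.pow {D : ℕ} {P : k[X]} (hP : SP D P) (n : ℕ) : SP D (P ^ n) :=
  fun R hR h => hP R hR (hR.prime.dvd_of_dvd_pow h)

theorem SP.unit {D : ℕ} {P : k[X]} (hP : IsUnit P) : SP D P :=
  fun _ hR h => absurd (isUnit_of_dvd_unit h hP) hR.not_isUnit

theorem SP.C {D : ℕ} {c : k} (hc : c ≠ 0) : SP D (C c) :=
  SP.unit (Polynomial.isUnit_C.2 (isUnit_iff_ne_zero.2 hc))

theorem SP.prod {D : ℕ} {ι : Type} (s : Finset ι) (f : ι → k[X]) (h : ∀ i ∈ s, SP D (f i)) :
    SP D (∏ i ∈ s, f i) := by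
  intro R hR hd
  obtain ⟨i, hi, hRi⟩ := (hR.prime.dvd_finsetProd_iff f).1 hd
  exact h i hi R hR hRi

theorem SP.deg_one {D : ℕ} {P : k[X]} (hP : P ≠ 0) (h : P.natDegree ≤ 1) : SP D P := by
  intro R hR hd
  have h1 := (natDegree_le_of_dvd hd hP).trans h
  have h2 := hR.natDegree_pos
  have h3 : R.natDegree = 1 := by omega
  rw [h3]
  exact one_dvd D

theorem SU_iff {D : ℕ} {f : RatFunc k} : SU D f ↔ f ≠ 0 ∧ SP D f.num ∧ SP D f.denom := by
  constructor
  · rintro ⟨h0, h⟩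
    exact ⟨h0, fun R hR hd => h R hR (Or.inl hd), fun R hR hd => h R hR (Or.inr hd)⟩
  · rintro ⟨h0, h1, h2⟩
    refine ⟨h0, fun R hR hd => ?_⟩
    rcases hd with hd | hd
    · exact h1 R hR hd
    · exact h2 R hR hd

theorem SU.mul {D : ℕ} {f g : RatFunc k} (hf : SU D f) (hg : SU D g) : SU D (f * g) := by
  rw [SU_iff] at *
  exact ⟨mul_ne_zero hf.1 hg.1, (hf.2.1.mul hg.2.1).dvd (RatFunc.num_mul_dvd f g),
    (hf.2.2.mul hg.2.2).dvd (RatFunc.denom_mul_dvd f g)⟩

theorem SU.inv {D : ℕ} {f : RatFunc k} (hf : SU D f) : SU D f⁻¹ := by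
  rw [SU_iff] at *
  exact ⟨inv_ne_zero hf.1, hf.2.2.dvd (RatFunc.num_inv_dvd hf.1),
    hf.2.1.dvd (RatFunc.denom_inv_dvd hf.1)⟩

theorem SU.div {D : ℕ} {f g : RatFunc k} (hf : SU D f) (hg : SU D g) : SU D (f / g) := by
  rw [div_eq_mul_inv]
  exact hf.mul hg.inv

theorem SU.alg {D : ℕ} {P : k[X]} (hP0 : P ≠ 0) (hP : SP D P) :
    SU D (algebraMap k[X] (RatFunc k) P) := by
  rw [SU_iff, RatFunc.num_algebraMap, RatFunc.denom_algebraMap]
  exact ⟨RatFunc.algebraMap_ne_zero hP0, hP, SP.unit isUnit_one⟩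

theorem SU.neg {D : ℕ} {f : RatFunc k} (hf : SU D f) : SU D (-f) := by
  have h1 : SU D (algebraMap k[X] (RatFunc k) (C (-1))) :=
    SU.alg (by simp) (SP.C (by simp))
  have h2 := h1.mul hf
  simpa using h2

theorem SU.pow {D : ℕ} {f : RatFunc k} (hf : SU D f) (n : ℕ) : SU D (f ^ n) := by
  induction n with
  | zero =>
    rw [pow_zero, ← map_one (algebraMap k[X] (RatFunc k))]
    exact SU.alg one_ne_zero (SP.unit isUnit_one)
  | succ n ih => rw [pow_succ]; exact ih.mul hf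

theorem SP_nm {E : Type} [Field E] [Algebra k E] [FiniteDimensional k E] {D : ℕ}
    (hD : finrank k E = D) (z : E) : SP D (nm k z) := by
  unfold nm
  apply SP.pow
  intro R hR h
  have h1 := minpoly.irreducible (IsIntegral.of_finite k z)
  have h2 : R.natDegree = (minpoly k z).natDegree :=
    natDegree_eq_of_degree_eq (degree_eq_degree_of_associated (hR.associated_of_dvd h1 h))
  rw [h2, ← hD]
  exact mp_dvd z

/-- if `T` is irreducible with root `β` and `k(β)` is generated by a root of `P`, the degree of `T`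
divides `D`. -/
theorem deg_dvd {D : ℕ} {P : k[X]} (hP0 : P ≠ 0) (hP : SP D P) (T : k[X])
    [hT : Fact (Irreducible T)] (α : AdjoinRoot T) (hα : aeval α P = 0)
    (hr : AdjoinRoot.root T ∈ IntermediateField.adjoin k {α}) : T.natDegree ∣ D := by
  have hT0 : T ≠ 0 := hT.out.ne_zero
  have hint : IsIntegral k α := by
    have h1 : IsAlgebraic k α := ⟨P, hP0, hα⟩
    exact h1.isIntegral
  have h2 := hP (minpoly k α) (minpoly.irreducible hint) (minpoly.dvd k α hα)
  have h3 : IntermediateField.adjoin k {α} = ⊤ := by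
    rw [eq_top_iff, ← IntermediateField.adjoin_root_eq_top T]
    rw [IntermediateField.adjoin_le_iff]
    simpa using hr
  have h4 := IntermediateField.adjoin.finrank hint
  rw [h3, IntermediateField.finrank_top'] at h4
  have h5 : finrank k (AdjoinRoot T) = T.natDegree := finrank_quotient_span_eq_natDegree (f := T)
  rw [← h5, h4]
  exact h2

/-- the reversed polynomial -/
theorem SP_reverse {D : ℕ} {P : k[X]} (hP0 : P ≠ 0) (hP : SP D P) (c : k) :
    SP D ((P.reverse).comp (X - C c)) := by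
  intro T hT hd
  have : Fact (Irreducible T) := ⟨hT⟩
  set β : AdjoinRoot T := AdjoinRoot.root T with hβ
  have h1 : aeval β ((P.reverse).comp (X - C c)) = 0 := by
    obtain ⟨R, hR⟩ := hd
    rw [hR, map_mul, hβ, AdjoinRoot.aeval_eq, AdjoinRoot.mk_self, zero_mul]
  rw [aeval_comp] at h1
  set γ : AdjoinRoot T := aeval β (X - C c) with hγ
  have hγ' : γ = β - algebraMap k (AdjoinRoot T) c := by
    rw [hγ, map_sub, aeval_X, aeval_C]
  have hγ0 : γ ≠ 0 := by
    intro h0
    rw [h0, aeval_def, eval₂_at_zero, coeff_zero_reverse, map_eq_zero] at h1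
    exact hP0 (leadingCoeff_eq_zero.1 h1)
  let _ : Invertible (γ⁻¹) := invertibleOfNonzero (inv_ne_zero hγ0)
  have h2 : aeval γ⁻¹ P = 0 := by
    rw [aeval_def]
    apply (eval₂_reverse_eq_zero_iff (algebraMap k (AdjoinRoot T)) (γ⁻¹) P).1
    rw [invOf_eq_inv, inv_inv]
    exact h1
  refine deg_dvd hP0 hP T γ⁻¹ h2 ?_
  have h3 : AdjoinRoot.root T = (γ⁻¹)⁻¹ + algebraMap k (AdjoinRoot T) c := by
    rw [inv_inv, hγ', ← hβ]
    ring
  rw [h3]
  exact add_mem (inv_mem (IntermediateField.mem_adjoin_simple_self k _))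
    (IntermediateField.algebraMap_mem _ c)

theorem SP_comp {D : ℕ} {P : k[X]} (hP0 : P ≠ 0) (hP : SP D P) (c : k) :
    SP D (P.comp (X + C c)) := by
  intro T hT hd
  have : Fact (Irreducible T) := ⟨hT⟩
  set β : AdjoinRoot T := AdjoinRoot.root T with hβ
  have h1 : aeval β (P.comp (X + C c)) = 0 := by
    obtain ⟨R, hR⟩ := hd
    rw [hR, map_mul, hβ, AdjoinRoot.aeval_eq, AdjoinRoot.mk_self, zero_mul]
  rw [aeval_comp, map_add, aeval_X, aeval_C] at h1
  refine deg_dvd hP0 hP T _ h1 ?_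
  have h3 : AdjoinRoot.root T = (β + algebraMap k (AdjoinRoot T) c) -
      algebraMap k (AdjoinRoot T) c := by
    rw [← hβ]
    ring
  rw [h3]
  exact sub_mem (IntermediateField.mem_adjoin_simple_self k
    (β + algebraMap k (AdjoinRoot T) c)) (IntermediateField.algebraMap_mem _ c)

theorem SU_sgm_alg {D : ℕ} {P : k[X]} (hP0 : P ≠ 0) (hP : SP D P) (c : k) :
    SU D (sgm c (algebraMap k[X] (RatFunc k) P)) := by
  rw [sgm_alg]
  let _ : Invertible (xx c) := invertibleOfNonzero (xx_ne_zero c)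
  have hx := xx_ne_zero c
  have h1 : eval₂ (RatFunc.C (K := k)) ((xx c)⁻¹) P =
      eval₂ (RatFunc.C (K := k)) (xx c) P.reverse / (xx c) ^ P.natDegree := by
    have hi : (xx c) ^ P.natDegree ≠ 0 := pow_ne_zero _ hx
    let _ : Invertible ((xx c)⁻¹) := invertibleOfNonzero (inv_ne_zero hx)
    have h2 := eval₂_reverse_mul_pow (RatFunc.C (K := k)) ((xx c)⁻¹) P
    rw [invOf_eq_inv, inv_inv] at h2
    rw [← h2, inv_pow, div_eq_mul_inv]
  have h3 : eval₂ (RatFunc.C (K := k)) (xx c) P.reverse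
      = algebraMap k[X] (RatFunc k) (P.reverse.comp (X - C c)) := by
    rw [comp, hom_eval₂, xx_eq]
    congr 1
  have h4 : P.reverse.comp (X - C c) ≠ 0 := by
    intro h
    have h5 := congrArg (fun R : k[X] => R.comp (X + C c)) h
    have h6 : P.reverse = 0 := by simpa [comp_assoc] using h5
    exact hP0 (reverse_eq_zero.1 h6)
  rw [h1, h3]
  refine (SU.alg h4 (SP_reverse hP0 hP c)).div (SU.pow ?_ _)
  rw [xx_eq]
  exact SU.alg (X_sub_C_ne_zero c) (SP.deg_one (X_sub_C_ne_zero c) (by rw [natDegree_X_sub_C]))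

theorem SU_sgm {D : ℕ} {f : RatFunc k} (hf : SU D f) (c : k) : SU D (sgm c f) := by
  have h := SU_iff.1 hf
  rw [← RatFunc.num_div_denom f, map_div₀]
  exact (SU_sgm_alg (RatFunc.num_ne_zero h.1) h.2.1 c).div
    (SU_sgm_alg (RatFunc.denom_ne_zero f) h.2.2 c)

end

end Pool.Agent.Helper70K9.GC
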