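import Pool.Agent.Helper70K9.GC.TrD
import Pool.Agent.Helper70K9.GC.Asm
import Pool.Agent.Helper70K9.GC.Spd

/-!
# The truncated duality statement
-/

set_option autoImplicit false

namespace Pool.Agent.Helper70K9.GC

namespace TsdL

open Polynomial H39Gon H39Gon.TaskB Module SpdL

section span

variable {V : Type} [AddCommGroup V]

/-- a multilinear map which vanishes on a generating set vanishes. -/
theorem ml_span {n : ℕ} (M : MultilinearMap ℤ (fun _ : Fin n => V) ℝ) (S : Set V)
    (h : ∀ w : Fin n → V, (∀ i, w i ∈ S) → M w = 0) (w : Fin n → V)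
    (hw : ∀ i, w i ∈ Submodule.span ℤ S) : M w = 0 := by
  classical
  have key : ∀ T : Finset (Fin n), ∀ w : Fin n → V, (∀ i ∈ T, w i ∈ Submodule.span ℤ S) →
      (∀ i, i ∉ T → w i ∈ S) → M w = 0 := by
    intro T
    induction T using Finset.induction_on with
    | empty =>
      intro w _ h2
      exact h w (fun i => h2 i (Finset.notMem_empty i))
    | insert a T ha ih =>
      intro w h1 h2
      have h3 : ∀ v ∈ Submodule.span ℤ S, M (Function.update w a v) = 0 := by
        intro v hv
        refine Submodule.span_induction ?_ ?_ ?_ ?_ hv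
        · intro v hv
          refine ih (Function.update w a v) ?_ ?_
          · intro i hi
            have hia : i ≠ a := by rintro rfl; exact ha hi
            rw [Function.update_of_ne hia]
            exact h1 i (Finset.mem_insert_of_mem hi)
          · intro i hi
            by_cases hia : i = a
            · subst hia; rw [Function.update_self]; exact hv
            · rw [Function.update_of_ne hia]
              exact h2 i (by simp [hia, hi])
        · exact M.map_update_zero w a
        · intro x y _ _ hx hy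
          rw [M.map_update_add, hx, hy, add_zero]
        · intro c x _ hx
          rw [M.map_update_smul, hx, smul_zero]
      have h4 := h3 (w a) (h1 a (Finset.mem_insert_self a T))
      rwa [Function.update_eq_self] at h4
  exact key Finset.univ w (fun i _ => hw i) (fun i hi => absurd (Finset.mem_univ i) hi)

end span

theorem alg5 {V : Type} [AddCommGroup V] (a b : ℕ) (x y : V) (h : Tors (a • x - y)) :
    Tors ((a * b) • x - b • y) := by
  have h1 := h.nsmul b
  rwa [smul_sub, ← mul_smul, mul_comm b a] at h1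

section

variable {k : Type} [Field k]

theorem constTors [Fintype k] : ConstTors k := by
  intro c hc
  have h1 : 0 < Fintype.card k - 1 := by
    have := Fintype.one_lt_card (α := k)
    omega
  exact ⟨Fintype.card k - 1, h1, FiniteField.pow_card_sub_one_eq_one c hc⟩

/-- (2): degree zero -/
theorem step2 [Fintype k] (p : ℕ) [Fact p.Prime] [CharP k p] {m D q0 : ℕ}
    (hFT : ∀ (K E : Type) [Field K] [Fintype K] [DecidableEq K] [Field E] [Fintype E]
    [DecidableEq E] [Algebra K E], finrank K E = D.factorial → q0 ≤ Fintype.card K →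
    ∀ Φ : (Fin (m + 2) → E) → ℝ,
      (∀ (t : Fin (m + 2) → E) (i : Fin (m + 2)), ∑ x : E, Φ (Function.update t i x) = 0) →
      (∀ (σ : Equiv.Perm (Fin (m + 2))) (t : Fin (m + 2) → E), σ 0 = 0 → Φ (t ∘ σ) = Φ t) →
      (∀ (t : Fin (m + 2) → E) (i : Fin (m + 2)) (x : E), minpoly K x = minpoly K (t i) →
        Φ (Function.update t i x) = Φ t) →
      (∀ z : Fin 3 × Fin (6 * (m + 2)) → E,
        (∃ l : Fin 3 → Kˣ, ∑ X : Fin 3, C (l X : K) *
          ∏ i : Fin (6 * (m + 2)), nm K (z (X, i)) = 0) →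
        ∑ j : Fin (m + 2) → Fin 3 × Fin (6 * (m + 2)),
          c0 (j 0).1 * (∏ i : Fin (m + 1), c1 (j i.succ).1) * Φ (z ∘ j) = 0) →
      ∀ t, Φ t = 0)
    (hq : q0 ≤ Fintype.card k)
    (Q : MultilinearMap ℤ (fun _ : Fin (m + 1) => UV (RatFunc k)) (UV (RatFunc k) →ₗ[ℤ] ℚ))
    (hQ : ∀ f : RatFunc k, f ≠ 0 → f ≠ 1 → Q (fun _ => cl f) (cl (1 - f)) = 0)
    (A B : Fin (m + 2) → k[X]) (hA : ∀ i, A i ≠ 0) (hB : ∀ i, B i ≠ 0)
    (hAD : ∀ i, (A i).natDegree ≤ D) (hAB : ∀ i, (A i).natDegree = (B i).natDegree) :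
    PS Q (fun i => cl (algebraMap k[X] (RatFunc k) (A i)) -
      cl (algebraMap k[X] (RatFunc k) (B i))) = 0 := by
  classical
  have hk : ConstTors k := constTors
  have hDpos : 0 < D.factorial := Nat.factorial_pos D
  have : NeZero D.factorial := ⟨hDpos.ne'⟩
  let E : Type := FiniteField.Extension k p D.factorial
  let _ : Fintype E := Fintype.ofFinite E
  have hE : finrank k E = D.factorial := FiniteField.finrank_extension k p D.factorial
  have hnd : ∀ i, 0 < i → i ≤ D → i ∣ D.factorial := fun i hi hin => Nat.dvd_factorial hi hin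
  have hid : ∀ P : k[X], pq (RingHom.id k) P = algebraMap k[X] (RatFunc k) P := by
    intro P; unfold pq; rw [Polynomial.map_id]
  have h1 : ∀ i, ∃ g : E → ℤ, ∑ a, g a = 0 ∧
      Tors (D.factorial • (cl (algebraMap k[X] (RatFunc k) (A i)) -
      cl (algebraMap k[X] (RatFunc k) (B i))) -
        ∑ a, g a • cl (pq (RingHom.id k) (nm k a))) := by
    intro i
    obtain ⟨gA, hgA, hgAt⟩ := decompK (E := E) hk (RingHom.id k) D.factorial D hE hnd (A i) (hA i)
      (hAD i)
    obtain ⟨gB, hgB, hgBt⟩ := decompK (E := E) hk (RingHom.id k) D.factorial D hE hnd (B i) (hB i)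
      (by rw [← hAB i]; exact hAD i)
    refine ⟨fun a => gA a - gB a, ?_, ?_⟩
    · rw [Finset.sum_sub_distrib, hgA, hgB, hAB i, sub_self]
    · have e1 := alg3 D.factorial _ _ _ _ hgAt hgBt
      rw [← Finset.sum_sub_distrib, hid, hid] at e1
      simp only [← sub_smul] at e1
      exact e1
  choose g hg0 hgt using h1
  set N : ℕ := D.factorial * Fintype.card E with hN
  have hNpos : 0 < N := Nat.mul_pos hDpos Fintype.card_pos
  set w : Fin (m + 2) → UV (RatFunc k) := fun i => cl (algebraMap k[X] (RatFunc k) (A i)) -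
      cl (algebraMap k[X] (RatFunc k) (B i)) with hw
  have e1 : PS Q (fun i => N • w i) = PS Q (fun i => ∑ a, g i a • mm (K := k) (RingHom.id k) a) := by
    apply map_eq_of_tors
    intro i
    have h2 := smul_mV (fun b : E => cl (pq (RingHom.id k) (nm k b))) (g i) (hg0 i)
    have h3 : ∑ a, g i a • mm (K := k) (RingHom.id k) a =
        (Fintype.card E) • ∑ a, g i a • cl (pq (RingHom.id k) (nm k a)) := h2.symm
    rw [h3, hN]
    exact alg5 _ _ _ _ (hgt i)
  have e2 : PS Q (fun i => ∑ a, g i a • mm (K := k) (RingHom.id k) a) = 0 := by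
    rw [map_lincomb]
    apply Finset.sum_eq_zero
    intro r _
    rw [core hk k E (RingHom.id k) (hFT k E hE hq) Q hQ r, mul_zero]
  rw [e2] at e1
  have e3 : PS Q (fun i => N • w i) = (∏ _i : Fin (m + 2), (N : ℤ)) • PS Q w := by
    rw [← MultilinearMap.map_smul_univ]
    simp
  rw [e3] at e1
  rcases smul_eq_zero.1 e1 with h4 | h4
  · exact absurd h4 (Finset.prod_ne_zero_iff.2 (fun _ _ => by exact_mod_cast hNpos.ne'))
  · exact h4

/-- (3): all polynomials of degree `≤ D` -/
theorem step3 [Fintype k] (p : ℕ) [Fact p.Prime] [CharP k p] {m D q0 : ℕ}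
    (hFT : ∀ (K E : Type) [Field K] [Fintype K] [DecidableEq K] [Field E] [Fintype E]
    [DecidableEq E] [Algebra K E], finrank K E = D.factorial → q0 ≤ Fintype.card K →
    ∀ Φ : (Fin (m + 2) → E) → ℝ,
      (∀ (t : Fin (m + 2) → E) (i : Fin (m + 2)), ∑ x : E, Φ (Function.update t i x) = 0) →
      (∀ (σ : Equiv.Perm (Fin (m + 2))) (t : Fin (m + 2) → E), σ 0 = 0 → Φ (t ∘ σ) = Φ t) →
      (∀ (t : Fin (m + 2) → E) (i : Fin (m + 2)) (x : E), minpoly K x = minpoly K (t i) →
        Φ (Function.update t i x) = Φ t) →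
      (∀ z : Fin 3 × Fin (6 * (m + 2)) → E,
        (∃ l : Fin 3 → Kˣ, ∑ X : Fin 3, C (l X : K) *
          ∏ i : Fin (6 * (m + 2)), nm K (z (X, i)) = 0) →
        ∑ j : Fin (m + 2) → Fin 3 × Fin (6 * (m + 2)),
          c0 (j 0).1 * (∏ i : Fin (m + 1), c1 (j i.succ).1) * Φ (z ∘ j) = 0) →
      ∀ t, Φ t = 0)
    (hq : q0 ≤ Fintype.card k) (hq2 : (m + 2) * D < Fintype.card k)
    (Q : MultilinearMap ℤ (fun _ : Fin (m + 1) => UV (RatFunc k)) (UV (RatFunc k) →ₗ[ℤ] ℚ))
    (hQ : ∀ f : RatFunc k, f ≠ 0 → f ≠ 1 → Q (fun _ => cl f) (cl (1 - f)) = 0)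
    (P : Fin (m + 2) → k[X]) (hP : ∀ i, P i ≠ 0) (hPD : ∀ i, (P i).natDegree ≤ D) :
    PS Q (fun i => cl (algebraMap k[X] (RatFunc k) (P i))) = 0 := by
  classical
  have hP0 : ∏ i, P i ≠ 0 := Finset.prod_ne_zero_iff.2 (fun i _ => hP i)
  have hdeg : (∏ i, P i).natDegree ≤ (m + 2) * D := by
    refine (natDegree_prod_le _ _).trans ?_
    refine (Finset.sum_le_sum fun i _ => hPD i).trans ?_
    simp
  obtain ⟨c, hc⟩ : ∃ c : k, (∏ i, P i).eval c ≠ 0 := by
    by_contra hcon
    push Not at hcon
    have h1 : Fintype.card k ≤ (∏ i, P i).roots.toFinset.card := by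
      rw [← Finset.card_univ]
      apply Finset.card_le_card
      intro x _
      rw [Multiset.mem_toFinset, mem_roots hP0]
      exact hcon x
    have h2 := (Multiset.toFinset_card_le (∏ i, P i).roots).trans (card_roots' (∏ i, P i))
    omega
  have hci : ∀ i, (P i).eval c ≠ 0 := by
    intro i h
    apply hc
    rw [eval_prod]
    exact Finset.prod_eq_zero (Finset.mem_univ i) h
  have h1 := fun i => move_poly c (P i) (hci i)
  choose P' hP'0 hP'd hP' using h1
  have hX : algebraMap k[X] (RatFunc k) X ≠ 0 := RatFunc.algebraMap_ne_zero X_ne_zero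
  set Q' : MultilinearMap ℤ (fun _ : Fin (m + 1) => UV (RatFunc k)) (UV (RatFunc k) →ₗ[ℤ] ℚ) :=
    (LinearMap.lcomp ℤ ℚ (clMap (sgm c))).compMultilinearMap
      (Q.compLinearMap (fun _ => clMap (sgm c))) with hQ'
  have hQ'a : ∀ (s : Fin (m + 1) → UV (RatFunc k)) v,
      Q' s v = Q (fun i => clMap (sgm c) (s i)) (clMap (sgm c) v) :=
    fun s v => rfl
  have h2 := step2 p hFT hq Q' (by
    intro f hf0 hf1
    rw [hQ'a, clMap_cl, clMap_cl, map_sub, map_one]
    apply hQ
    · rw [Ne, map_eq_zero]; exact hf0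
    · intro h
      exact hf1 ((sgm c).injective (by rw [h, map_one]))) P' (fun i => X ^ (P i).natDegree) hP'0
    (fun i => pow_ne_zero _ X_ne_zero) (fun i => by rw [hP'd]; exact hPD i)
    (fun i => by rw [hP'd, natDegree_X_pow])
  rw [PS_apply] at h2 ⊢
  rw [← h2]
  apply Finset.sum_congr rfl
  intro σ _
  rw [P1_apply, P1_apply, hQ'a]
  have h3 : ∀ i, cl (algebraMap k[X] (RatFunc k) (P i)) = clMap (sgm c)
      (cl (algebraMap k[X] (RatFunc k) (P' i)) -
        cl (algebraMap k[X] (RatFunc k) (X ^ (P i).natDegree))) := by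
    intro i
    rw [map_pow, cl_pow hX]
    exact hP' i
  have h4 : (fun i => cl (algebraMap k[X] (RatFunc k) (P i))) = fun i => clMap (sgm c)
      (cl (algebraMap k[X] (RatFunc k) (P' i)) -
        cl (algebraMap k[X] (RatFunc k) (X ^ (P i).natDegree))) := funext h3
  rw [h4]
  rfl

end

end TsdL

open Polynomial H39Gon H39Gon.TaskB Module SpdL TsdL in
/-- [TSD] -/
theorem tsd : S_TSD := by
  classical
  intro m D
  obtain ⟨q0, hq0⟩ := FT_allD m D.factorial (Nat.factorial_pos D)
  refine ⟨max q0 ((m + 2) * D + 1), ?_⟩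
  intro k _ _ hcard Q hQ f g hf hg
  have hk : ConstTors k := constTors
  obtain ⟨p, hp⟩ := CharP.exists k
  have hpp : Fact p.Prime := ⟨(CharP.char_is_prime_or_zero k p).resolve_right (by
    intro h
    subst h
    have := CharP.charP_to_charZero k
    exact not_finite k)⟩
  have hq1 : q0 ≤ Fintype.card k := (le_max_left _ _).trans hcard
  have hq2 : (m + 2) * D < Fintype.card k :=
    lt_of_lt_of_le (Nat.lt_succ_self _) ((le_max_right _ _).trans hcard)
  set S : Set (UV (RatFunc k)) := {v | Tors v ∨ ∃ P : k[X], P ≠ 0 ∧ P.natDegree ≤ D ∧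
    v = cl (algebraMap k[X] (RatFunc k) P)} with hS
  have hpoly : ∀ P : k[X], P ≠ 0 → (∀ R : k[X], Irreducible R → R ∣ P → R.natDegree ≤ D) →
      cl (algebraMap k[X] (RatFunc k) P) ∈ Submodule.span ℤ S := by
    intro P
    induction P using WfDvdMonoid.induction_on_irreducible with
    | zero => intro h; exact absurd rfl h
    | unit u hu =>
      intro _ _
      obtain ⟨c, hc, rfl⟩ := Polynomial.isUnit_iff.1 hu
      apply Submodule.subset_span
      left
      rw [RatFunc.algebraMap_C]
      exact tors_C hk _ hc.ne_zero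
    | mul a i ha hi ih =>
      intro _ h
      have h1 := ih ha (fun R hR hRa => h R hR (hRa.mul_left i))
      rw [map_mul, cl_mul (RatFunc.algebraMap_ne_zero hi.ne_zero) (RatFunc.algebraMap_ne_zero ha)]
      refine Submodule.add_mem _ (Submodule.subset_span ?_) h1
      right
      exact ⟨i, hi.ne_zero, h i hi (dvd_mul_right i a), rfl⟩
  have hPL : ∀ f : RatFunc k, PL D f → cl f ∈ Submodule.span ℤ S := by
    intro f hf
    have h3 : cl f = cl (algebraMap k[X] (RatFunc k) f.num)
        - cl (algebraMap k[X] (RatFunc k) f.denom) := by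
      rw [← cl_div (RatFunc.algebraMap_ne_zero (RatFunc.num_ne_zero hf.1))
        (RatFunc.algebraMap_ne_zero (RatFunc.denom_ne_zero f)), RatFunc.num_div_denom]
    rw [h3]
    exact Submodule.sub_mem _ (hpoly _ (RatFunc.num_ne_zero hf.1)
      (fun R hR h => hf.2 R hR (Or.inl h))) (hpoly _ (RatFunc.denom_ne_zero f)
      (fun R hR h => hf.2 R hR (Or.inr h)))
  have hPS : ∀ w : Fin (m + 2) → UV (RatFunc k), (∀ i, w i ∈ S) → PS Q w = 0 := by
    intro w hw
    by_cases h : ∃ i, Tors (w i)
    · obtain ⟨i, hi⟩ := h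
      exact map_zero_of_tors (PS Q) w i hi
    · push Not at h
      have h1 : ∀ i, ∃ P : k[X], P ≠ 0 ∧ P.natDegree ≤ D ∧
          w i = cl (algebraMap k[X] (RatFunc k) P) := fun i => (hw i).resolve_left (h i)
      choose P hP0 hPD hPw using h1
      have h2 : w = fun i => cl (algebraMap k[X] (RatFunc k) (P i)) := funext hPw
      rw [h2]
      exact step3 p hq0 hq1 hq2 Q hQ P hP0 hPD
  have h5 := ml_span (PS Q) S hPS (Fin.cons (cl g) (fun _ => cl f) : Fin (m + 2) → _) (by
    intro i
    induction i using Fin.cases with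
    | zero => exact hPL g hg
    | succ i => exact hPL f hf)
  obtain ⟨c, hc0, hc⟩ := PS_diag Q (cl f) (cl g)
  rw [hc] at h5
  exact_mod_cast (mul_eq_zero.1 h5).resolve_left hc0

end Pool.Agent.Helper70K9.GC
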