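import Pool.Agent.Helper70K9.GC.Asm
import Pool.Agent.Helper70K9.GC.Su
import Pool.Agent.Helper70K9.GC.Tsd

/-!
# The duality statement for `S`-units, `S` the set of the closed points of degree dividing `D`
-/

set_option autoImplicit false

namespace Pool.Agent.Helper70K9.GC

namespace SdL

open Polynomial H39Gon H39Gon.TaskB Module SpdL TsdL

section

variable {k : Type} [Field k]

theorem decompS {K E : Type} [Field K] [Fintype K] [Field E] [Fintype E] [DecidableEq E]
    [Algebra K E] (hk : ConstTors k) (ι : K →+* k) (D : ℕ) (hD : finrank K E = D)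
    (P : K[X]) (hP : P ≠ 0) (hdeg : SP D P) :
    ∃ g : E → ℤ, ∑ a, g a = P.natDegree ∧
      Tors (D • cl (pq ι P) - ∑ a, g a • cl (pq ι (nm K a))) := by
  induction P using WfDvdMonoid.induction_on_irreducible with
  | zero => exact absurd rfl hP
  | unit u hu =>
    obtain ⟨c, hc, rfl⟩ := Polynomial.isUnit_iff.1 hu
    refine ⟨fun _ => 0, by simp, ?_⟩
    simp only [zero_smul, Finset.sum_const_zero, sub_zero]
    rw [pq_C]
    exact (tors_C hk _ (by rw [Ne, map_eq_zero]; exact hc.ne_zero)).nsmul D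
  | mul a i ha hi ih =>
    have hi0 : i ≠ 0 := hi.ne_zero
    have hdg : (i * a).natDegree = i.natDegree + a.natDegree := natDegree_mul hi0 ha
    obtain ⟨g, hg, hgt⟩ := ih ha (hdeg.dvd (dvd_mul_left a i))
    have hid : i.natDegree ∣ D := hdeg i hi (dvd_mul_right i a)
    obtain ⟨z, hz⟩ := exists_root (K := K) (E := E) i hi (by rw [hD]; exact hid)
    have hfd : FiniteDimensional K E := Module.Finite.of_finite
    have hmp : i * C i.leadingCoeff⁻¹ = minpoly K z := minpoly.eq_of_irreducible hi hz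
    have hlc : i.leadingCoeff ≠ 0 := leadingCoeff_ne_zero.2 hi0
    have hnd : (minpoly K z).natDegree = i.natDegree := by
      rw [← hmp, natDegree_mul_C (inv_ne_zero hlc)]
    have hm0 : minpoly K z ≠ 0 := minpoly.ne_zero (IsIntegral.of_finite K z)
    have hii : i = minpoly K z * C i.leadingCoeff := by
      rw [← hmp, mul_assoc, ← C_mul, inv_mul_cancel₀ hlc, C_1, mul_one]
    refine ⟨fun w => (if w = z then (i.natDegree : ℤ) else 0) + g w, ?_, ?_⟩
    · rw [Finset.sum_add_distrib, hg, hdg]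
      simp
    · have h1 : Tors (D • cl (pq ι i) - (i.natDegree : ℤ) • cl (pq ι (nm K z))) := by
        refine alg1 D i.natDegree (D / i.natDegree) (Nat.mul_div_cancel' hid) _
          (cl (pq ι (minpoly K z))) _ ?_ ?_
        · unfold nm
          rw [hD, hnd, pq_pow, cl_pow (pq_ne_zero ι hm0)]
        · have h2 : cl (pq ι i) - cl (pq ι (minpoly K z)) = cl (RatFunc.C (ι i.leadingCoeff)) := by
            have hC0 : RatFunc.C (ι i.leadingCoeff) ≠ 0 := by
              rw [Ne, map_eq_zero, map_eq_zero]; exact hlc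
            conv_lhs => rw [hii]
            rw [pq_mul, pq_C, cl_mul (pq_ne_zero ι hm0) hC0, add_sub_cancel_left]
          rw [h2]
          exact tors_C hk _ (by rw [Ne, map_eq_zero]; exact hlc)
      have h3 : ∑ w : E, ((if w = z then (i.natDegree : ℤ) else 0) + g w) • cl (pq ι (nm K w))
          = (i.natDegree : ℤ) • cl (pq ι (nm K z)) + ∑ w, g w • cl (pq ι (nm K w)) := by
        rw [← sum_single_smul z (i.natDegree : ℤ) (fun w => cl (pq ι (nm K w))),
          ← Finset.sum_add_distrib]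
        exact Finset.sum_congr rfl fun w _ => add_zsmul _ _ _
      rw [h3, pq_mul, cl_mul (pq_ne_zero ι hi0) (pq_ne_zero ι ha)]
      exact alg2 D _ _ _ _ h1 hgt

theorem coreS {m d : ℕ} (hk : ConstTors k) (K E : Type) [Field K] [Fintype K] [DecidableEq K]
    [Field E] [Fintype E] [DecidableEq E] [Algebra K E] [FiniteDimensional K E]
    (ι : K →+* k)
    (hFT : ∀ Φ : (Fin (m + 2) → E) → ℝ,
      (∀ (t : Fin (m + 2) → E) (i : Fin (m + 2)), ∑ x : E, Φ (Function.update t i x) = 0) →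
      (∀ (σ : Equiv.Perm (Fin (m + 2))) (t : Fin (m + 2) → E), σ 0 = 0 → Φ (t ∘ σ) = Φ t) →
      (∀ (t : Fin (m + 2) → E) (i : Fin (m + 2)) (x : E), minpoly K x = minpoly K (t i) →
        Φ (Function.update t i x) = Φ t) →
      (∀ z : Fin 3 × Fin d → E,
        (∃ l : Fin 3 → Kˣ, ∑ X : Fin 3, C (l X : K) * ∏ i : Fin d, nm K (z (X, i)) = 0) →
        ∑ j : Fin (m + 2) → Fin 3 × Fin d,
          c0 (j 0).1 * (∏ i : Fin (m + 1), c1 (j i.succ).1) * Φ (z ∘ j) = 0) →
      ∀ t, Φ t = 0)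
    (Q : MultilinearMap ℤ (fun _ : Fin (m + 1) => UV (RatFunc k)) (UV (RatFunc k) →ₗ[ℤ] ℚ))
    (U : RatFunc k → Prop)
    (hU : ∀ (z : Fin 3 × Fin d → E) (l : Fin 3 → Kˣ) (X Y : Fin 3),
      U (-(RatFunc.C (ι (l X : K)) * ∏ i, pq ι (nm K (z (X, i)))) /
        (RatFunc.C (ι (l Y : K)) * ∏ i, pq ι (nm K (z (Y, i))))))
    (hQ : ∀ f : RatFunc k, f ≠ 0 → f ≠ 1 → U f → U (1 - f) → Q (fun _ => cl f) (cl (1 - f)) = 0)
    (t : Fin (m + 2) → E) : PS Q (fun i => SpdL.mm (K := K) ι (t i)) = 0 := by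
  have hup : ∀ (t : Fin (m + 2) → E) (i : Fin (m + 2)) (x : E),
      (fun j => SpdL.mm (K := K) ι (Function.update t i x j)) =
        Function.update (fun j => SpdL.mm (K := K) ι (t j)) i (SpdL.mm (K := K) ι x) := by
    intro t i x
    funext j
    by_cases hj : j = i
    · subst hj; simp
    · simp [Function.update_of_ne hj]
  refine hFT (fun t => PS Q (fun i => SpdL.mm (K := K) ι (t i))) ?_ ?_ ?_ ?_ t
  · intro t i
    simp only [hup]
    rw [← MultilinearMap.map_update_sum, SpdL.sum_mm, MultilinearMap.map_update_zero]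
  · intro σ t hσ
    exact PS_symm Q (fun i => SpdL.mm (K := K) ι (t i)) σ hσ
  · intro t i x hx
    simp only [hup]
    have h1 : SpdL.mm (K := K) ι x = SpdL.mm (K := K) ι (t i) := by
      have h2 : nm K x = nm K (t i) := nm_congr hx
      unfold SpdL.mm mV
      simp only [h2]
    rw [h1]
    congr 1
    exact Function.update_eq_self i (fun j => SpdL.mm (K := K) ι (t j))
  · rintro z ⟨l, hl⟩
    set A : Fin 3 → RatFunc k := fun X => RatFunc.C (ι (l X : K)) * ∏ i, pq ι (nm K (z (X, i)))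
      with hA
    have hA0 : ∀ X, A X ≠ 0 := fun X => by
      refine mul_ne_zero ?_
        (Finset.prod_ne_zero_iff.2 (fun i _ => pq_ne_zero ι (nm_ne_zero (z (X, i)))))
      rw [Ne, map_eq_zero, map_eq_zero]
      exact Units.ne_zero _
    have hsum : A 0 + A 1 + A 2 = 0 := by
      have h1 := congrArg ((algebraMap k[X] (RatFunc k)).comp (mapRingHom ι)) hl
      rw [map_sum, map_zero, Fin.sum_univ_three] at h1
      simp only [map_mul, map_prod, RingHom.comp_apply, coe_mapRingHom,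
        Polynomial.map_C, RatFunc.algebraMap_C] at h1
      exact h1
    set f : RatFunc k := -A 0 / A 2 with hf
    have hf0 : f ≠ 0 := div_ne_zero (neg_ne_zero.2 (hA0 0)) (hA0 2)
    have hf1 : 1 - f = - A 1 / A 2 := by
      rw [hf, eq_div_iff (hA0 2), sub_mul, div_mul_cancel₀ _ (hA0 2)]
      linear_combination hsum
    have hf2 : f ≠ 1 := by
      intro h
      rw [h, sub_self] at hf1
      exact (div_ne_zero (neg_ne_zero.2 (hA0 1)) (hA0 2)) hf1.symm
    have hSf : U f := hU z l 0 2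
    have hSf1 : U (1 - f) := by rw [hf1]; exact hU z l 1 2
    have hq := hQ f hf0 hf2 hSf hSf1
    have e1 : PS Q (Fin.cons ((Fintype.card E) • cl (1 - f))
        (fun _ => (Fintype.card E) • cl f) : Fin (m + 2) → UV (RatFunc k)) = 0 := by
      obtain ⟨c, -, hc⟩ := PS_diag Q ((Fintype.card E) • cl f) ((Fintype.card E) • cl (1 - f))
      rw [hc]
      have h2 : Q (fun _ => (Fintype.card E) • cl f) =
          (∏ _i : Fin (m + 1), (Fintype.card E : ℤ)) • Q (fun _ => cl f) := by
        rw [← MultilinearMap.map_smul_univ]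
        simp
      rw [h2, LinearMap.smul_apply, map_nsmul, hq]
      simp
    set G : Fin (m + 2) → (Fin 3 × Fin d → ℤ) :=
      Fin.cons (fun s => c0z s.1) (fun _ s => c1z s.1) with hG
    have e2 : PS Q (Fin.cons ((Fintype.card E) • cl (1 - f))
        (fun _ => (Fintype.card E) • cl f) : Fin (m + 2) → UV (RatFunc k)) =
        PS Q (fun i => ∑ s, G i s • SpdL.mm (K := K) ι (z s)) := by
      apply map_eq_of_tors
      intro i
      induction i using Fin.cases with
      | zero =>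
        simp only [Fin.cons_zero, hG]
        rw [sum_c0z, hf1]
        exact SpdL.tors_aux hk ι z l 1 2
      | succ j =>
        simp only [Fin.cons_succ, hG]
        rw [sum_c1z, hf]
        exact SpdL.tors_aux hk ι z l 0 2
    rw [e2, map_lincomb] at e1
    rw [← e1]
    apply Finset.sum_congr rfl
    intro r _
    rw [Fin.prod_univ_succ (fun i => (G i (r i) : ℝ))]
    simp only [hG, Fin.cons_zero, Fin.cons_succ, c0z_cast, c1z_cast]
    rfl


theorem hU_id {E : Type} [Field E] [Algebra k E] [FiniteDimensional k E] {d D : ℕ}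
    (hD : finrank k E = D) (z : Fin 3 × Fin d → E) (l : Fin 3 → kˣ) (x y : Fin 3) :
    SU D (-(RatFunc.C (RingHom.id k (l x : k)) * ∏ i, pq (RingHom.id k) (nm k (z (x, i)))) /
        (RatFunc.C (RingHom.id k (l y : k)) * ∏ i, pq (RingHom.id k) (nm k (z (y, i))))) := by
  have h : ∀ x, SU D (RatFunc.C (RingHom.id k (l x : k)) *
      ∏ i, pq (RingHom.id k) (nm k (z (x, i)))) := by
    intro x
    have h1 : SU D (RatFunc.C (RingHom.id k (l x : k))) := by
      have h2 : SU D (algebraMap k[X] (RatFunc k) (C (l x : k))) :=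
        SU.alg (C_ne_zero.2 (Units.ne_zero _)) (SP.C (Units.ne_zero _))
      rw [RatFunc.algebraMap_C] at h2
      exact h2
    have h3 : SU D (∏ i, pq (RingHom.id k) (nm k (z (x, i)))) := by
      have h2 : SU D (algebraMap k[X] (RatFunc k) (∏ i, nm k (z (x, i)))) :=
        SU.alg (Finset.prod_ne_zero_iff.2 fun i _ => nm_ne_zero _)
          (SP.prod _ _ fun i _ => SP_nm hD _)
      rw [map_prod] at h2
      have h4 : ∀ P : k[X], pq (RingHom.id k) P = algebraMap k[X] (RatFunc k) P := by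
        intro P; unfold pq; rw [Polynomial.map_id]
      simp only [h4]
      exact h2
    exact h1.mul h3
  exact (h x).neg.div (h y)

theorem move_polyS {D : ℕ} (c : k) (P : k[X]) (hS : SP D P) (hP : P.eval c ≠ 0) :
    ∃ P' : k[X], P' ≠ 0 ∧ SP D P' ∧ P'.natDegree = P.natDegree ∧
      cl (algebraMap k[X] (RatFunc k) P) = clMap (sgm c)
        (cl (algebraMap k[X] (RatFunc k) P') - P.natDegree • cl (algebraMap k[X] (RatFunc k) X)) := by
  have hP0 : P ≠ 0 := by rintro rfl; simp at hP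
  set P1 : k[X] := P.comp (X + C c) with hP1
  have h0 : P1.coeff 0 ≠ 0 := by
    rw [coeff_zero_eq_eval_zero, hP1, eval_comp]
    simpa using hP
  have hP10 : P1 ≠ 0 := by
    intro h
    rw [h] at h0
    simp at h0
  have hdeg : P1.natDegree = P.natDegree := by
    rw [hP1, natDegree_comp, natDegree_X_add_C, mul_one]
  have hrev0 : P1.reverse ≠ 0 := fun h => hP10 (reverse_eq_zero.1 h)
  have hrevdeg : P1.reverse.natDegree = P.natDegree := by
    rw [reverse_natDegree, natTrailingDegree_eq_zero_of_constantCoeff_ne_zero (by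
      rwa [constantCoeff_apply]), Nat.sub_zero, hdeg]
  have hSr : SP D P1.reverse := by
    have h1 := SP_reverse hP10 (SP_comp hP0 hS c) 0
    rwa [C_0, sub_zero, comp_X] at h1
  refine ⟨P1.reverse, hrev0, hSr, hrevdeg, ?_⟩
  have hX : algebraMap k[X] (RatFunc k) X ≠ 0 := RatFunc.algebraMap_ne_zero X_ne_zero
  have hR : algebraMap k[X] (RatFunc k) P1.reverse ≠ 0 := RatFunc.algebraMap_ne_zero hrev0
  rw [← cl_pow hX, ← cl_div hR (pow_ne_zero _ hX), clMap_cl]
  congr 1
  rw [map_div₀, map_pow, sgm_alg, sgm_alg, eval₂_X, inv_pow, div_inv_eq_mul]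
  let _ : Invertible (xx c) := invertibleOfNonzero (xx_ne_zero c)
  have h1 := eval₂_reverse_mul_pow (RatFunc.C (K := k)) (xx c) P1
  rw [invOf_eq_inv, hdeg] at h1
  rw [h1, hP1, eval₂_comp]
  have h2 : eval₂ (RatFunc.C (K := k)) (xx c) (X + C c) = RatFunc.X := by
    rw [eval₂_add, eval₂_X, eval₂_C]
    unfold xx
    ring
  rw [h2, ← RatFunc.algebraMap_X]
  have h3 := hom_eval₂ P (C : k →+* k[X]) (algebraMap k[X] (RatFunc k)) X
  rw [eval₂_C_X] at h3
  rw [h3]
  congr 1

/-- (2): degree zero -/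
theorem step2S [Fintype k] (p : ℕ) [Fact p.Prime] [CharP k p] {m D q0 : ℕ} (hDpos : 0 < D)
    (hFT : ∀ (K E : Type) [Field K] [Fintype K] [DecidableEq K] [Field E] [Fintype E]
    [DecidableEq E] [Algebra K E], finrank K E = D → q0 ≤ Fintype.card K →
    ∀ Φ : (Fin (m + 2) → E) → ℝ,
      (∀ (t : Fin (m + 2) → E) (i : Fin (m + 2)), ∑ x : E, Φ (Function.update t i x) = 0) →
      (∀ (σ : Equiv.Perm (Fin (m + 2))) (t : Fin (m + 2) → E), σ 0 = 0 → Φ (t ∘ σ) = Φ t) →
      (∀ (t : Fin (m + 2) → E) (i : Fin (m + 2)) (x : E), minpoly K x = minpoly K (t i) →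
        Φ (Function.update t i x) = Φ t) →
      (∀ z : Fin 3 × Fin (6 * (m + 2)) → E,
        (∃ l : Fin 3 → Kˣ, ∑ X : Fin 3, C (l X : K) *
          ∏ i : Fin (6 * (m + 2)), nm K (z (X, i)) = 0) →
        ∑ j : Fin (m + 2) → Fin 3 × Fin (6 * (m + 2)),
          c0 (j 0).1 * (∏ i : Fin (m + 1), c1 (j i.succ).1) * Φ (z ∘ j) = 0) →
      ∀ t, Φ t = 0)
    (hq : q0 ≤ Fintype.card k)
    (Q : MultilinearMap ℤ (fun _ : Fin (m + 1) => UV (RatFunc k)) (UV (RatFunc k) →ₗ[ℤ] ℚ))
    (hQ : ∀ f : RatFunc k, f ≠ 0 → f ≠ 1 → SU D f → SU D (1 - f) →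
      Q (fun _ => cl f) (cl (1 - f)) = 0)
    (A B : Fin (m + 2) → k[X]) (hA : ∀ i, A i ≠ 0) (hB : ∀ i, B i ≠ 0)
    (hAD : ∀ i, SP D (A i)) (hBD : ∀ i, SP D (B i))
    (hAB : ∀ i, (A i).natDegree = (B i).natDegree) :
    PS Q (fun i => cl (algebraMap k[X] (RatFunc k) (A i)) -
      cl (algebraMap k[X] (RatFunc k) (B i))) = 0 := by
  classical
  have hk : ConstTors k := constTors
  have : NeZero D := ⟨hDpos.ne'⟩
  let E : Type := FiniteField.Extension k p D
  let _ : Fintype E := Fintype.ofFinite E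
  have hE : finrank k E = D := FiniteField.finrank_extension k p D
  have hid : ∀ P : k[X], pq (RingHom.id k) P = algebraMap k[X] (RatFunc k) P := by
    intro P; unfold pq; rw [Polynomial.map_id]
  have h1 : ∀ i, ∃ g : E → ℤ, ∑ a, g a = 0 ∧
      Tors (D • (cl (algebraMap k[X] (RatFunc k) (A i)) -
      cl (algebraMap k[X] (RatFunc k) (B i))) -
        ∑ a, g a • cl (pq (RingHom.id k) (nm k a))) := by
    intro i
    obtain ⟨gA, hgA, hgAt⟩ := decompS (E := E) hk (RingHom.id k) D hE (A i) (hA i)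
      (hAD i)
    obtain ⟨gB, hgB, hgBt⟩ := decompS (E := E) hk (RingHom.id k) D hE (B i) (hB i)
      (hBD i)
    refine ⟨fun a => gA a - gB a, ?_, ?_⟩
    · rw [Finset.sum_sub_distrib, hgA, hgB, hAB i, sub_self]
    · have e1 := alg3 D _ _ _ _ hgAt hgBt
      rw [← Finset.sum_sub_distrib, hid, hid] at e1
      simp only [← sub_smul] at e1
      exact e1
  choose g hg0 hgt using h1
  set N : ℕ := D * Fintype.card E with hN
  have hNpos : 0 < N := Nat.mul_pos hDpos Fintype.card_pos
  set w : Fin (m + 2) → UV (RatFunc k) := fun i => cl (algebraMap k[X] (RatFunc k) (A i)) -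
      cl (algebraMap k[X] (RatFunc k) (B i)) with hw
  have e1 : PS Q (fun i => N • w i) = PS Q (fun i => ∑ a, g i a • SpdL.mm (K := k) (RingHom.id k) a) := by
    apply map_eq_of_tors
    intro i
    have h2 := smul_mV (fun b : E => cl (pq (RingHom.id k) (nm k b))) (g i) (hg0 i)
    have h3 : ∑ a, g i a • SpdL.mm (K := k) (RingHom.id k) a =
        (Fintype.card E) • ∑ a, g i a • cl (pq (RingHom.id k) (nm k a)) := h2.symm
    rw [h3, hN]
    exact alg5 _ _ _ _ (hgt i)
  have e2 : PS Q (fun i => ∑ a, g i a • SpdL.mm (K := k) (RingHom.id k) a) = 0 := by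
    rw [map_lincomb]
    apply Finset.sum_eq_zero
    intro r _
    rw [coreS hk k E (RingHom.id k) (hFT k E hE hq) Q (SU D) (hU_id hE) hQ r, mul_zero]
  rw [e2] at e1
  have e3 : PS Q (fun i => N • w i) = (∏ _i : Fin (m + 2), (N : ℤ)) • PS Q w := by
    rw [← MultilinearMap.map_smul_univ]
    simp
  rw [e3] at e1
  rcases smul_eq_zero.1 e1 with h4 | h4
  · exact absurd h4 (Finset.prod_ne_zero_iff.2 (fun _ _ => by exact_mod_cast hNpos.ne'))
  · exact h4

/-- (3): all polynomials of degree `≤ D` -/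
theorem step3S [Fintype k] (p : ℕ) [Fact p.Prime] [CharP k p] {m D q0 : ℕ} (hDpos : 0 < D)
    (hFT : ∀ (K E : Type) [Field K] [Fintype K] [DecidableEq K] [Field E] [Fintype E]
    [DecidableEq E] [Algebra K E], finrank K E = D → q0 ≤ Fintype.card K →
    ∀ Φ : (Fin (m + 2) → E) → ℝ,
      (∀ (t : Fin (m + 2) → E) (i : Fin (m + 2)), ∑ x : E, Φ (Function.update t i x) = 0) →
      (∀ (σ : Equiv.Perm (Fin (m + 2))) (t : Fin (m + 2) → E), σ 0 = 0 → Φ (t ∘ σ) = Φ t) →
      (∀ (t : Fin (m + 2) → E) (i : Fin (m + 2)) (x : E), minpoly K x = minpoly K (t i) →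
        Φ (Function.update t i x) = Φ t) →
      (∀ z : Fin 3 × Fin (6 * (m + 2)) → E,
        (∃ l : Fin 3 → Kˣ, ∑ X : Fin 3, C (l X : K) *
          ∏ i : Fin (6 * (m + 2)), nm K (z (X, i)) = 0) →
        ∑ j : Fin (m + 2) → Fin 3 × Fin (6 * (m + 2)),
          c0 (j 0).1 * (∏ i : Fin (m + 1), c1 (j i.succ).1) * Φ (z ∘ j) = 0) →
      ∀ t, Φ t = 0)
    (hq : q0 ≤ Fintype.card k) (hq2 : (m + 2) * D < Fintype.card k)
    (Q : MultilinearMap ℤ (fun _ : Fin (m + 1) => UV (RatFunc k)) (UV (RatFunc k) →ₗ[ℤ] ℚ))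
    (hQ : ∀ f : RatFunc k, f ≠ 0 → f ≠ 1 → SU D f → SU D (1 - f) →
      Q (fun _ => cl f) (cl (1 - f)) = 0)
    (P : Fin (m + 2) → k[X]) (hP : ∀ i, P i ≠ 0) (hPD : ∀ i, (P i).natDegree ≤ D)
    (hPS : ∀ i, SP D (P i)) :
    PS Q (fun i => cl (algebraMap k[X] (RatFunc k) (P i))) = 0 := by
  classical
  have hP0 : ∏ i, P i ≠ 0 := Finset.prod_ne_zero_iff.2 (fun i _ => hP i)
  have hdeg : (∏ i, P i).natDegree ≤ (m + 2) * D := by
    refine (natDegree_prod_le _ _).trans ?_
    refine (Finset.sum_le_sum fun i _ => hPD i).trans ?_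
    simp
  obtain ⟨c, hc⟩ : ∃ c : k, (∏ i, P i).eval c ≠ 0 := by
    by_contra hcon
    push Not at hcon
    have h1 : Fintype.card k ≤ (∏ i, P i).roots.toFinset.card := by
      rw [← Finset.card_univ]
      apply Finset.card_le_card
      intro x _
      rw [Multiset.mem_toFinset, mem_roots hP0]
      exact hcon x
    have h2 := (Multiset.toFinset_card_le (∏ i, P i).roots).trans (card_roots' (∏ i, P i))
    omega
  have hci : ∀ i, (P i).eval c ≠ 0 := by
    intro i h
    apply hc
    rw [eval_prod]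
    exact Finset.prod_eq_zero (Finset.mem_univ i) h
  have h1 := fun i => move_polyS (D := D) c (P i) (hPS i) (hci i)
  choose P' hP'0 hP'S hP'd hP' using h1
  have hX : algebraMap k[X] (RatFunc k) X ≠ 0 := RatFunc.algebraMap_ne_zero X_ne_zero
  set Q' : MultilinearMap ℤ (fun _ : Fin (m + 1) => UV (RatFunc k)) (UV (RatFunc k) →ₗ[ℤ] ℚ) :=
    (LinearMap.lcomp ℤ ℚ (clMap (sgm c))).compMultilinearMap
      (Q.compLinearMap (fun _ => clMap (sgm c))) with hQ'
  have hQ'a : ∀ (s : Fin (m + 1) → UV (RatFunc k)) v,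
      Q' s v = Q (fun i => clMap (sgm c) (s i)) (clMap (sgm c) v) :=
    fun s v => rfl
  have h2 := step2S p hDpos hFT hq Q' (by
    intro f hf0 hf1 hS1 hS2
    rw [hQ'a, clMap_cl, clMap_cl, map_sub, map_one]
    apply hQ
    · rw [Ne, map_eq_zero]; exact hf0
    · intro h
      exact hf1 ((sgm c).injective (by rw [h, map_one]))
    · exact SU_sgm hS1 c
    · have h5 := SU_sgm hS2 c
      rwa [map_sub, map_one] at h5) P' (fun i => X ^ (P i).natDegree) hP'0
    (fun i => pow_ne_zero _ X_ne_zero) hP'S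
    (fun i => (SP.deg_one X_ne_zero natDegree_X_le).pow _)
    (fun i => by rw [hP'd, natDegree_X_pow])
  rw [PS_apply] at h2 ⊢
  rw [← h2]
  apply Finset.sum_congr rfl
  intro σ _
  rw [P1_apply, P1_apply, hQ'a]
  have h3 : ∀ i, cl (algebraMap k[X] (RatFunc k) (P i)) = clMap (sgm c)
      (cl (algebraMap k[X] (RatFunc k) (P' i)) -
        cl (algebraMap k[X] (RatFunc k) (X ^ (P i).natDegree))) := by
    intro i
    rw [map_pow, cl_pow hX]
    exact hP' i
  have h4 : (fun i => cl (algebraMap k[X] (RatFunc k) (P i))) = fun i => clMap (sgm c)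
      (cl (algebraMap k[X] (RatFunc k) (P' i)) -
        cl (algebraMap k[X] (RatFunc k) (X ^ (P i).natDegree))) := funext h3
  rw [h4]
  rfl


end

end SdL

/-- the duality statement on the group of `S`-units, `S` the set of the closed points of degree
dividing `D`. -/
def S_SDU : Prop := ∀ m D : ℕ, 0 < D → ∃ q0 : ℕ, ∀ (k : Type) [Field k] [Fintype k],
  q0 ≤ Fintype.card k →
    ∀ Q : MultilinearMap ℤ (fun _ : Fin (m + 1) => H39Gon.UV (RatFunc k))
        (H39Gon.UV (RatFunc k) →ₗ[ℤ] ℚ),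
      (∀ f : RatFunc k, f ≠ 0 → f ≠ 1 → SU D f → SU D (1 - f) →
        Q (fun _ => H39Gon.cl f) (H39Gon.cl (1 - f)) = 0) →
      ∀ f g : RatFunc k, SU D f → SU D g → Q (fun _ => H39Gon.cl f) (H39Gon.cl g) = 0

open Polynomial H39Gon H39Gon.TaskB Module SpdL SdL TsdL in
theorem sdu : S_SDU := by
  classical
  intro m D hDpos
  obtain ⟨q0, hq0⟩ := FT_allD m D hDpos
  refine ⟨max q0 ((m + 2) * D + 1), ?_⟩
  intro k _ _ hcard Q hQ f g hf hg
  have hk : ConstTors k := constTors
  obtain ⟨p, hp⟩ := CharP.exists k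
  have hpp : Fact p.Prime := ⟨(CharP.char_is_prime_or_zero k p).resolve_right (by
    intro h
    subst h
    have := CharP.charP_to_charZero k
    exact not_finite k)⟩
  have hq1 : q0 ≤ Fintype.card k := (le_max_left _ _).trans hcard
  have hq2 : (m + 2) * D < Fintype.card k :=
    lt_of_lt_of_le (Nat.lt_succ_self _) ((le_max_right _ _).trans hcard)
  set S : Set (UV (RatFunc k)) := {v | Tors v ∨ ∃ P : k[X], P ≠ 0 ∧ P.natDegree ≤ D ∧ SP D P ∧
    v = cl (algebraMap k[X] (RatFunc k) P)} with hS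
  have hpoly : ∀ P : k[X], P ≠ 0 → SP D P →
      cl (algebraMap k[X] (RatFunc k) P) ∈ Submodule.span ℤ S := by
    intro P
    induction P using WfDvdMonoid.induction_on_irreducible with
    | zero => intro h; exact absurd rfl h
    | unit u hu =>
      intro _ _
      obtain ⟨c, hc, rfl⟩ := Polynomial.isUnit_iff.1 hu
      apply Submodule.subset_span
      left
      rw [RatFunc.algebraMap_C]
      exact tors_C hk _ hc.ne_zero
    | mul a i ha hi ih =>
      intro _ h
      have h1 := ih ha (h.dvd (dvd_mul_left a i))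
      rw [map_mul, cl_mul (RatFunc.algebraMap_ne_zero hi.ne_zero) (RatFunc.algebraMap_ne_zero ha)]
      refine Submodule.add_mem _ (Submodule.subset_span ?_) h1
      right
      have h2 := h i hi (dvd_mul_right i a)
      exact ⟨i, hi.ne_zero, Nat.le_of_dvd hDpos h2, h.dvd (dvd_mul_right i a), rfl⟩
  have hPL : ∀ f : RatFunc k, SU D f → cl f ∈ Submodule.span ℤ S := by
    intro f hf
    have hf' := SU_iff.1 hf
    have h3 : cl f = cl (algebraMap k[X] (RatFunc k) f.num)
        - cl (algebraMap k[X] (RatFunc k) f.denom) := by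
      rw [← cl_div (RatFunc.algebraMap_ne_zero (RatFunc.num_ne_zero hf.1))
        (RatFunc.algebraMap_ne_zero (RatFunc.denom_ne_zero f)), RatFunc.num_div_denom]
    rw [h3]
    exact Submodule.sub_mem _ (hpoly _ (RatFunc.num_ne_zero hf.1) hf'.2.1)
      (hpoly _ (RatFunc.denom_ne_zero f) hf'.2.2)
  have hPS : ∀ w : Fin (m + 2) → UV (RatFunc k), (∀ i, w i ∈ S) → PS Q w = 0 := by
    intro w hw
    by_cases h : ∃ i, Tors (w i)
    · obtain ⟨i, hi⟩ := h
      exact map_zero_of_tors (PS Q) w i hi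
    · push Not at h
      have h1 : ∀ i, ∃ P : k[X], P ≠ 0 ∧ P.natDegree ≤ D ∧ SP D P ∧
          w i = cl (algebraMap k[X] (RatFunc k) P) := fun i => (hw i).resolve_left (h i)
      choose P hP0 hPD hPS hPw using h1
      have h2 : w = fun i => cl (algebraMap k[X] (RatFunc k) (P i)) := funext hPw
      rw [h2]
      exact step3S p hDpos hq0 hq1 hq2 Q hQ P hP0 hPD hPS
  have h5 := ml_span (PS Q) S hPS (Fin.cons (cl g) (fun _ => cl f) : Fin (m + 2) → _) (by
    intro i
    induction i using Fin.cases with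
    | zero => exact hPL g hg
    | succ i => exact hPL f hf)
  obtain ⟨c, hc0, hc⟩ := PS_diag Q (cl f) (cl g)
  rw [hc] at h5
  exact_mod_cast (mul_eq_zero.1 h5).resolve_left hc0

end Pool.Agent.Helper70K9.GC
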