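import Pool.Agent.Helper70K9.GC.Sd
import Pool.Agent.Helper70K9.GC.FtU

/-!
# The duality statement for `S`-units, with a bound polynomial in `D`
-/

set_option autoImplicit false

namespace Pool.Agent.Helper70K9.GC

open Polynomial H39Gon H39Gon.TaskB Module SpdL SdL TsdL in
/-- the duality statement for `S`-units, `S` the set of the closed points of degree dividing `D`,
for all finite fields with at least `C D^C` elements. -/
theorem sduU (m : ℕ) : ∃ C : ℕ, ∀ D : ℕ, 0 < D → ∀ (k : Type) [Field k] [Fintype k],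
    C * D ^ C ≤ Fintype.card k →
    ∀ Q : MultilinearMap ℤ (fun _ : Fin (m + 1) => H39Gon.UV (RatFunc k))
        (H39Gon.UV (RatFunc k) →ₗ[ℤ] ℚ),
      (∀ f : RatFunc k, f ≠ 0 → f ≠ 1 → SU D f → SU D (1 - f) →
        Q (fun _ => H39Gon.cl f) (H39Gon.cl (1 - f)) = 0) →
      ∀ f g : RatFunc k, SU D f → SU D g → Q (fun _ => H39Gon.cl f) (H39Gon.cl g) = 0 := by
  classical
  obtain ⟨C1, hC1⟩ := FtU.ftU m
  refine ⟨C1 + (m + 3), ?_⟩
  intro D hDpos k _ _ hcard Q hQ f g hf hg
  have hk : ConstTors k := constTors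
  obtain ⟨p, hp⟩ := CharP.exists k
  have hpp : Fact p.Prime := ⟨(CharP.char_is_prime_or_zero k p).resolve_right (by
    intro h
    subst h
    have := CharP.charP_to_charZero k
    exact not_finite k)⟩
  have hpow : C1 * D ^ C1 ≤ (C1 + (m + 3)) * D ^ (C1 + (m + 3)) :=
    Nat.mul_le_mul (by omega) (Nat.pow_le_pow_right hDpos (by omega))
  have hq1 : C1 * D ^ C1 ≤ Fintype.card k := hpow.trans hcard
  have hq2 : (m + 2) * D < Fintype.card k := by
    refine lt_of_lt_of_le ?_ hcard
    have h1 : D ≤ D ^ (C1 + (m + 3)) := Nat.le_self_pow (by omega) D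
    calc (m + 2) * D < (C1 + (m + 3)) * D := Nat.mul_lt_mul_of_pos_right (by omega) hDpos
      _ ≤ (C1 + (m + 3)) * D ^ (C1 + (m + 3)) := Nat.mul_le_mul_left _ h1
  have hq0 : ∀ (K E : Type) [Field K] [Fintype K] [DecidableEq K] [Field E] [Fintype E]
      [DecidableEq E] [Algebra K E], finrank K E = D → C1 * D ^ C1 ≤ Fintype.card K →
      FtU.FTc m (6 * (m + 2)) K E := fun K E _ _ _ _ _ _ _ h1 h2 => hC1 D hDpos K E h1 h2
  set S : Set (UV (RatFunc k)) := {v | Tors v ∨ ∃ P : k[X], P ≠ 0 ∧ P.natDegree ≤ D ∧ SP D P ∧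
    v = cl (algebraMap k[X] (RatFunc k) P)} with hS
  have hpoly : ∀ P : k[X], P ≠ 0 → SP D P →
      cl (algebraMap k[X] (RatFunc k) P) ∈ Submodule.span ℤ S := by
    intro P
    induction P using WfDvdMonoid.induction_on_irreducible with
    | zero => intro h; exact absurd rfl h
    | unit u hu =>
      intro _ _
      obtain ⟨c, hc, rfl⟩ := Polynomial.isUnit_iff.1 hu
      apply Submodule.subset_span
      left
      rw [RatFunc.algebraMap_C]
      exact tors_C hk _ hc.ne_zero
    | mul a i ha hi ih =>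
      intro _ h
      have h1 := ih ha (h.dvd (dvd_mul_left a i))
      rw [map_mul, cl_mul (RatFunc.algebraMap_ne_zero hi.ne_zero) (RatFunc.algebraMap_ne_zero ha)]
      refine Submodule.add_mem _ (Submodule.subset_span ?_) h1
      right
      have h2 := h i hi (dvd_mul_right i a)
      exact ⟨i, hi.ne_zero, Nat.le_of_dvd hDpos h2, h.dvd (dvd_mul_right i a), rfl⟩
  have hPL : ∀ f : RatFunc k, SU D f → cl f ∈ Submodule.span ℤ S := by
    intro f hf
    have hf' := SU_iff.1 hf
    have h3 : cl f = cl (algebraMap k[X] (RatFunc k) f.num)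
        - cl (algebraMap k[X] (RatFunc k) f.denom) := by
      rw [← cl_div (RatFunc.algebraMap_ne_zero (RatFunc.num_ne_zero hf.1))
        (RatFunc.algebraMap_ne_zero (RatFunc.denom_ne_zero f)), RatFunc.num_div_denom]
    rw [h3]
    exact Submodule.sub_mem _ (hpoly _ (RatFunc.num_ne_zero hf.1) hf'.2.1)
      (hpoly _ (RatFunc.denom_ne_zero f) hf'.2.2)
  have hPS : ∀ w : Fin (m + 2) → UV (RatFunc k), (∀ i, w i ∈ S) → PS Q w = 0 := by
    intro w hw
    by_cases h : ∃ i, Tors (w i)
    · obtain ⟨i, hi⟩ := h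
      exact map_zero_of_tors (PS Q) w i hi
    · push Not at h
      have h1 : ∀ i, ∃ P : k[X], P ≠ 0 ∧ P.natDegree ≤ D ∧ SP D P ∧
          w i = cl (algebraMap k[X] (RatFunc k) P) := fun i => (hw i).resolve_left (h i)
      choose P hP0 hPD hPS hPw using h1
      have h2 : w = fun i => cl (algebraMap k[X] (RatFunc k) (P i)) := funext hPw
      rw [h2]
      exact step3S p hDpos hq0 hq1 hq2 Q hQ P hP0 hPD hPS
  have h5 := ml_span (PS Q) S hPS (Fin.cons (cl g) (fun _ => cl f) : Fin (m + 2) → _) (by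
    intro i
    induction i using Fin.cases with
    | zero => exact hPL g hg
    | succ i => exact hPL f hf)
  obtain ⟨c, hc0, hc⟩ := PS_diag Q (cl f) (cl g)
  rw [hc] at h5
  exact_mod_cast (mul_eq_zero.1 h5).resolve_left hc0

end Pool.Agent.Helper70K9.GC
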