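import Pool.Agent.Helper70K9.GC.Te2

/-!
# Acyclicity of the subcomplexes of `S`-units from the duality statement for `S`-units
-/

set_option autoImplicit false

namespace Pool.Agent.Helper70K9.GC

open scoped TensorProduct
open Polynomial H39Gon H39Gon.C4 H39Gon.TC2 H39Gon.E2 Pool.Agent.TH358.GP H39Gon.TaskB

namespace Te3

section Main

variable {F : Type} [Field F] (U : F → Prop) (π : UV F →ₗ[ℤ] UV F)

/-- the duality statement for the elements with property `U` -/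
def SDU (m : ℕ) : Prop :=
  ∀ Q : MultilinearMap ℤ (fun _ : Fin (m + 1) => UV F) (UV F →ₗ[ℤ] ℚ),
    (∀ f : F, f ≠ 0 → f ≠ 1 → U f → U (1 - f) → Q (fun _ => cl f) (cl (1 - f)) = 0) →
    ∀ f g : F, U f → U g → Q (fun _ => cl f) (cl g) = 0

/-- good pairs -/
def Gd {j : ℕ} (x : F) (y : Fin j → UV F) : Prop :=
  x ≠ 0 ∧ x ≠ 1 ∧ U x ∧ U (1 - x) ∧ ∀ i, ∃ g, U g ∧ y i = cl g

/-- the span of the good elements -/
noncomputable def GS (m j : ℕ) : Submodule ℚ (TQ F m j) :=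
  Submodule.span ℚ {ξ | ∃ (x : F) (y : Fin j → UV F), Gd U x y ∧ ξ = tq F m j (some x) y}

/-- the span of the good elements -/
noncomputable def LS (j : ℕ) : Submodule ℚ (LQ F j) :=
  Submodule.span ℚ {ξ | ∃ y : Fin j → UV F, (∀ i, ∃ g, U g ∧ y i = cl g) ∧ ξ = lq F j y}

variable (hF : EvS F) (D : Differentials F) (hUT : ∀ f, U f → Tors (cl f - π (cl f)))
  (hπ : ∀ s, ∃ g, U g ∧ π s = cl g)

include hF hUT hπ in
theorem step_d (m j : ℕ) (hsd : SDU U (m + 2)) (φ : TQ F (m + 3) j →ₗ[ℚ] ℚ)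
    (hφ : ∀ (i : ℕ) (hi : j = i + 1) (x : F) (y : Fin i → UV F), Gd U x y →
      φ (tq F (m + 3) j (some x)
        ((Fin.cons (cl x) y : Fin (i + 1) → UV F) ∘ Fin.cast hi)) = 0) :
    ∃ ψ : TQ F (m + 2) (j + 1) →ₗ[ℚ] ℚ, ∀ (x : F) (y : Fin j → UV F), Gd U x y →
      φ (tq F (m + 3) j (some x) y) = ψ (D.d m j (tq F (m + 3) j (some x) y)) := by
  obtain ⟨Ψ, hΨ, hev⟩ := hF (m + 1) _ (toTheta φ) (fun r hr => toTheta_R φ r hr)
  have hsome : ∀ x y, φ (tq F (m + 3) j (some x) y) =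
      Ψ (cl (1 - x)) (cl x) (fun _ => cl x) y := by
    intro x y
    rw [← toTheta_apply, hev, ev_some]
  have hPp : ∀ a, Te2.Pp π Ψ a a = 0 := by
    intro a
    ext c y
    rw [Te2.Pp_apply, hΨ]
    rfl
  obtain ⟨Q', hQ1, hQ2⟩ := koszul_step m j (qOf (Te2.Pp π Ψ)) (by
      intro s
      rw [qOf_apply, hPp]
      rfl) (by
      intro i hi s v y
      subst hi
      obtain ⟨f, hf, hsf⟩ := hπ s
      obtain ⟨g, hg, hvg⟩ := hπ v
      have h1 := hsd (MultilinearMap.uncurryRight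
        (M := fun _ : Fin (m + 2 + 1) => UV F)
        ((flipTail (fun l => π (y l))).compMultilinearMap (qOf Ψ))) (by
          intro f hf0 hf1 hf2 hf3
          change qOf Ψ (fun _ => cl f) (cl (1 - f)) (Fin.cons (cl f) (fun l => π (y l))) = 0
          rw [qOf_apply, ← hsome]
          exact hφ i rfl f (fun l => π (y l)) ⟨hf0, hf1, hf2, hf3, fun l => hπ (y l)⟩) f g hf hg
      have h2 : qOf Ψ (fun _ => cl f) (cl g) (Fin.cons (cl f) (fun l => π (y l))) = 0 := h1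
      rw [qOf_apply, ← hsf, ← hvg] at h2
      change qOf (Te2.Pp π Ψ) (fun _ => s) v (Fin.cons s y) = 0
      rw [qOf_apply, Te2.Pp_apply]
      rw [← h2]
      congr 1
      funext l
      induction l using Fin.cases with
      | zero => rfl
      | succ l => rfl)
  refine ⟨ofTheta (theta' Q') (theta'_R Q' hQ1), ?_⟩
  rintro x y ⟨hx0, hx1, h1, h2, h3⟩
  rw [D.d_some m j x y hx0, ofTheta_apply, theta'_some, hQ2, qOf_apply, hsome]
  refine (Te2.Pp_eq π Ψ _ _ _ _ (hUT _ h2) (hUT _ h1) (fun _ => hUT _ h1) (fun i => ?_)).symm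
  obtain ⟨g, hg, hyg⟩ := h3 i
  rw [hyg]
  exact hUT g hg

include hF hUT hπ in
theorem step_e (j : ℕ) (hsd : SDU U 1) (φ : TQ F 2 j →ₗ[ℚ] ℚ)
    (hφ : ∀ (i : ℕ) (hi : j = i + 1) (x : F) (y : Fin i → UV F), Gd U x y →
      φ (tq F 2 j (some x)
        ((Fin.cons (cl x) y : Fin (i + 1) → UV F) ∘ Fin.cast hi)) = 0) :
    ∃ ψ : LQ F (j + 2) →ₗ[ℚ] ℚ, ∀ (x : F) (y : Fin j → UV F), Gd U x y →
      φ (tq F 2 j (some x) y) = ψ (D.e j (tq F 2 j (some x) y)) := by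
  obtain ⟨Ψ, hΨ, hev⟩ := hF 0 _ (toTheta φ) (fun r hr => toTheta_R φ r hr)
  have hsome : ∀ x y, φ (tq F 2 j (some x) y) =
      Ψ (cl (1 - x)) (cl x) (fun _ => cl x) y := by
    intro x y
    rw [← toTheta_apply, hev, ev_some]
  have hPp : ∀ a, Te2.Pp π Ψ a a = 0 := by
    intro a
    ext c y
    rw [Te2.Pp_apply, hΨ]
    rfl
  let Q : UV F →ₗ[ℤ] (UV F →ₗ[ℤ] (UV F [⋀^Fin j]→ₗ[ℤ] ℚ)) :=
    LinearMap.mk₂ ℤ (fun s v => Te2.Pp π Ψ v s Fin.elim0)
      (fun a b c => by simp) (fun a b c => by simp) (fun a b c => by simp)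
      (fun a b c => by simp)
  have hQ : ∀ s v, Q s v = Te2.Pp π Ψ v s (fun _ => s) := by
    intro s v
    change Te2.Pp π Ψ v s Fin.elim0 = _
    congr 1
    exact Subsingleton.elim _ _
  obtain ⟨Θ, hΘ⟩ := koszul_last j Q (by
      intro s
      rw [hQ, hPp]
      rfl) (by
      intro i hi s v y
      subst hi
      obtain ⟨f, hf, hsf⟩ := hπ s
      obtain ⟨g, hg, hvg⟩ := hπ v
      have h1 := hsd (MultilinearMap.uncurryRight
        (M := fun _ : Fin (1 + 1) => UV F)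
        ((flipTail (fun l => π (y l))).compMultilinearMap (qOf Ψ))) (by
          intro f hf0 hf1 hf2 hf3
          change qOf Ψ (fun _ => cl f) (cl (1 - f)) (Fin.cons (cl f) (fun l => π (y l))) = 0
          rw [qOf_apply, ← hsome]
          exact hφ i rfl f (fun l => π (y l)) ⟨hf0, hf1, hf2, hf3, fun l => hπ (y l)⟩) f g hf hg
      have h2 : qOf Ψ (fun _ => cl f) (cl g) (Fin.cons (cl f) (fun l => π (y l))) = 0 := h1
      rw [qOf_apply, ← hsf, ← hvg] at h2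
      rw [hQ]
      change Te2.Pp π Ψ v s (fun _ => s) (Fin.cons s y) = 0
      rw [Te2.Pp_apply, ← h2]
      congr 1
      funext l
      induction l using Fin.cases with
      | zero => rfl
      | succ l => rfl)
  refine ⟨ofAlt Θ, ?_⟩
  rintro x y ⟨hx0, hx1, h1, h2, h3⟩
  rw [D.e_some j x y hx0 hx1, ofAlt_apply, hΘ, hQ, hsome]
  refine (Te2.Pp_eq π Ψ _ _ _ _ (hUT _ h2) (hUT _ h1) (fun _ => hUT _ h1) (fun i => ?_)).symm
  obtain ⟨g, hg, hyg⟩ := h3 i
  rw [hyg]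
  exact hUT g hg

include hF hUT hπ in
theorem cocycle_d (m j : ℕ) (hsd : SDU U (m + 2)) (ξ : TQ F (m + 3) (j + 1))
    (hξ : ξ ∈ GS U (m + 3) (j + 1)) (h0 : D.d m (j + 1) ξ = 0) :
    ∃ η ∈ GS U (m + 4) j, D.d (m + 1) j η = ξ := by
  by_contra hcon
  have hn : ξ ∉ (GS U (m + 4) j).map (D.d (m + 1) j) := fun ⟨u, hu⟩ => hcon ⟨u, hu⟩
  obtain ⟨φ, hφ1, hφ2⟩ := exists_dual_ne hn
  obtain ⟨ψ, hψ⟩ := step_d U π hF D hUT hπ m (j + 1) hsd φ (by
    intro i hi x y hx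
    obtain rfl : j = i := by omega
    have h1 := hφ1 (D.d (m + 1) j (tq F (m + 1 + 3) j (some x) y))
      (Submodule.mem_map_of_mem (Submodule.subset_span ⟨x, y, hx, rfl⟩))
    rw [D.d_some _ _ _ _ hx.1] at h1
    exact h1)
  apply hφ2
  have key : ∀ ξ ∈ GS U (m + 3) (j + 1), φ ξ = ψ (D.d m (j + 1) ξ) := by
    intro ξ hξ
    refine Submodule.span_induction ?_ ?_ ?_ ?_ hξ
    · rintro _ ⟨x, y, hxy, rfl⟩
      exact hψ x y hxy
    · simp
    · intro a b _ _ ha hb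
      rw [map_add, map_add, map_add, ha, hb]
    · intro c a _ ha
      rw [map_smul, map_smul, map_smul, ha]
  rw [key ξ hξ, h0, map_zero]

include hF hUT hπ in
theorem cocycle_e (j : ℕ) (hsd : SDU U 1) (ξ : TQ F 2 (j + 1))
    (hξ : ξ ∈ GS U 2 (j + 1)) (h0 : D.e (j + 1) ξ = 0) : ∃ η ∈ GS U 3 j, D.d 0 j η = ξ := by
  by_contra hcon
  have hn : ξ ∉ (GS U 3 j).map (D.d 0 j) := fun ⟨u, hu⟩ => hcon ⟨u, hu⟩
  obtain ⟨φ, hφ1, hφ2⟩ := exists_dual_ne hn
  obtain ⟨ψ, hψ⟩ := step_e U π hF D hUT hπ (j + 1) hsd φ (by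
    intro i hi x y hx
    obtain rfl : j = i := by omega
    have h1 := hφ1 (D.d 0 j (tq F (0 + 3) j (some x) y))
      (Submodule.mem_map_of_mem (Submodule.subset_span ⟨x, y, hx, rfl⟩))
    rw [D.d_some _ _ _ _ hx.1] at h1
    exact h1)
  apply hφ2
  have key : ∀ ξ ∈ GS U 2 (j + 1), φ ξ = ψ (D.e (j + 1) ξ) := by
    intro ξ hξ
    refine Submodule.span_induction ?_ ?_ ?_ ?_ hξ
    · rintro _ ⟨x, y, hxy, rfl⟩
      exact hψ x y hxy
    · simp
    · intro a b _ _ ha hb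
      rw [map_add, map_add, map_add, ha, hb]
    · intro c a _ ha
      rw [map_smul, map_smul, map_smul, ha]
  rw [key ξ hξ, h0, map_zero]

include hUT hπ in
theorem surj_e (j : ℕ) (hsd : SDU U 0) (ξ : LQ F (j + 2))
    (hξ : ξ ∈ LS U (j + 2)) : ∃ η ∈ GS U 2 j, D.e j η = ξ := by
  by_contra hcon
  have hn : ξ ∉ (GS U 2 j).map (D.e j) := fun ⟨u, hu⟩ => hcon ⟨u, hu⟩
  obtain ⟨χ, hχ1, hχ2⟩ := exists_dual_ne hn
  apply hχ2
  have h1 : ∀ (y : Fin j → UV F) (s v : UV F),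
      toAlt χ (Fin.cons (π v) (Fin.cons (π s) (fun l => π (y l)))) = 0 := by
    intro y s v
    obtain ⟨f, hf, hsf⟩ := hπ s
    obtain ⟨g, hg, hvg⟩ := hπ v
    have h2 := hsd (MultilinearMap.ofSubsingleton ℤ (UV F)
      (UV F →ₗ[ℤ] ℚ) (0 : Fin 1)
      (LinearMap.flip ((evalTail (fun l => π (y l))) ∘ₗ (toAlt χ).curryLeft))) (by
        intro f hf0 hf1 hf2 hf3
        change toAlt χ (Fin.cons (cl (1 - f)) (Fin.cons (cl f) (fun l => π (y l)))) = 0
        rw [toAlt_apply, ← D.e_some j f (fun l => π (y l)) hf0 hf1]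
        exact hχ1 _ (Submodule.mem_map_of_mem (Submodule.subset_span
          ⟨f, fun l => π (y l), ⟨hf0, hf1, hf2, hf3, fun l => hπ (y l)⟩, rfl⟩))) f g hf hg
    rw [hvg, hsf]
    exact h2
  have key : ∀ ξ ∈ LS U (j + 2), χ ξ = 0 := by
    intro ξ hξ
    refine Submodule.span_induction ?_ ?_ ?_ ?_ hξ
    · rintro _ ⟨y, hy, rfl⟩
      rw [← toAlt_apply]
      have h3 : toAlt χ y = toAlt χ (fun l => π (y l)) := by
        refine Te2.ml_tors (toAlt χ).toMultilinearMap y (fun l => π (y l)) (fun i => ?_)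
        obtain ⟨g, hg, hyg⟩ := hy i
        rw [hyg]
        exact hUT g hg
      rw [h3]
      have h4 := h1 (Fin.tail (Fin.tail y)) (Fin.tail y 0) (y 0)
      rw [← h4]
      congr 1
      funext l
      induction l using Fin.cases with
      | zero => rfl
      | succ l =>
        induction l using Fin.cases with
        | zero => rfl
        | succ l => rfl
    · simp
    · intro a b _ _ ha hb
      rw [map_add, ha, hb, add_zero]
    · intro c a _ ha
      rw [map_smul, ha, smul_zero]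
  exact key ξ hξ

/-- the good elements form a subcomplex -/
theorem sub_d (m j : ℕ) (ξ : TQ F (m + 3) j) (hξ : ξ ∈ GS U (m + 3) j) :
    D.d m j ξ ∈ GS U (m + 2) (j + 1) := by
  refine Submodule.span_induction ?_ ?_ ?_ ?_ hξ
  · rintro _ ⟨x, y, hxy, rfl⟩
    rw [D.d_some _ _ _ _ hxy.1]
    refine Submodule.subset_span ⟨x, Fin.cons (cl x) y, ⟨hxy.1, hxy.2.1, hxy.2.2.1, hxy.2.2.2.1,
      fun i => ?_⟩, rfl⟩
    induction i using Fin.cases with
    | zero => exact ⟨x, hxy.2.2.1, rfl⟩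
    | succ i => exact hxy.2.2.2.2 i
  · rw [map_zero]; exact Submodule.zero_mem _
  · intro a b _ _ ha hb
    rw [map_add]; exact Submodule.add_mem _ ha hb
  · intro c a _ ha
    rw [map_smul]; exact Submodule.smul_mem _ c ha

theorem sub_e (j : ℕ) (ξ : TQ F 2 j) (hξ : ξ ∈ GS U 2 j) :
    D.e j ξ ∈ LS U (j + 2) := by
  refine Submodule.span_induction ?_ ?_ ?_ ?_ hξ
  · rintro _ ⟨x, y, hxy, rfl⟩
    rw [D.e_some _ _ _ hxy.1 hxy.2.1]
    refine Submodule.subset_span ⟨Fin.cons (cl (1 - x)) (Fin.cons (cl x) y), fun i => ?_, rfl⟩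
    induction i using Fin.cases with
    | zero => exact ⟨1 - x, hxy.2.2.2.1, rfl⟩
    | succ i =>
      induction i using Fin.cases with
      | zero => exact ⟨x, hxy.2.2.1, rfl⟩
      | succ i => exact hxy.2.2.2.2 i
  · rw [map_zero]; exact Submodule.zero_mem _
  · intro a b _ _ ha hb
    rw [map_add]; exact Submodule.add_mem _ ha hb
  · intro c a _ ha
    rw [map_smul]; exact Submodule.smul_mem _ c ha

end Main

end Te3

end Pool.Agent.Helper70K9.GC
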