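import Pool.Agent.H39R2.Gon.Base

/-!
# Finite constant fields: definitions

`k` is a finite field. The duality statement is only asserted for rational functions all of whose
zeros and poles have degree at most `D`, and for `|k|` large with respect to `m` and `D`.
-/

set_option autoImplicit false

namespace Pool.Agent.Helper70K9.GC

open Polynomial H39Gon Module

/-- `f ≠ 0` and all zeros and poles of `f` on the affine line have degree at most `D`. -/
def PL {k : Type} [Field k] (D : ℕ) (f : RatFunc k) : Prop :=
  f ≠ 0 ∧ ∀ P : k[X], Irreducible P → P ∣ f.num ∨ P ∣ f.denom → P.natDegree ≤ D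

/-- [TSD] the truncated duality statement.

Proof. As in `spd` (Spd.lean), now with `K = k` (`ι` the identity), `E = FiniteField.Extension k p D!`.
(1) `SpdL.decompK` with `ι = RingHom.id k`, `SpdL.deg_zero`, `FT_allD m D!` (Asm.lean): the
diagonal values `Q (s, …, s; v)` vanish for `s = cl A - cl B`, `v = cl A' - cl B'`, `deg A = deg B`,
`deg A' = deg B'`, all irreducible factors of `A`, `B`, `A'`, `B'` of degree `≤ D` (`decompK` asks
for `natDegree ≤ n`; here one needs the variant: all irreducible factors of `P` have degree `≤ n`).
(2) Hence (polarisation: `PS Q (Fin.cons v (fun _ => s)) = 0` on the subgroup of these elements, and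
`PS` symmetric in the last `m + 1` variables) `PS Q w = 0` when all `w i` are in this subgroup; this
is `SpdL.core` and `map_lincomb` directly, as in `SpdL.deg_zero`, with a different `G i` for
every `i`.
(3) For `m + 2` irreducible polynomials `P_i` of degree `≤ D`, if `m + 2 < |k|`, choose `c` with
`P_i(c) ≠ 0` for all `i` and transport by `SpdL.sgm c` (`SpdL.move_poly`):
`PS Q (fun i => cl P_i) = 0` by (2) for the transported form. (The reverse polynomial of
`P.comp (X + C c)` is irreducible or a constant times `X`-free of degree `≤ D`: the degree of the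
whole polynomial is `≤ D`, this is all one needs.)
(4) `D! • cl f` is modulo torsion an integral combination of the `cl P_i`; use `map_lincomb`. -/
def S_TSD : Prop := ∀ m D : ℕ, ∃ q0 : ℕ, ∀ (k : Type) [Field k] [Fintype k],
  q0 ≤ Fintype.card k →
    ∀ Q : MultilinearMap ℤ (fun _ : Fin (m + 1) => UV (RatFunc k)) (UV (RatFunc k) →ₗ[ℤ] ℚ),
      (∀ f : RatFunc k, f ≠ 0 → f ≠ 1 → Q (fun _ => cl f) (cl (1 - f)) = 0) →
      ∀ f g : RatFunc k, PL D f → PL D g → Q (fun _ => cl f) (cl g) = 0

end Pool.Agent.Helper70K9.GC
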