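import Pool.Agent.TH358.GP.EvI
import Pool.Agent.Helper70K9.GC.Defs

/-!
# Directed unions: extension of forms, functionals on `B_n(F)`, `SpanDual`
-/

set_option autoImplicit false

namespace Pool.Agent.Helper70K9.GC

open H39Gon H39Gon.C4 H39Gon.TC2 Pool.Agent.TH358.GP

section ext

variable {V V' : Type} [AddCommGroup V] [AddCommGroup V'] (i : V →ₗ[ℤ] V')
  (hi : Function.Injective i)

/-- restriction of multilinear maps -/
noncomputable def resM (n : ℕ) (W : Type) [AddCommGroup W] [Module ℚ W] :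
    MultilinearMap ℤ (fun _ : Fin n => V') W →ₗ[ℚ] MultilinearMap ℤ (fun _ : Fin n => V) W where
  toFun g := g.compLinearMap (fun _ => i)
  map_add' g g' := by ext c; simp
  map_smul' r g := by ext c; simp

theorem resM_apply (n : ℕ) (W : Type) [AddCommGroup W] [Module ℚ W]
    (g : MultilinearMap ℤ (fun _ : Fin n => V') W) (c : Fin n → V) :
    resM i n W g c = g (fun j => i (c j)) := rfl

include hi in
/-- multilinear maps with values in a `ℚ`-vector space extend -/
theorem resM_surj (n : ℕ) (W : Type) [AddCommGroup W] [Module ℚ W] :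
    Function.Surjective (resM i n W) := by
  induction n with
  | zero =>
    intro f
    refine ⟨MultilinearMap.constOfIsEmpty ℤ _ (f 0), ?_⟩
    ext c
    have hc : c = 0 := Subsingleton.elim _ _
    rw [hc]
    rfl
  | succ n ih =>
    intro f
    obtain ⟨σ, hσ⟩ := LinearMap.exists_rightInverse_of_surjective (resM i n W)
      (LinearMap.range_eq_top.2 ih)
    obtain ⟨L, hL⟩ := exists_ext i ((σ.restrictScalars ℤ) ∘ₗ f.curryLeft) (by
      intro a ha
      have : a = 0 := hi (by rw [ha, map_zero])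
      rw [this, map_zero])
    refine ⟨L.uncurryLeft, ?_⟩
    ext c
    rw [resM_apply, LinearMap.uncurryLeft_apply]
    have h1 : L (i (c 0)) = σ (f.curryLeft (c 0)) := by
      have := LinearMap.congr_fun hL (c 0)
      exact this.symm
    rw [h1]
    have h2 : resM i n W (σ (f.curryLeft (c 0))) = f.curryLeft (c 0) :=
      LinearMap.congr_fun hσ (f.curryLeft (c 0))
    have h3 : resM i n W (σ (f.curryLeft (c 0))) (Fin.tail c) = f.curryLeft (c 0) (Fin.tail c) := by
      rw [h2]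
    rw [resM_apply, MultilinearMap.curryLeft_apply, Fin.cons_self_tail] at h3
    exact h3

include hi in
/-- forms which alternate in the first two variables extend -/
theorem form_ext (m : ℕ)
    (Ψ₀ : V →ₗ[ℤ] V →ₗ[ℤ] MultilinearMap ℤ (fun _ : Fin m => V) ℚ) (h₀ : ∀ a, Ψ₀ a a = 0) :
    ∃ Ψ : V' →ₗ[ℤ] V' →ₗ[ℤ] MultilinearMap ℤ (fun _ : Fin m => V') ℚ,
      (∀ a, Ψ a a = 0) ∧ ∀ a b c, Ψ (i a) (i b) (fun j => i (c j)) = Ψ₀ a b c := by
  obtain ⟨g, hg⟩ := resM_surj i hi (m + 2) ℚ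
    ((((multilinearCurryLeftEquiv ℤ (fun _ : Fin (m + 1) => V) ℚ).symm.toLinearMap) ∘ₗ
      Ψ₀).uncurryLeft)
  set Ψ : V' →ₗ[ℤ] V' →ₗ[ℤ] MultilinearMap ℤ (fun _ : Fin m => V') ℚ :=
    (multilinearCurryLeftEquiv ℤ (fun _ : Fin (m + 1) => V') ℚ).toLinearMap ∘ₗ g.curryLeft with hΨ
  have hval : ∀ a b c, Ψ (i a) (i b) (fun j => i (c j)) = Ψ₀ a b c := by
    intro a b c
    have h1 := DFunLike.congr_fun hg (Fin.cons a (Fin.cons b c) : Fin (m + 2) → V)
    rw [resM_apply] at h1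
    have h2 : (fun j => i ((Fin.cons a (Fin.cons b c) : Fin (m + 2) → V) j)) =
        (Fin.cons (i a) (Fin.cons (i b) (fun j => i (c j))) : Fin (m + 2) → V') := by
      funext j
      refine Fin.cases ?_ (fun j => ?_) j
      · rfl
      · refine Fin.cases ?_ (fun j => ?_) j
        · rfl
        · rfl
    rw [h2] at h1
    exact h1
  have hanti : ∀ a b, Ψ₀ b a = - Ψ₀ a b := by
    intro a b
    have h1 := h₀ (a + b)
    have h2 : Ψ₀ (a + b) (a + b) = Ψ₀ a a + Ψ₀ b a + (Ψ₀ a b + Ψ₀ b b) := by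
      rw [map_add (Ψ₀ (a + b)), map_add Ψ₀, LinearMap.add_apply, LinearMap.add_apply]
    rw [h2, h₀, h₀, zero_add, add_zero] at h1
    exact eq_neg_of_add_eq_zero_left h1
  refine ⟨((2 : ℚ)⁻¹) • (Ψ - Ψ.flip), ?_, ?_⟩
  · intro a
    ext c
    simp
  · intro a b c
    have h1 : (((2 : ℚ)⁻¹) • (Ψ - Ψ.flip)) (i a) (i b) (fun j => i (c j)) =
        (2 : ℚ)⁻¹ * (Ψ (i a) (i b) (fun j => i (c j)) - Ψ (i b) (i a) (fun j => i (c j))) := rfl
    rw [h1, hval, hval, hanti a b, neg_apply]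
    ring

end ext

/-- `EvS` from the torsion criterion -/
theorem evS_of_tors {F : Type} [Field F]
    (h : ∀ (m : ℕ) (α : ZP F),
      (∀ Ψ : UV F →ₗ[ℤ] UV F →ₗ[ℤ] MultilinearMap ℤ (fun _ : Fin m => UV F) ℚ,
        (∀ a, Ψ a a = 0) → ev Ψ α = 0) → ∃ N : ℕ, 0 < N ∧ N • α ∈ R (m + 2) F) : EvS F := by
  intro m W _ _ θ hθ
  let I : Type := {Ψ : UV F →ₗ[ℤ] UV F →ₗ[ℤ] MultilinearMap ℤ (fun _ : Fin m => UV F) ℚ //
    ∀ a, Ψ a a = 0}
  obtain ⟨L, hL⟩ := exists_ext (LinearMap.pi (fun Ψ : I => ev Ψ.1)) θ (by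
    intro α hα
    obtain ⟨N, hN, h1⟩ := h m α (fun Ψ hΨ => congrFun hα ⟨Ψ, hΨ⟩)
    have h2 := hθ _ h1
    rw [map_nsmul, ← Nat.cast_smul_eq_nsmul ℚ] at h2
    exact (smul_eq_zero.1 h2).resolve_left (Nat.cast_ne_zero.2 hN.ne'))
  let P : UV F → UV F → MultilinearMap ℤ (fun _ : Fin m => UV F) (I → ℚ) := fun a b =>
    MultilinearMap.pi (fun Ψ : I => Ψ.1 a b)
  refine ⟨LinearMap.mk₂ ℤ (fun a b => L.compMultilinearMap (P a b)) ?_ ?_ ?_ ?_, ?_, ?_⟩
  · intro a a' b
    ext c
    have h1 : P (a + a') b c = P a b c + P a' b c := by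
      funext Ψ
      change Ψ.1 (a + a') b c = Ψ.1 a b c + Ψ.1 a' b c
      rw [map_add]
      rfl
    change L (P (a + a') b c) = L (P a b c) + L (P a' b c)
    rw [h1, map_add]
  · intro n a b
    ext c
    have h1 : P (n • a) b c = n • P a b c := by
      funext Ψ
      change Ψ.1 (n • a) b c = n • Ψ.1 a b c
      rw [map_smul]
      rfl
    change L (P (n • a) b c) = n • L (P a b c)
    rw [h1, map_smul]
  · intro a b b'
    ext c
    have h1 : P a (b + b') c = P a b c + P a b' c := by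
      funext Ψ
      change Ψ.1 a (b + b') c = Ψ.1 a b c + Ψ.1 a b' c
      rw [map_add]
      rfl
    change L (P a (b + b') c) = L (P a b c) + L (P a b' c)
    rw [h1, map_add]
  · intro n a b
    ext c
    have h1 : P a (n • b) c = n • P a b c := by
      funext Ψ
      change Ψ.1 a (n • b) c = n • Ψ.1 a b c
      rw [map_smul]
      rfl
    change L (P a (n • b) c) = n • L (P a b c)
    rw [h1, map_smul]
  · intro a
    ext c
    have h1 : P a a c = 0 := by
      funext Ψ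
      change Ψ.1 a a c = 0
      rw [Ψ.2 a]
      rfl
    change L (P a a c) = 0
    rw [h1, map_zero]
  · rw [hL]
    apply Finsupp.lhom_ext'
    intro x
    apply LinearMap.ext_ring
    rw [LinearMap.comp_apply, LinearMap.comp_apply, LinearMap.comp_apply, Finsupp.lsingle_apply]
    cases x with
    | none =>
      rw [ev_single_none]
      have h1 : (LinearMap.pi (fun Ψ : I => ev Ψ.1)) (Finsupp.single none 1) = 0 := by
        funext Ψ
        change ev Ψ.1 (Finsupp.single none 1) = 0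
        rw [ev_single_none]
      rw [h1, map_zero]
    | some x =>
      rw [ev_single_some, one_smul]
      have h1 : (LinearMap.pi (fun Ψ : I => ev Ψ.1)) (Finsupp.single (some x) 1) =
          P (cl (1 - x)) (cl x) (fun _ => cl x) := by
        funext Ψ
        change ev Ψ.1 (Finsupp.single (some x) 1) = Ψ.1 (cl (1 - x)) (cl x) (fun _ => cl x)
        rw [ev_single_some, one_smul]
      rw [h1]
      rfl

/-- naturality of `ev` -/
theorem ev_nat {F F' : Type} [Field F] [Field F'] (φ : F →+* F') {m : ℕ}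
    (Ψ₀ : UV F →ₗ[ℤ] UV F →ₗ[ℤ] MultilinearMap ℤ (fun _ : Fin m => UV F) ℚ)
    (Ψ : UV F' →ₗ[ℤ] UV F' →ₗ[ℤ] MultilinearMap ℤ (fun _ : Fin m => UV F') ℚ)
    (h : ∀ a b c, Ψ (rmU φ a) (rmU φ b) (fun j => rmU φ (c j)) = Ψ₀ a b c) (α : ZP F) :
    ev Ψ (rmM φ α) = ev Ψ₀ α := by
  have h1 : (ev Ψ) ∘ₗ (rmM φ) = ev Ψ₀ := by
    apply Finsupp.lhom_ext'
    intro x
    apply LinearMap.ext_ring
    rw [LinearMap.comp_apply, LinearMap.comp_apply, LinearMap.comp_apply, Finsupp.lsingle_apply,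
      rmM_single]
    cases x with
    | none => rw [Option.map_none, ev_single_none, ev_single_none]
    | some x =>
      rw [Option.map_some, ev_single_some, ev_single_some, one_smul, one_smul, ← h, rmU_cl, rmU_cl,
        map_sub, map_one]
  exact LinearMap.congr_fun h1 α

theorem rmU_inj {F F' : Type} [Field F] [Field F'] (φ : F →+* F') :
    Function.Injective (rmU φ) := by
  intro a b h
  have h1 : Units.map (φ : F →* F') (Additive.toMul a) = Units.map (φ : F →* F') (Additive.toMul b) :=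
    h
  have h2 : (Additive.toMul a : Fˣ) = Additive.toMul b := by
    apply Units.ext
    apply φ.injective
    exact congrArg (fun u : F'ˣ => (u : F')) h1
  exact h2

/-- the elements of `ℤ[P^1_F]` with support in a subfield -/
theorem exists_rmM {F F' : Type} [Field F] [Field F'] (φ : F →+* F') (α : ZP F')
    (h : ∀ x : F', some x ∈ α.support → ∃ y, φ y = x) : ∃ α₀ : ZP F, rmM φ α₀ = α := by
  classical
  have key : ∀ x : P1 F', x ∈ α.support → ∃ y : P1 F, Option.map φ y = x := by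
    intro x hx
    cases x with
    | none => exact ⟨none, rfl⟩
    | some x =>
      obtain ⟨y, hy⟩ := h x hx
      exact ⟨some y, by rw [Option.map_some, hy]⟩
  choose! g hg using key
  refine ⟨α.sum (fun x c => Finsupp.single (g x) c), ?_⟩
  rw [Finsupp.sum, map_sum]
  conv_rhs => rw [← Finsupp.sum_single α, Finsupp.sum]
  apply Finset.sum_congr rfl
  intro x hx
  rw [rmM_single, hg x hx]

/-- `F` is a directed union of images of fields with a property -/
def DirUnion (F : Type) [Field F] (P : (F₀ : Type) → Field F₀ → Prop) : Prop :=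
  ∀ s : Finset F, ∃ (F₀ : Type) (i₀ : Field F₀) (φ : F₀ →+* F), P F₀ i₀ ∧ ∀ x ∈ s, ∃ y, φ y = x

theorem evS_union {F : Type} [Field F]
    (h : DirUnion F (fun F₀ _ => EvS F₀)) : EvS F := by
  classical
  apply evS_of_tors
  intro m α hα
  obtain ⟨F₀, i₀, φ, hF₀, hφ⟩ := h (α.support.biUnion (fun x => x.elim ∅ (fun y => {y})))
  obtain ⟨α₀, rfl⟩ := exists_rmM φ α (by
    intro x hx
    apply hφ
    rw [Finset.mem_biUnion]
    exact ⟨some x, hx, by simp⟩)
  obtain ⟨N, hN, h1⟩ := tors_of_ev hF₀ m α₀ (by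
    intro Ψ₀ hΨ₀
    obtain ⟨Ψ, hΨ, h2⟩ := form_ext (rmU φ) (rmU_inj φ) m Ψ₀ hΨ₀
    rw [← ev_nat φ Ψ₀ Ψ h2]
    exact hα Ψ hΨ)
  refine ⟨N, hN, ?_⟩
  rw [← map_nsmul]
  exact R_map φ m _ h1

theorem spanDual_union {F : Type} [Field F] (m : ℕ)
    (h : DirUnion F (fun F₀ _ => SpanDual F₀ m)) : SpanDual F m := by
  classical
  intro Q hQ s v
  obtain ⟨F₀, i₀, φ, hF₀, hφ⟩ := h {((Additive.toMul s : Fˣ) : F), ((Additive.toMul v : Fˣ) : F)}
  have hl : ∀ u : UV F, (∃ y, φ y = ((Additive.toMul u : Fˣ) : F)) → ∃ u₀, rmU φ u₀ = u := by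
    rintro u ⟨y, hy⟩
    have hy0 : y ≠ 0 := by
      rintro rfl
      rw [map_zero] at hy
      exact (Additive.toMul u).ne_zero hy.symm
    refine ⟨cl y, ?_⟩
    rw [rmU_cl, hy]
    unfold cl
    rw [dif_neg (Additive.toMul u).ne_zero]
    have : Units.mk0 ((Additive.toMul u : Fˣ) : F) (Additive.toMul u).ne_zero = Additive.toMul u :=
      Units.ext rfl
    rw [this]
    rfl
  obtain ⟨s₀, rfl⟩ := hl s (hφ _ (by simp))
  obtain ⟨v₀, rfl⟩ := hl v (hφ _ (by simp))
  let C : (UV F →ₗ[ℤ] ℚ) →ₗ[ℤ] (UV F₀ →ₗ[ℤ] ℚ) :=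
    { toFun := fun g => g ∘ₗ rmU φ
      map_add' := fun _ _ => rfl
      map_smul' := fun _ _ => rfl }
  have h1 := hF₀ (C.compMultilinearMap (Q.compLinearMap (fun _ => rmU φ))) (by
    intro f hf0 hf1
    change Q (fun _ => rmU φ (cl f)) (rmU φ (cl (1 - f))) = 0
    rw [rmU_cl, rmU_cl, map_sub, map_one]
    apply hQ
    · intro h0
      exact hf0 (φ.injective (by rw [h0, map_zero]))
    · intro h0
      exact hf1 (φ.injective (by rw [h0, map_one]))) s₀ v₀
  exact h1

end Pool.Agent.Helper70K9.GC
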